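import Pool.Agent.H68.SF.LT2

/-! # MP_3b3fc8_lc, part L, module LAR: ordinal arithmetic is uniformly definable -/

open Ordinal Cardinal Order Set
open scoped ZFSet

namespace SF

private theorem LAR_sum (hR : T_RKT) :
    Tm ZFm (fun _ v => ((v 1).rank + (v 0).rank).toZFSet) := by
  have hr : ∀ i : ℕ, Tm ZFm (fun _ v => (v i).rank.toZFSet) := fun i =>
    Tm.at1 (F := fun _ x => x.rank.toZFSet) hR (Tm.var i)
  refine tm_recu (ext := fun _ v => (v 0).rank.toZFSet)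
    (Φ := fun _ w => (w 2).rank.toZFSet ∪ imS (w 1).rank.toZFSet fun y => app (w 0) y)
    ZFSet.rank (hr 0) ?_ ?_ ?_
  · exact Tm.union (hr 2) (Tm.image (g := fun _ w => app (w 1) (w 0)) (hr 1)
      (Tm.app (Tm.var 1) (Tm.var 0)))
  · intro M k v hv y hy
    obtain ⟨γ, hγ, rfl⟩ := Ordinal.mem_toZFSet_iff.1 hy
    rwa [Ordinal.rank_toZFSet]
  · intro M k v hv
    ext x
    simp only [cons_zero, cons_succ, ZFSet.mem_union, mem_imS]
    constructor
    · intro hx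
      obtain ⟨o, ho, rfl⟩ := Ordinal.mem_toZFSet_iff.1 hx
      rcases lt_or_ge o (v 1).rank with h | h
      · exact Or.inl (Ordinal.toZFSet_mem_toZFSet_iff.2 h)
      · right
        have h1 : (v 1).rank + (o - (v 1).rank) = o := Ordinal.add_sub_cancel_of_le h
        have h2 : o - (v 1).rank < (v 0).rank := by
          rw [← h1] at ho
          exact (add_lt_add_iff_left _).1 ho
        have h3 : (o - (v 1).rank).toZFSet ∈ (v 0).rank.toZFSet :=
          Ordinal.toZFSet_mem_toZFSet_iff.2 h2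
        refine ⟨(o - (v 1).rank).toZFSet, h3, ?_⟩
        rw [app_resS h3, Ordinal.rank_toZFSet, h1]
    · rintro (hx | ⟨y, hy, rfl⟩)
      · obtain ⟨o, ho, rfl⟩ := Ordinal.mem_toZFSet_iff.1 hx
        exact Ordinal.toZFSet_mem_toZFSet_iff.2 (lt_of_lt_of_le ho le_self_add)
      · rw [app_resS hy]
        obtain ⟨γ, hγ, rfl⟩ := Ordinal.mem_toZFSet_iff.1 hy
        rw [Ordinal.rank_toZFSet]
        exact Ordinal.toZFSet_mem_toZFSet_iff.2 ((add_lt_add_iff_left _).2 hγ)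

private theorem LAR_mul (hR : T_RKT) :
    Tm ZFm (fun _ v => ((v 1).rank * (v 0).rank).toZFSet) := by
  have hr : ∀ i : ℕ, Tm ZFm (fun _ v => (v i).rank.toZFSet) := fun i =>
    Tm.at1 (F := fun _ x => x.rank.toZFSet) hR (Tm.var i)
  refine tm_recu (ext := fun _ v => (v 0).rank.toZFSet)
    (Φ := fun _ w => (⋃₀ (imS (w 1).rank.toZFSet fun y =>
      ((app (w 0) y).rank + (w 2).rank).toZFSet) : ZFSet))
    ZFSet.rank (hr 0) ?_ ?_ ?_
  · refine Tm.iUn (g := fun _ w => ((app (w 1) (w 0)).rank + (w 3).rank).toZFSet) (hr 1) ?_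
    exact Tm.at2 (F := fun _ x y => (y.rank + x.rank).toZFSet) (LAR_sum hR) (Tm.var 3)
      (Tm.app (Tm.var 1) (Tm.var 0))
  · intro M k v hv y hy
    obtain ⟨γ, hγ, rfl⟩ := Ordinal.mem_toZFSet_iff.1 hy
    rwa [Ordinal.rank_toZFSet]
  · intro M k v hv
    ext x
    simp only [cons_zero, cons_succ, ZFSet.mem_sUnion, mem_imS]
    constructor
    · intro hx
      obtain ⟨o, ho, rfl⟩ := Ordinal.mem_toZFSet_iff.1 hx
      obtain ⟨q, hq, r, hr, rfl⟩ := Ordinal.lt_mul_iff.1 ho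
      have h3 : q.toZFSet ∈ (v 0).rank.toZFSet := Ordinal.toZFSet_mem_toZFSet_iff.2 hq
      refine ⟨_, ⟨q.toZFSet, h3, rfl⟩, ?_⟩
      rw [app_resS h3, Ordinal.rank_toZFSet, Ordinal.rank_toZFSet]
      exact Ordinal.toZFSet_mem_toZFSet_iff.2 ((add_lt_add_iff_left _).2 hr)
    · rintro ⟨z, ⟨y, hy, rfl⟩, hx⟩
      rw [app_resS hy] at hx
      obtain ⟨γ, hγ, rfl⟩ := Ordinal.mem_toZFSet_iff.1 hy
      rw [Ordinal.rank_toZFSet, Ordinal.rank_toZFSet] at hx
      obtain ⟨o, ho, rfl⟩ := Ordinal.mem_toZFSet_iff.1 hx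
      refine Ordinal.toZFSet_mem_toZFSet_iff.2 (lt_of_lt_of_le ho ?_)
      rw [← Ordinal.mul_succ]
      exact mul_le_mul_right (Order.succ_le_of_lt hγ) _

theorem pf_LAR (hR : T_RKT) : T_LAR :=
  ⟨(LAR_sum hR).rn (fun i => if i = 0 then 1 else 0),
    (LAR_mul hR).rn (fun i => if i = 0 then 1 else 0)⟩

end SF
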