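import Pool.Agent.H68.SF.LT3

/-! # MP_3b3fc8_lc, part L, module LBS: condensation, bounded subsets -/

open Ordinal Cardinal Order Set
open scoped ZFSet

namespace SF

/-- a family of fewer than `κ` ordinals below the regular cardinal `κ` is bounded -/
private theorem LBS_bdd {κ : Cardinal.{0}} (hκ : κ.IsRegular) (Y : V) (hY : Y.card < κ)
    (l : V → Ordinal.{0}) (hl : ∀ y ∈ Y, l y < κ.ord) : ∃ d < κ.ord, ∀ y ∈ Y, l y < d := by
  have hlim : IsSuccLimit κ.ord := Cardinal.isSuccLimit_ord hκ.1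
  let g : Shrink.{0} Y → Ordinal.{0} := fun i => succ (l ((equivShrink Y).symm i).1)
  have hg : ∀ i, g i < κ.ord := fun i =>
    hlim.succ_lt (hl _ ((equivShrink Y).symm i).2)
  have h1 : iSup g < κ.ord := by
    apply Ordinal.iSup_lt_of_lt_cof _ hg
    rw [hκ.cof_ord]
    exact hY
  refine ⟨iSup g, h1, fun y hy => ?_⟩
  have h2 : g (equivShrink Y ⟨y, hy⟩) ≤ iSup g := Ordinal.le_iSup g _
  have h3 : g (equivShrink Y ⟨y, hy⟩) = succ (l y) := by
    simp [g]
  rw [h3] at h2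
  exact Order.succ_le_iff.1 h2

private theorem LBS_rel (hLHT : T_LHT) : Dfb ZFm (fun M v => ∃ t, M t ∧ (IsOrd t ∧
    v 0 ∈ Lh (insert (v 1) (v 1)) ∅ t.rank)) := by
  have h1 : Tm ZFm (fun _ v => Lh (insert (v 2) (v 2)) ∅ (v 0).rank) :=
    Tm.at3 (F := fun _ x y z => Lh x y z.rank) hLHT (Tm.ins (Tm.var 2) (Tm.var 2)) Tm.empty
      (Tm.var 0)
  exact ((Dfb.isOrd (Tm.var 0)).and (Dfb.mem (Tm.var 1) h1)).ex

theorem pf_LBS (hLCA : T_LCA) (hLZF : T_LZF) (hLLS : T_LLS) (hLCO : T_LCO) (hLED : T_LED)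
    (hLEZ : T_LEZ) (hLHT : T_LHT) : T_LBS := by
  classical
  intro κ hκ hκ0 A hA R hR x hx hRx
  set N : V := LA A κ.ord with hNdef
  have hlim : IsSuccLimit κ.ord := Cardinal.isSuccLimit_ord hκ.1
  have trL : ∀ α, (LA A α).IsTransitive := fun α => Lh_isTransitive ZFSet.isTransitive_empty α
  have trN : N.IsTransitive := trL κ.ord
  have hκN : κ ≤ N.card := by
    have h1 : κ.ord.toZFSet ⊆ N := (ord_sub_Lh ZFSet.isTransitive_empty κ.ord).1
    have h2 := ZFSet.card_mono h1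
    rwa [Ordinal.card_toZFSet, Cardinal.card_ord] at h2
  have hN0 : ℵ₀ ≤ N.card := hκ0.le.trans hκN
  set lam : Cardinal.{0} := succ N.card with hlam
  have hlamR : lam.IsRegular := Cardinal.isRegular_succ hN0
  have hlam0 : ℵ₀ < lam := lt_of_le_of_lt hN0 (Order.lt_succ _)
  have hlimL : IsSuccLimit lam.ord := Cardinal.isSuccLimit_ord hlamR.1
  set a : V := insert N N with ha
  have tra : a.IsTransitive := by
    intro y hy z hz
    rcases ZFSet.mem_insert_iff.1 hy with rfl | hy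
    · exact ZFSet.mem_insert_iff.2 (Or.inr hz)
    · exact ZFSet.mem_insert_iff.2 (Or.inr (trN y hy hz))
  have hacard : a.card < lam := by
    refine lt_of_le_of_lt ZFSet.card_insert_le ?_
    refine Cardinal.add_lt_of_lt hlam0.le (Order.lt_succ _) ?_
    exact lt_trans Cardinal.one_lt_aleph0 hlam0
  set M : V := LN N lam.ord with hM
  have trM : M.IsTransitive := Lh_isTransitive tra _
  have kM : ZFm (· ∈ M) := hLZF lam hlamR hlam0 a ∅ tra hacard
  have kN : ZFm (· ∈ N) := hLZF κ hκ hκ0 ∅ A ZFSet.isTransitive_empty (by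
    rw [ZFSet.card_empty]; exact hκ.pos)
  have haM : a ⊆ M := sub_Lh
  have hNM : N ∈ M := haM (ZFSet.mem_insert_iff.2 (Or.inl rfl))
  have hNsM : N ⊆ M := fun y hy => haM (ZFSet.mem_insert_iff.2 (Or.inr hy))
  -- levels
  let lev : V → Ordinal.{0} := fun y => sInf {d | y ∈ LA A d}
  have hlev1 : ∀ y ∈ N, y ∈ LA A (lev y) ∧ lev y < κ.ord := by
    intro y hy
    obtain ⟨β, hβ, h1⟩ := (mem_Lh_limit hlim).1 hy
    have h2 : β ∈ {d | y ∈ LA A d} := h1
    exact ⟨csInf_mem (s := {d | y ∈ LA A d}) ⟨β, h2⟩, lt_of_le_of_lt (csInf_le' h2) hβ⟩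
  let E : V → V := fun y => if y ∈ N then LA A (succ (lev y)) else ∅
  have hEcard : ∀ β < κ.ord, (LA A β).card < κ := by
    intro β hβ
    refine lt_of_le_of_lt (hLCA ∅ A β) ?_
    rw [ZFSet.card_empty]
    refine max_lt (max_lt hκ0 hκ.pos) ?_
    exact Cardinal.lt_ord.1 hβ
  have hEsub : ∀ β < κ.ord, LA A β ⊆ N := fun β hβ => Lh_mono hβ.le
  have hE : ∀ y ∈ M, (E y).card < κ ∧ E y ⊆ M := by
    intro y _
    by_cases h : y ∈ N
    · have h1 := hlim.succ_lt (hlev1 y h).2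
      simp only [E, if_pos h]
      exact ⟨hEcard _ h1, fun z hz => hNsM (hEsub _ h1 hz)⟩
    · simp only [E, if_neg h]
      refine ⟨?_, ZFSet.empty_subset _⟩
      rw [ZFSet.card_empty]
      exact hκ.pos
  -- the submodel
  have hx1 := hlim.succ_lt (hlev1 x hx).2
  obtain ⟨X, hXM, hSX, hXcard, hXE⟩ := hLLS κ hκ hκ0 M
    (insert N (insert R (LA A (succ (lev x))))) ⟨N, hNM⟩ (by
      intro y hy
      rcases ZFSet.mem_insert_iff.1 hy with rfl | hy
      · exact hNM
      rcases ZFSet.mem_insert_iff.1 hy with rfl | hy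
      · exact hR
      · exact hNsM (hEsub _ hx1 hy)) (by
      have h1 : ∀ (u w : V), w.card < κ → (insert u w : V).card < κ := by
        intro u w hw
        refine lt_of_le_of_lt ZFSet.card_insert_le ?_
        exact Cardinal.add_lt_of_lt hκ0.le hw (lt_trans Cardinal.one_lt_aleph0 hκ0)
      exact h1 _ _ (h1 _ _ (hEcard _ hx1))) E hE
  have hNX : N ∈ X := hSX (ZFSet.mem_insert_iff.2 (Or.inl rfl))
  have hRX : R ∈ X := hSX (ZFSet.mem_insert_iff.2 (Or.inr (ZFSet.mem_insert_iff.2 (Or.inl rfl))))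
  have hLX : LA A (succ (lev x)) ⊆ X := fun y hy =>
    hSX (ZFSet.mem_insert_iff.2 (Or.inr (ZFSet.mem_insert_iff.2 (Or.inr hy))))
  set Y : V := X ∩ N with hY
  have hYcard : Y.card < κ := lt_of_le_of_lt
    (ZFSet.card_mono (fun z hz => (ZFSet.mem_inter.1 hz).1)) hXcard
  obtain ⟨d0, hd0, hd0'⟩ := LBS_bdd hκ Y hYcard lev
    (fun y hy => (hlev1 y (ZFSet.mem_inter.1 hy).2).2)
  set D : Set Ordinal.{0} := {d | ∀ y ∈ Y, lev y < d} with hD
  have hd0D : d0 ∈ D := hd0'
  set d := sInf D with hd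
  have hdD : ∀ y ∈ Y, lev y < d := (csInf_mem (s := D) ⟨d0, hd0D⟩ : sInf D ∈ D)
  have hdκ : d < κ.ord := lt_of_le_of_lt (csInf_le' hd0D) hd0
  have hdle : ∀ β < d, ∃ y ∈ Y, β ≤ lev y := by
    intro β hβ
    by_contra hcon
    simp only [not_exists, not_and, not_le] at hcon
    exact notMem_of_lt_csInf' hβ hcon
  have hYeq : Y = LA A d := by
    ext z
    constructor
    · intro hz
      exact Lh_mono (hdD z hz).le (hlev1 z (ZFSet.mem_inter.1 hz).2).1
    · intro hz
      rcases mem_Lh.1 hz with hz | ⟨β, hβ, hz⟩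
      · exact absurd hz (ZFSet.notMem_empty z)
      · obtain ⟨y, hy, hβy⟩ := hdle β hβ
        have hyN := (ZFSet.mem_inter.1 hy).2
        have h1 : z ∈ LA A (succ (lev y)) := Def_Lh_sub (lt_of_le_of_lt hβy (Order.lt_succ _)) hz
        have h2 : E y = LA A (succ (lev y)) := by simp only [E, if_pos hyN]
        have h3 : z ∈ X := hXE y (ZFSet.mem_inter.1 hy).1 (h2 ▸ h1)
        exact ZFSet.mem_inter.2 ⟨h3, hEsub _ (hlim.succ_lt (hlev1 y hyN).2) h1⟩
  have trY : Y.IsTransitive := hYeq ▸ trL d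
  -- the collapse
  obtain ⟨X', f, trX', hf, hfX, hcard', hfmem, hfid⟩ := hLCO M X trM ⟨N, hNM⟩ hXM
  have hYX : Y ⊆ X := fun z hz => (ZFSet.mem_inter.1 hz).1
  have hid : ∀ u ∈ Y, u ∈ X' ∧ app f u = u := hfid Y trY hYX
  have hinj : ∀ u ∈ X', ∀ w ∈ X', app f u = app f w → u = w := by
    intro u hu w hw h
    have h1 := hf.el (.eq 0 1) (fun i => if i = 0 then u else w) (by
      intro i
      by_cases hi : i = 0
      · simp only [hi, if_true]; exact hu
      · simp only [hi, if_false]; exact hw)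
    have h2 : (u = w) ↔ (app f u = app f w) := by simpa [Sat, SatP] using h1
    exact h2.2 h
  -- a set of `X'` whose image is a subset of `Y` is not moved
  have hsub : ∀ u ∈ X', app f u ∩ X ⊆ Y → ∀ y, y ∈ u ↔ y ∈ app f u ∩ Y := by
    intro u hu h y
    rw [hfmem u hu y, ZFSet.mem_inter]
    constructor
    · rintro ⟨h1, h2⟩
      have h3 : app f y ∈ X := (hfX _).2 ⟨y, h1, rfl⟩
      have h4 : app f y ∈ Y := h (ZFSet.mem_inter.2 ⟨h2, h3⟩)
      obtain ⟨h5, h6⟩ := hid _ h4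
      have h7 : app f y = y := hinj _ h5 _ h1 h6
      rw [h7] at h2 h4
      exact ⟨h2, h4⟩
    · rintro ⟨h1, h2⟩
      obtain ⟨h5, h6⟩ := hid _ h2
      exact ⟨h5, by rw [h6]; exact h1⟩
  obtain ⟨N1, hN1, hN1f⟩ := (hfX N).1 hNX
  have hN1Y : N1 = Y := by
    ext y
    rw [hsub N1 hN1 (by
      rw [hN1f]
      intro z hz
      exact ZFSet.mem_inter.2 ⟨(ZFSet.mem_inter.1 hz).2, (ZFSet.mem_inter.1 hz).1⟩) y, hN1f,
      ZFSet.mem_inter]
    exact ⟨fun h => h.2, fun h => ⟨(ZFSet.mem_inter.1 h).2, h⟩⟩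
  obtain ⟨R1, hR1, hR1f⟩ := (hfX R).1 hRX
  have hRY : R ⊆ Y := by
    intro z hz
    have h1 : z ∈ LA A (lev x) := trL _ x (hlev1 x hx).1 (hRx hz)
    exact ZFSet.mem_inter.2 ⟨hLX (Lh_mono (Order.le_succ _) h1), trN x hx (hRx hz)⟩
  have hR1R : R1 = R := by
    ext y
    rw [hsub R1 hR1 (by
      rw [hR1f]
      intro z hz
      exact hRY (ZFSet.mem_inter.1 hz).1) y, hR1f, ZFSet.mem_inter]
    exact ⟨fun h => h.1, fun h => ⟨h, hRY h⟩⟩
  have kX' : ZFm (· ∈ X') := (hLEZ X' M f ⟨N1, hN1⟩ trX' hf).1 kM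
  -- `R` is constructed in `M`, so in `X'`
  have hMrel : ∃ t, t ∈ M ∧ (IsOrd t ∧ R ∈ Lh (insert N N) ∅ t.rank) := by
    obtain ⟨α, hα, h1⟩ := (mem_Lh_limit hlimL).1 hR
    refine ⟨α.toZFSet, ord_mem_Lh tra hα, ⟨α, rfl⟩, ?_⟩
    rw [Ordinal.rank_toZFSet]
    exact h1
  have htr := hLED ZFm _ (LBS_rel hLHT) X' M f hf kX' kM
    (fun i => if i = 0 then R1 else N1) (by
      intro i
      by_cases hi : i = 0
      · simp only [hi, if_true]; exact hR1
      · simp only [hi, if_false]; exact hN1)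
  obtain ⟨t, htX, ⟨α, hα⟩, ht⟩ := htr.2 (by
    obtain ⟨t, h1, h2, h3⟩ := hMrel
    refine ⟨t, h1, h2, ?_⟩
    simp only [if_true, one_ne_zero, if_false, hR1f, hN1f]
    exact h3)
  simp only [if_true, one_ne_zero, if_false] at ht
  subst hα
  rw [Ordinal.rank_toZFSet, hR1R, hN1Y, hYeq] at ht
  have hακ : α < κ.ord := by
    rw [Cardinal.lt_ord, ← Ordinal.card_toZFSet]
    refine lt_of_le_of_lt (ZFSet.card_mono (y := X') ?_) (hcard' ▸ hXcard)
    exact fun z hz => trX' _ htX hz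
  -- in `N`
  have hdN : LA A d ∈ N := by
    have h1 := hLHT.1 (· ∈ N) kN (fun i => if i = 0 then (∅ : V) else if i = 1 then A else d.toZFSet)
      (by
        intro i
        by_cases hi : i = 0
        · simp only [hi, if_true]; exact kN.mempty
        · by_cases hi1 : i = 1
          · simp only [hi1, one_ne_zero, if_false, if_true]; exact hA
          · simp only [hi, hi1, if_false]
            exact ord_mem_Lh ZFSet.isTransitive_empty hdκ)
    simpa [Ordinal.rank_toZFSet, LA] using h1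
  have haN : (insert (LA A d) (LA A d) : V) ∈ N := (Tm.ins (Tm.var 0) (Tm.var 0)).1 (· ∈ N) kN
    (fun _ => LA A d) (fun _ => hdN)
  have hfin : Lh (insert (LA A d) (LA A d)) ∅ α ∈ N := by
    have h1 := hLHT.1 (· ∈ N) kN (fun i => if i = 0 then (insert (LA A d) (LA A d) : V)
      else if i = 1 then (∅ : V) else α.toZFSet) (by
        intro i
        by_cases hi : i = 0
        · simp only [hi, if_true]; exact haN
        · by_cases hi1 : i = 1
          · simp only [hi1, one_ne_zero, if_false, if_true]; exact kN.mempty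
          · simp only [hi, hi1, if_false]
            exact ord_mem_Lh ZFSet.isTransitive_empty hακ)
    simpa [Ordinal.rank_toZFSet] using h1
  exact trN _ hfin ht

end SF
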