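import Pool.Agent.H84.SF.Geo
import Pool.Agent.H3.SF.Defs

/-!
# MP_70ba79_ag, THEOREM S (surfaces), chapter 11: contact, geometric part 2

The surface `Y` has the homogeneous coordinates `X i`, `u` are three linear forms, `J` is a form in
`u`, `D` is the curve `G = 0`, `G = GP (X)`.
-/

set_option autoImplicit false

namespace Pool.Agent.H84.SF

open MvPolynomial SC
open Pool.Agent.H27.LV (ge deg poleOrder canDeg)
open Pool.Agent.H92.OD (HS cf sg uu Lat geO IsO DF DD)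
open Pool.Agent.H84.SM (y1 y2 Near cr dt dp)
open Pool.Agent.H3.SF (Itg Bb BB Hm eu grd hes Sfc Crd Cnn Crf Prm nv)

section Defs

variable {k F σ : Type} [Field k] [Field F] [Algebra k F]

/-- the surface -/
structure SYd (X : σ → F) (u : Fin 3 → F) (dd : Fin 3 → Derivation k F F)
    (J : MvPolynomial (Fin 3) k) (j0 : ℕ) : Prop where
  ind : AlgebraicIndependent k u
  ddu : ∀ l j, dd l (u j) = if l = j then 1 else 0
  comm : ∀ l l' a, dd l (dd l' a) = dd l' (dd l a)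
  ulin : ∀ l, ∃ U : MvPolynomial σ k, U.IsHomogeneous 1 ∧ aeval X U = u l
  Xint : ∀ i, Itg k u (X i)
  Xeu : ∀ i, eu u dd (X i) = X i
  Jh : J.IsHomogeneous j0
  J0 : J ≠ 0
  JI : ∀ a, Itg k u a → aeval u J * a ∈ Algebra.adjoin k (Set.range X)
  Jd : ∀ a l, Itg k u a → Itg k u (aeval u J * dd l a)

/-- the curve on it -/
structure DYd [Fintype σ] (X : σ → F) (u : Fin 3 → F) (dd : Fin 3 → Derivation k F F) (j0 m : ℕ)
    (G : F) (GP : MvPolynomial σ k) : Prop where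
  crd : Crd u dd m G
  hG : GP.IsHomogeneous m
  val : aeval X GP = G
  big : j0 < m
  two : 2 ≤ m
  smo : ∀ s : σ → k, s ≠ 0 → Cone X s → eval s GP = 0 → Module.finrank k (Tng X s GP) ≤ 2

/-- homogeneous coordinates `X` of the surface -/
structure Cor (X : σ → F) (u : Fin 3 → F) (dd : Fin 3 → Derivation k F F)
    (J : MvPolynomial (Fin 3) k) : Prop where
  ulin : ∀ l, ∃ U : MvPolynomial σ k, U.IsHomogeneous 1 ∧ aeval X U = u l
  Xint : ∀ i, Itg k u (X i)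
  Xeu : ∀ i, eu u dd (X i) = X i
  JI : ∀ a, Itg k u a → aeval u J * a ∈ Algebra.adjoin k (Set.range X)

/-- `G` is a form in `X`, the curve `G = 0` and the surface are smooth at all points of the curve -/
def SmG [Fintype σ] (X : σ → F) (m : ℕ) (G : F) : Prop :=
  ∃ GP : MvPolynomial σ k, GP.IsHomogeneous m ∧ aeval X GP = G ∧
    ∀ s : σ → k, s ≠ 0 → Cone X s → eval s GP = 0 → Module.finrank k (Tng X s GP) ≤ 2

/-- the frame at the point `s` of `D`, with all its data -/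
structure FrO (X : σ → F) (s : σ → k) (dd : Fin 3 → Derivation k F F) (m : ℕ)
    (GP L0 L1 : MvPolynomial σ k) (cX cG : Fin 3 → F) (ε : Os X s →ₐ[k] k) (x1 Gs : Os X s)
    (dX dG : Derivation k (Os X s) (Os X s)) : Prop where
  l0 : L0.IsHomogeneous 1
  l1 : L1.IsHomogeneous 1
  v0 : eval s L0 ≠ 0
  v1 : eval s L1 = 0
  vG : eval s GP = 0
  der : FraD X GP L0 L1 m (∑ l, cX l • dd l) (∑ l, cG l • dd l)
  eps : ∀ (h : Os X s) (d : ℕ) (a b : MvPolynomial σ k), Rep X (h : F) d a b →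
    ε h * eval s b = eval s a
  eX : (x1 : F) * aeval X L0 = aeval X L1
  eG : (Gs : F) * aeval X L0 ^ m = aeval X GP
  frm : Frm ε x1 Gs dX dG
  dX : ∀ h : Os X s, ((dX h : Os X s) : F) = (∑ l, cX l • dd l) (h : F)
  dG : ∀ h : Os X s, ((dG h : Os X s) : F) = (∑ l, cG l • dd l) (h : F)

/-- `p`, `A1`, `b1` are `u`, `J A`, `J b` in the local ring -/
structure Lft (X : σ → F) (s : σ → k) (u : Fin 3 → F) (J : MvPolynomial (Fin 3) k) (j0 : ℕ)
    (L0 : MvPolynomial σ k) (α : ℕ) (A : MvPolynomial (Fin 3) k) (b : MvPolynomial (Fin 3) F)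
    (p : Fin 3 → Os X s) (A1 : Os X s) (b1 : MvPolynomial (Fin 3) (Os X s)) : Prop where
  hp : ∀ l, (p l : F) * aeval X L0 = u l
  hA : (A1 : F) * aeval X L0 ^ (α + j0) = aeval u J * aeval u A
  hh : b1.IsHomogeneous 3
  hb : ∀ a, ((b1.coeff a : Os X s) : F) * aeval X L0 ^ (α + j0) = aeval u J * b.coeff a

/-- the homomorphism from the local ring to the function field of a curve with the coordinates `z` -/
structure HmK {K : Type} [Field K] [Algebra k K] (X : σ → F) (s : σ → k) (z : σ → K)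
    (ε : Os X s →ₐ[k] k) (v : DV k K) (x : Os X s →ₐ[k] K) : Prop where
  val : ∀ (h : Os X s) (d : ℕ) (a b : MvPolynomial σ k), Rep X (h : F) d a b →
    x h * aeval z b = aeval z a
  int : ∀ h, ge v 0 (x h)
  max : ∀ h, ε h = 0 → ge v 1 (x h)

/-- `B` is the value of `b` at the curve `φ` -/
def VM3 {K : Type} [Field K] [Algebra k K] (u : Fin 3 → F) (φ : Bb k u →ₐ[k] K)
    (b : MvPolynomial (Fin 3) F) (B : MvPolynomial (Fin 3) K) : Prop :=
  ∀ (a : Fin 3 →₀ ℕ) (h : Bb k u), (h : F) = b.coeff a → φ h = B.coeff a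

/-- the curve satisfies the equation `A w + b = 0` -/
def EqC {K : Type} [Field K] [Algebra k K] (D : Derivation k K K) (x : Fin 3 → K)
    (A : MvPolynomial (Fin 3) k) (B : MvPolynomial (Fin 3) K) : Prop :=
  aeval x A * dt x (fun i => D (x i)) (fun i => D (D (x i))) + eval (fun i => D (x i)) B = 0

end Defs

/-- coefficients of the cubic form `b (p')` in terms of `X'`, `G'` -/
noncomputable def bcy {O : Type} [CommRing O] {k : Type} [CommRing k] [Algebra k O]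
    (dX dG : Derivation k O O) (p : Fin 3 → O) (b : MvPolynomial (Fin 3) O) (j : Fin 4) : O :=
  coeff (Finsupp.single 0 (3 - (j : ℕ)) + Finsupp.single 1 (j : ℕ))
    (aeval (fun i : Fin 3 => C (dX (p i)) * X 0 + C (dG (p i)) * X 1 :
      Fin 3 → MvPolynomial (Fin 2) O) b)

/-- the leading coefficient of the equation in the frame -/
def Aloc {O : Type} [CommRing O] {k : Type} [CommRing k] [Algebra k O]
    (dX dG : Derivation k O O) (p : Fin 3 → O) (A : O) : O :=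
  A * dt p (fun i => dX (p i)) (fun i => dG (p i))

/-- the other coefficients of the equation in the frame -/
noncomputable def bloc {O : Type} [CommRing O] {k : Type} [CommRing k] [Algebra k O]
    (dX dG : Derivation k O O) (p : Fin 3 → O) (A : O) (b : MvPolynomial (Fin 3) O) (j : Fin 4) :
    O := A * cub dX dG p j + bcy dX dG p b j

/-- CHM: the ideal of the surface is homogeneous -/
def T_CHM : Prop := ∀ (k F σ : Type) [Field k] [CharZero k] [Field F] [Algebra k F]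
  (X : σ → F) (u : Fin 3 → F) (dd : Fin 3 → Derivation k F F) (J : MvPolynomial (Fin 3) k)
  (j0 : ℕ), SYd X u dd J j0 → ∀ s : σ → k,
  (∀ f : MvPolynomial σ k, aeval X f = 0 → eval s f = 0) → Cone X s

/-- HMF: homogeneous elements of `k[X]` are values of forms -/
def T_HMF : Prop := ∀ (k F σ : Type) [Field k] [CharZero k] [Field F] [Algebra k F]
  (X : σ → F) (u : Fin 3 → F) (dd : Fin 3 → Derivation k F F) (J : MvPolynomial (Fin 3) k)
  (j0 : ℕ), SYd X u dd J j0 → ∀ (a : F) (d : ℕ), a ∈ Algebra.adjoin k (Set.range X) →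
  Hm k (eu u dd) d a → ∃ f : MvPolynomial σ k, f.IsHomogeneous d ∧ aeval X f = a

/-- HIE: homogeneous integral equations -/
def T_HIE : Prop := ∀ (k F : Type) [Field k] [CharZero k] [Field F] [Algebra k F]
  (u : Fin 3 → F) (dd : Fin 3 → Derivation k F F), (∀ l j, dd l (u j) = if l = j then 1 else 0) →
  ∀ (a : F) (e : ℕ), Itg k u a → Hm k (eu u dd) e a →
  ∃ (N : ℕ) (c : Fin N → MvPolynomial (Fin 3) k), (∀ i, (c i).IsHomogeneous ((N - (i : ℕ)) * e)) ∧
    a ^ N + ∑ i, aeval u (c i) * a ^ (i : ℕ) = 0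

/-- HDD: the derivations lower the degree by one -/
def T_HDD : Prop := ∀ (k F : Type) [Field k] [Field F] [Algebra k F] (u : Fin 3 → F)
  (dd : Fin 3 → Derivation k F F), (∀ l j, dd l (u j) = if l = j then 1 else 0) →
  (∀ l l' a, dd l (dd l' a) = dd l' (dd l a)) → ∀ (t : ℤ) (a : F) (l : Fin 3),
  Hm k (eu u dd) t a → Hm k (eu u dd) (t - 1) (dd l a)

/-- CRT: the certificate with forms -/
def T_CRT : Prop := ∀ (k F σ : Type) [Field k] [CharZero k] [Field F] [Algebra k F]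
  (X : σ → F) (u : Fin 3 → F) (dd : Fin 3 → Derivation k F F) (J : MvPolynomial (Fin 3) k)
  (j0 : ℕ), SYd X u dd J j0 → ∀ (m : ℕ) (G : F), 1 ≤ m → Crd u dd m G → ∀ i : Fin 3,
  ∃ (c d : ℕ) (f : Fin 3 → MvPolynomial σ k), (∀ l, (f l).IsHomogeneous d) ∧
    ∑ l, aeval X (f l) * dd l G = aeval u J * u i ^ c

/-- DSI: the equation along `D`, an identity -/
def T_DSI : Prop := ∀ (F : Type) [Field F] (δ : Derivation ℤ F F) (m : ℕ) (u g y e : Fin 3 → F)
  (G A J κ : F) (H : Fin 3 → Fin 3 → F) (b : MvPolynomial (Fin 3) F), b.IsHomogeneous 3 →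
  dp u g = m * G → dp g y = 0 → (∀ l, δ (g l) = ∑ j, H j l * y j) → dp g e = κ →
  J ^ 6 * κ ^ 3 * (A * dt u y (fun i => δ (y i)) + eval y b) =
    eval (cr y e) (aeval (fun i => C (J ^ 2) * cr (fun i => C (g i)) X i) b -
      C (A * J ^ 6) * Pool.Agent.H92.SF.hq (fun i j => C (H i j)) (cr (fun i => C (g i)) X)
        (cr (fun i => C (g i)) X) * dp (fun i => C (u i)) X) -
    m * G * A * J ^ 6 * κ ^ 2 * dp (cr y e) (fun i => δ (y i))

/-- EVS: evaluation of integral elements at a point of the surface -/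
def T_EVS : Prop := ∀ (k F σ : Type) [Field k] [IsAlgClosed k] [CharZero k] [Field F]
  [Algebra k F] (X : σ → F) (u : Fin 3 → F) (dd : Fin 3 → Derivation k F F)
  (J : MvPolynomial (Fin 3) k) (j0 : ℕ), SYd X u dd J j0 → ∀ s : σ → k, Cone X s →
  ∃ ev : Bb k u →ₐ[k] k, ∀ (f : MvPolynomial σ k) (b : Bb k u), (b : F) = aeval X f →
    ev b = eval s f

/-- CNY: centres of places, orders of homogeneous integral elements -/
def T_CNY : Prop := ∀ (k F σ K : Type) [Field k] [IsAlgClosed k] [CharZero k] [Field F]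
  [Algebra k F] [Field K] [Algebra k K] [Algebra.EssFiniteType k K], Algebra.trdeg k K = 1 →
  ∀ (X : σ → F) (u : Fin 3 → F) (dd : Fin 3 → Derivation k F F) (J : MvPolynomial (Fin 3) k)
  (j0 : ℕ), SYd X u dd J j0 → ∀ (φ : Bb k u →ₐ[k] K) (x : Fin 3 → K),
  (∀ (i : Fin 3) (b : Bb k u), (b : F) = u i → φ b = x i) → (∃ j, x j = 1) → ∀ v : DV k K,
  (∀ (e : ℕ) (b : Bb k u), Hm k (eu u dd) e (b : F) → ge v (-(e * poleOrder v x)) (φ b)) ∧
  ∃ (c : K) (s : σ → k), c ≠ 0 ∧ v.ord c = poleOrder v x ∧ s ≠ 0 ∧ Cone X s ∧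
    ∀ (i : σ) (b : Bb k u), (b : F) = X i → ge v 1 (c * φ b - algebraMap k K (s i))

/-- TRY: the equation `A det (p, p', p'') + b (p') = 0` in the frame -/
def T_TRY : Prop := ∀ (k O K : Type) [Field k] [CommRing O] [Algebra k O] [Field K]
  [Algebra k K] (X G : O) (dX dG : Derivation k O O) (x : O →ₐ[k] K) (D : Derivation k K K),
  (∀ h, D (x h) = x (dX h) * D (x X) + x (dG h) * D (x G)) →
  ∀ (p : Fin 3 → O) (A : O) (b : MvPolynomial (Fin 3) O), b.IsHomogeneous 3 →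
  x A * dt (fun i => x (p i)) (fun i => D (x (p i))) (fun i => D (D (x (p i)))) +
    eval₂ (x : O →+* K) (fun i : Fin 3 => D (x (p i))) b = 0 →
  EqK D (Aloc dX dG p A) (bloc dX dG p A b) X G x

/-- CRS: scaling of the coordinates -/
def T_CRS : Prop := ∀ (k K : Type) [Field k] [Field K] [CharZero K] [Algebra k K]
  (D : Derivation k K K) (t A : K) (p : Fin 3 → K) (b : MvPolynomial (Fin 3) K), t ≠ 0 →
  b.IsHomogeneous 3 → ∑ i, C (p i) * pderiv i b = 0 →
  A * dt (fun i => t * p i) (fun i => D (t * p i)) (fun i => D (D (t * p i))) +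
    eval (fun i => D (t * p i)) b =
  t ^ 3 * (A * dt p (fun i => D (p i)) (fun i => D (D (p i))) + eval (fun i => D (p i)) b)

/-- LFT: the equation in the local ring -/
def T_LFT : Prop := ∀ (k F σ : Type) [Field k] [CharZero k] [Field F] [Algebra k F]
  (X : σ → F) (u : Fin 3 → F) (dd : Fin 3 → Derivation k F F) (J : MvPolynomial (Fin 3) k)
  (j0 : ℕ), SYd X u dd J j0 → ∀ s : σ → k, Cone X s → ∀ L0 : MvPolynomial σ k,
  L0.IsHomogeneous 1 → eval s L0 ≠ 0 → ∀ (m : ℕ) (G : F) (α : ℕ) (A : MvPolynomial (Fin 3) k)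
  (b : MvPolynomial (Fin 3) F), Cnn u dd J m G α A b →
  ∃ (p : Fin 3 → Os X s) (A1 : Os X s) (b1 : MvPolynomial (Fin 3) (Os X s)),
    Lft X s u J j0 L0 α A b p A1 b1

/-- EQS: the equation for the curve, in the local ring -/
def T_EQS : Prop := ∀ (k F σ K : Type) [Field k] [CharZero k] [Field F] [Algebra k F]
  [Field K] [Algebra k K] (X : σ → F) (u : Fin 3 → F) (dd : Fin 3 → Derivation k F F)
  (J : MvPolynomial (Fin 3) k) (j0 : ℕ), SYd X u dd J j0 → ∀ s : σ → k, Cone X s →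
  ∀ L0 : MvPolynomial σ k, L0.IsHomogeneous 1 → eval s L0 ≠ 0 → ∀ (m : ℕ) (G : F) (α : ℕ)
  (A : MvPolynomial (Fin 3) k) (b : MvPolynomial (Fin 3) F), Cnn u dd J m G α A b →
  ∀ (p : Fin 3 → Os X s) (A1 : Os X s) (b1 : MvPolynomial (Fin 3) (Os X s)),
  Lft X s u J j0 L0 α A b p A1 b1 → ∀ (φ : Bb k u →ₐ[k] K) (x : Fin 3 → K) (z : σ → K),
  (∀ (i : Fin 3) (b : Bb k u), (b : F) = u i → φ b = x i) →
  (∀ (i : σ) (b : Bb k u), (b : F) = X i → φ b = z i) → aeval z L0 ≠ 0 → aeval x J ≠ 0 →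
  ∀ (ε : Os X s →ₐ[k] k) (v : DV k K) (y : Os X s →ₐ[k] K), HmK X s z ε v y →
  ∀ (D : Derivation k K K) (B : MvPolynomial (Fin 3) K), VM3 u φ b B → EqC D x A B →
  y A1 * dt (fun i => y (p i)) (fun i => D (y (p i))) (fun i => D (D (y (p i)))) +
    eval₂ (y : Os X s →+* K) (fun i : Fin 3 => D (y (p i))) b1 = 0

/-- GND: divisibility by the equation of `D` in the local ring -/
def T_GND : Prop := ∀ (k F σ : Type) [Field k] [IsAlgClosed k] [CharZero k] [Field F]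
  [Algebra k F] [Fintype σ] (X : σ → F) (u : Fin 3 → F) (dd : Fin 3 → Derivation k F F)
  (J : MvPolynomial (Fin 3) k) (j0 m : ℕ) (G : F) (GP : MvPolynomial σ k), SYd X u dd J j0 →
  DYd X u dd j0 m G GP → ∀ s : σ → k, Cone X s → eval s GP = 0 → ∀ L0 : MvPolynomial σ k,
  L0.IsHomogeneous 1 → eval s L0 ≠ 0 → ∀ Gs : Os X s, (Gs : F) * aeval X L0 ^ m = G →
  ∀ (h : Os X s) (w : F) (e : ℕ), Itg k u w → (h : F) * aeval X L0 ^ e = w →
  ¬ Itg k u (w / G) → ¬ Gs ∣ h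

/-- DGN: elements of small degree are not divisible by `G` -/
def T_DGN : Prop := ∀ (k F : Type) [Field k] [CharZero k] [Field F] [Algebra k F]
  (u : Fin 3 → F) (dd : Fin 3 → Derivation k F F), (∀ l j, dd l (u j) = if l = j then 1 else 0) →
  AlgebraicIndependent k u → ∀ (m : ℕ) (G : F), G ≠ 0 → Hm k (eu u dd) m G →
  (∀ (w : F) (e : ℕ), w ≠ 0 → Itg k u w → Hm k (eu u dd) e w → e < m → ¬ Itg k u (w / G)) ∧
  (1 ≤ m → ∃ l, ¬ Itg k u (u l / G))

/-- DSO: the curve `D` is a solution of the equation in the local ring -/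
def T_DSO : Prop := ∀ (k F σ : Type) [Field k] [IsAlgClosed k] [CharZero k] [Field F]
  [Algebra k F] [Fintype σ] [DecidableEq σ] (X : σ → F) (u : Fin 3 → F)
  (dd : Fin 3 → Derivation k F F) (J : MvPolynomial (Fin 3) k) (j0 m : ℕ) (G : F)
  (GP : MvPolynomial σ k), SYd X u dd J j0 → DYd X u dd j0 m G GP → ∀ s : σ → k, s ≠ 0 →
  Cone X s → ∀ (L0 L1 : MvPolynomial σ k) (cX cG : Fin 3 → F) (ε : Os X s →ₐ[k] k)
  (x1 Gs : Os X s) (dX dG : Derivation k (Os X s) (Os X s)),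
  FrO X s dd m GP L0 L1 cX cG ε x1 Gs dX dG → IsNoetherianRing (Os X s) → ∀ (α : ℕ)
  (A : MvPolynomial (Fin 3) k) (b : MvPolynomial (Fin 3) F), Cnn u dd J m G α A b →
  ∀ (p : Fin 3 → Os X s) (A1 : Os X s) (b1 : MvPolynomial (Fin 3) (Os X s)),
  Lft X s u J j0 L0 α A b p A1 b1 → Gs ∣ bloc dX dG p A1 b1 0

/-- JBD: the order of the leading coefficient -/
def T_JBD : Prop := ∀ (k F σ K : Type) [Field k] [IsAlgClosed k] [CharZero k] [Field F]
  [Algebra k F] [Fintype σ] [DecidableEq σ] [Field K] [Algebra k K]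
  [Algebra.EssFiniteType k K], Algebra.trdeg k K = 1 → ∀ (X : σ → F) (u : Fin 3 → F)
  (dd : Fin 3 → Derivation k F F) (J : MvPolynomial (Fin 3) k) (j0 m : ℕ) (G : F)
  (GP : MvPolynomial σ k), SYd X u dd J j0 → DYd X u dd j0 m G GP → ∀ s : σ → k, Cone X s →
  ∀ (L0 L1 : MvPolynomial σ k) (cX cG : Fin 3 → F) (ε : Os X s →ₐ[k] k)
  (x1 Gs : Os X s) (dX dG : Derivation k (Os X s) (Os X s)),
  FrO X s dd m GP L0 L1 cX cG ε x1 Gs dX dG → ∀ (α : ℕ)
  (A : MvPolynomial (Fin 3) k) (b : MvPolynomial (Fin 3) F), Cnn u dd J m G α A b →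
  ∀ (p : Fin 3 → Os X s) (A1 : Os X s) (b1 : MvPolynomial (Fin 3) (Os X s)),
  Lft X s u J j0 L0 α A b p A1 b1 → ∀ (φ : Bb k u →ₐ[k] K) (x : Fin 3 → K) (g : K)
  (S : Finset (DV k K)), Crf u J m G φ x g S → aeval x A ≠ 0 → ∀ (v : DV k K) (c : K), c ≠ 0 →
  v.ord c = poleOrder v x → (∀ (i : σ) (b : Bb k u), (b : F) = X i →
    ge v 1 (c * φ b - algebraMap k K (s i))) → ∀ z : σ → K,
  (∀ (i : σ) (b : Bb k u), (b : F) = X i → φ b = z i) → ∀ y : Os X s →ₐ[k] K,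
  HmK X s z ε v y → y (Aloc dX dG p A1) ≠ 0 ∧
    v.ord (y (Aloc dX dG p A1)) ≤ nv v x α (aeval x A) + 4 * nv v x j0 (aeval x J) ∧
    y Gs ≠ 0 ∧ v.ord (y Gs) = nv v x m g

/-- PRX: the field is generated by the values of the local ring -/
def T_PRX : Prop := ∀ (k F σ K : Type) [Field k] [CharZero k] [Field F] [Algebra k F]
  [Field K] [Algebra k K] (X : σ → F) (u : Fin 3 → F) (dd : Fin 3 → Derivation k F F)
  (J : MvPolynomial (Fin 3) k) (j0 : ℕ), SYd X u dd J j0 → ∀ s : σ → k, Cone X s →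
  ∀ L0 : MvPolynomial σ k, L0.IsHomogeneous 1 → eval s L0 ≠ 0 → ∀ (φ : Bb k u →ₐ[k] K)
  (x : Fin 3 → K) (z : σ → K), (∀ (i : Fin 3) (b : Bb k u), (b : F) = u i → φ b = x i) →
  (∀ (i : σ) (b : Bb k u), (b : F) = X i → φ b = z i) → (∃ j, x j = 1) → aeval z L0 ≠ 0 →
  aeval x J ≠ 0 → Prm φ → ∀ (ε : Os X s →ₐ[k] k) (v : DV k K) (y : Os X s →ₐ[k] K),
  HmK X s z ε v y → IntermediateField.adjoin k (Set.range y) = ⊤

/-- FNY: finitely many points of `D` with `A = 0` -/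
def T_FNY : Prop := ∀ (k F σ : Type) [Field k] [IsAlgClosed k] [CharZero k] [Field F]
  [Algebra k F] [Fintype σ] (X : σ → F) (u : Fin 3 → F) (dd : Fin 3 → Derivation k F F)
  (J : MvPolynomial (Fin 3) k) (j0 m : ℕ) (G : F) (GP : MvPolynomial σ k), SYd X u dd J j0 →
  DYd X u dd j0 m G GP → ∀ (α : ℕ) (A : MvPolynomial (Fin 3) k), A.IsHomogeneous α → A ≠ 0 →
  α < m → ∃ T : Finset (σ → k), ∀ s : σ → k, s ≠ 0 → Cone X s → eval s GP = 0 →
  (∀ U : Fin 3 → MvPolynomial σ k, (∀ l, aeval X (U l) = u l) →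
    eval (fun l => eval s (U l)) A = 0) → ∃ t ∈ T, ∃ μ : k, μ ≠ 0 ∧ s = μ • t

/-- LCS: contact at a point of `D` -/
def T_LCS : Prop := ∀ (k F σ : Type) [Field k] [IsAlgClosed k] [CharZero k] [Field F]
  [Algebra k F] [Fintype σ] [DecidableEq σ] (X : σ → F) (u : Fin 3 → F)
  (dd : Fin 3 → Derivation k F F) (J : MvPolynomial (Fin 3) k) (j0 m : ℕ) (G : F)
  (GP : MvPolynomial σ k), SYd X u dd J j0 → DYd X u dd j0 m G GP → ∀ (α : ℕ)
  (A : MvPolynomial (Fin 3) k) (b : MvPolynomial (Fin 3) F), Cnn u dd J m G α A b →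
  ∀ s : σ → k, s ≠ 0 → Cone X s → eval s GP = 0 → ∃ C : ℕ,
  ∀ (K : Type) [Field K] [Algebra k K] [Algebra.EssFiniteType k K], Algebra.trdeg k K = 1 →
  ∀ (φ : Bb k u →ₐ[k] K) (x : Fin 3 → K) (g : K) (S : Finset (DV k K)),
  Crf u J m G φ x g S → Prm φ → aeval x A ≠ 0 → ∀ D : Derivation k K K, D ≠ 0 →
  ∀ B : MvPolynomial (Fin 3) K, VM3 u φ b B → EqC D x A B → ∀ (v : DV k K) (c : K), c ≠ 0 →
  v.ord c = poleOrder v x → (∀ (i : σ) (b : Bb k u), (b : F) = X i →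
    ge v 1 (c * φ b - algebraMap k K (s i))) →
  nv v x m g ≤ nv v x α (aeval x A) + 4 * nv v x j0 (aeval x J) + C ∧
  (nv v x α (aeval x A) = 0 → nv v x j0 (aeval x J) = 0 → nv v x m g ≤ 1)

/-- LOC: contact of the solutions with `D` at all places -/
def T_LOC : Prop := ∀ (k F σ : Type) [Field k] [IsAlgClosed k] [CharZero k] [Field F]
  [Algebra k F] [Fintype σ] [DecidableEq σ] (X : σ → F) (u : Fin 3 → F)
  (dd : Fin 3 → Derivation k F F) (J : MvPolynomial (Fin 3) k) (j0 m : ℕ) (G : F)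
  (GP : MvPolynomial σ k), SYd X u dd J j0 → DYd X u dd j0 m G GP → ∀ (α : ℕ)
  (A : MvPolynomial (Fin 3) k) (b : MvPolynomial (Fin 3) F), Cnn u dd J m G α A b → α < m →
  ∃ C : ℕ, ∀ (K : Type) [Field K] [Algebra k K] [Algebra.EssFiniteType k K],
  Algebra.trdeg k K = 1 → ∀ (φ : Bb k u →ₐ[k] K) (x : Fin 3 → K) (g : K)
  (S : Finset (DV k K)), Crf u J m G φ x g S → Prm φ → aeval x A ≠ 0 →
  ∀ D : Derivation k K K, D ≠ 0 → ∀ B : MvPolynomial (Fin 3) K, VM3 u φ b B → EqC D x A B →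
  (∀ v : DV k K, nv v x m g ≤ nv v x α (aeval x A) + 4 * nv v x j0 (aeval x J) + C) ∧
  (m : ℤ) * deg k x ≤ (α + 4 * j0) * deg k x + C * S.card

/-- LOX: the boundary statement `Pool.Agent.H3.SF.T_LOC`, with coordinates of the surface -/
def T_LOX : Prop := ∃ κ : ℕ, ∀ (k F σ : Type) [Field k] [IsAlgClosed k] [CharZero k] [Field F]
  [Algebra k F] [Fintype σ] [DecidableEq σ] (X : σ → F) (u : Fin 3 → F)
  (dd : Fin 3 → Derivation k F F) (δ j0 c0 : ℕ) (J : MvPolynomial (Fin 3) k),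
  Sfc u dd δ j0 c0 J → Cor X u dd J → ∀ (m : ℕ) (G : F), 2 ≤ m → Crd u dd m G →
  SmG (k := k) X m G →
  ∀ (α : ℕ) (A : MvPolynomial (Fin 3) k) (b : MvPolynomial (Fin 3) F), Cnn u dd J m G α A b →
  α + κ * j0 < m → ∃ C : ℕ, ∀ (K : Type) [Field K] [Algebra k K] [Algebra.EssFiniteType k K],
  Algebra.trdeg k K = 1 → ∀ (D : Derivation k K K), D ≠ 0 → ∀ (φ : Bb k u →ₐ[k] K)
  (x : Fin 3 → K) (g : K) (S : Finset (DV k K)), Prm φ → Crf u J m G φ x g S →
  ∀ b0 : MvPolynomial (Fin 3) (Bb k u), map ((Bb k u).val : Bb k u →+* F) b0 = b →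
  aeval x A * dt x (fun i => D (x i)) (fun i => D (D (x i))) +
    eval₂ (φ : Bb k u →+* K) (fun i => D (x i)) b0 = 0 →
  (∃ (e : ℕ) (Φ : MvPolynomial (Fin 3) k), e ≤ C ∧ Φ ≠ 0 ∧ Φ.IsHomogeneous e ∧ aeval x Φ = 0) ∨
  deg k x ≤ C * S.card

end Pool.Agent.H84.SF
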