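import Pool.Agent.H84.SF.Geo

set_option autoImplicit false

namespace Pool.Agent.H84.SF

open MvPolynomial SC
open Pool.Agent.H84.SM (cr dt dp)

theorem pf_NRJ : T_NRJ := by
  intro k F _ _ _ u dd hdd L0 L1 G m hL0 hm h0 h1 hG cX cG hX hGG
  obtain ⟨x0, x1, x2⟩ := hX
  obtain ⟨g0, g1, g2⟩ := hGG
  have key : ∀ (c : Fin 3 → F), ∑ l, c l * dd l L0 = 0 → ∀ i,
      (∑ l, c l • dd l) (u i / L0) = c i / L0 := by
    intro c hc i
    have e0 : ∀ a, (∑ l, c l • dd l) a = ∑ l, c l * dd l a := by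
      intro a
      rw [Fin.sum_univ_three, Fin.sum_univ_three]
      rfl
    have e1 : (∑ l, c l • dd l) L0 = 0 := by rw [e0, hc]
    have e2 : (∑ l, c l • dd l) (u i) = c i := by
      rw [e0]
      simp [hdd]
    have e3 : (∑ l, c l • dd l) (L0 * (u i / L0)) = c i := by
      rw [mul_div_cancel₀ _ hL0, e2]
    rw [Derivation.leibniz, e1, smul_zero, add_zero, smul_eq_mul] at e3
    rw [eq_div_iff hL0, mul_comm]
    exact e3
  have hA : (fun i => (∑ l, cX l • dd l) (u i / L0)) = fun i => cX i / L0 := funext (key cX x0)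
  have hB : (fun i => (∑ l, cG l • dd l) (u i / L0)) = fun i => cG i / L0 := funext (key cG g0)
  rw [hA, hB]
  rw [Fin.sum_univ_three] at h0 h1 hG x0 x1 x2 g0 g1 g2
  obtain ⟨n, rfl⟩ : ∃ n, m = n + 1 := ⟨m - 1, by omega⟩
  have hL3 : L0 ^ 3 ≠ 0 := pow_ne_zero 3 hL0
  have h2 : dt (fun i => u i / L0) (fun i => cX i / L0) (fun i => cG i / L0) =
      dt u cX cG / L0 ^ 3 := by
    simp only [dt, dp, cr, Fin.sum_univ_three]
    simp only [div_eq_mul_inv]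
    simp
    ring
  have h3 : dt u cX cG * dt (fun l => dd l L0) (fun l => dd l L1) (fun l => dd l G) =
      L0 ^ (n + 3) := by
    have e : dt u cX cG * dt (fun l => dd l L0) (fun l => dd l L1) (fun l => dd l G) =
      (u 0 * dd 0 L0 + u 1 * dd 1 L0 + u 2 * dd 2 L0) *
        ((cX 0 * dd 0 L1 + cX 1 * dd 1 L1 + cX 2 * dd 2 L1) *
          (cG 0 * dd 0 G + cG 1 * dd 1 G + cG 2 * dd 2 G) -
         (cX 0 * dd 0 G + cX 1 * dd 1 G + cX 2 * dd 2 G) *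
          (cG 0 * dd 0 L1 + cG 1 * dd 1 L1 + cG 2 * dd 2 L1)) -
      (u 0 * dd 0 L1 + u 1 * dd 1 L1 + u 2 * dd 2 L1) *
        ((cX 0 * dd 0 L0 + cX 1 * dd 1 L0 + cX 2 * dd 2 L0) *
          (cG 0 * dd 0 G + cG 1 * dd 1 G + cG 2 * dd 2 G) -
         (cX 0 * dd 0 G + cX 1 * dd 1 G + cX 2 * dd 2 G) *
          (cG 0 * dd 0 L0 + cG 1 * dd 1 L0 + cG 2 * dd 2 L0)) +
      (u 0 * dd 0 G + u 1 * dd 1 G + u 2 * dd 2 G) *
        ((cX 0 * dd 0 L0 + cX 1 * dd 1 L0 + cX 2 * dd 2 L0) *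
          (cG 0 * dd 0 L1 + cG 1 * dd 1 L1 + cG 2 * dd 2 L1) -
         (cX 0 * dd 0 L1 + cX 1 * dd 1 L1 + cX 2 * dd 2 L1) *
          (cG 0 * dd 0 L0 + cG 1 * dd 1 L0 + cG 2 * dd 2 L0)) := by
      simp only [dt, dp, cr, Fin.sum_univ_three]
      simp
      ring
    rw [e, h0, h1, hG, x0, x1, x2, g0, g1, g2]
    ring
  rw [h2, div_mul_eq_mul_div, h3, div_eq_iff hL3, Nat.add_sub_cancel, ← pow_add]

end Pool.Agent.H84.SF
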