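import Pool.Agent.H84.SF.All11
import Pool.Agent.H84.SF.NRJ
import Pool.Agent.H11.SF.CHM
import Pool.Agent.H52.SF.CNY
import Pool.Agent.H1.SF.CRS
import Pool.Agent.H52.SF.CRT
import Pool.Agent.H58.SF.DGN
import Pool.Agent.H63.SF.DSI
import Pool.Agent.H70.SF.DSO
import Pool.Agent.H58.SF.EQS
import Pool.Agent.H26.SF.EVS
import Pool.Agent.H33.SF.FNY
import Pool.Agent.H40.SF.GND
import Pool.Agent.H75.SF.HDD
import Pool.Agent.H96.SF.HIE
import Pool.Agent.H35.SF.HMF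
import Pool.Agent.H86.SF.JBD
import Pool.Agent.H48.SF.LCS
import Pool.Agent.H58.SF.LFT
import Pool.Agent.H86.SF.LOC
import Pool.Agent.H48.SF.LOX
import Pool.Agent.H90.SF.PRX
import Pool.Agent.H90.SF.TRY

/-!
# MP_70ba79_ag, THEOREM S, chapter 11: assembly, the contact of solutions of connections
-/

set_option autoImplicit false

namespace Pool.Agent.H84.SF

theorem hie : T_HIE := Pool.Agent.H96.SF.pf_HIE
theorem chm : T_CHM := Pool.Agent.H11.SF.pf_CHM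
theorem hmf : T_HMF := Pool.Agent.H35.SF.pf_HMF
theorem hdd : T_HDD := Pool.Agent.H75.SF.pf_HDD
theorem crt : T_CRT := Pool.Agent.H52.SF.pf_CRT hdd
theorem evs : T_EVS := Pool.Agent.H26.SF.pf_EVS
theorem cny : T_CNY := Pool.Agent.H52.SF.pf_CNY chm hie
theorem dgn : T_DGN := Pool.Agent.H58.SF.pf_DGN hie
theorem gnd : T_GND := Pool.Agent.H40.SF.pf_GND evs
theorem dso : T_DSO := Pool.Agent.H70.SF.pf_DSO tay tak hmf hdd crt Pool.Agent.H63.SF.pf_DSI gnd dgn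
theorem jbd : T_JBD := Pool.Agent.H86.SF.pf_JBD pf_NRJ hdd cny
theorem fny : T_FNY := Pool.Agent.H33.SF.pf_FNY hie evs dgn
theorem lcs : T_LCS := Pool.Agent.H48.SF.pf_LCS osf hmk chk bdv lc2 Pool.Agent.H90.SF.pf_TRY
  (Pool.Agent.H58.SF.pf_LFT hmf) (Pool.Agent.H58.SF.pf_EQS hmf Pool.Agent.H1.SF.pf_CRS) dso jbd
  Pool.Agent.H90.SF.pf_PRX
theorem loc : T_LOC := Pool.Agent.H86.SF.pf_LOC cny fny lcs

/-- solutions of connections -/
theorem lox : T_LOX := Pool.Agent.H48.SF.pf_LOX loc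

end Pool.Agent.H84.SF
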