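import Pool.Agent.H45.SF.GT
import Pool.Agent.H9.SF.Bas

/-! # MP_3b3fc8_lc, part G, module AF: application of known functions -/

open Ordinal Cardinal Order Set
open scoped ZFSet

namespace SF.H84

open SF

private theorem af_le {B : V} [IsCBA B] {N' N : V} {b : El B} {σ : V → V → El B}
    (hM : BMap N' N b σ) (x y : V) : σ x y ≤ b := by
  by_cases h : σ x y = ⊥
  · rw [h]; exact bot_le
  · rw [← hM.tot x (hM.dom x y h).1]
    exact le_iSup (fun y => σ x y) y

private theorem af_dfb : Dfb ZFm (fun M u => ∃ t, M t ∧ (ZFSet.pair (u 0) t ∈ u 1 ∧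
    ∀ t', M t' → ZFSet.pair (u 0) t' ∈ u 1 → t' = t)) := by
  have h1 : Dfb ZFm (fun M u => ∀ t', M t' → (fun (_ : V → Prop) (w : ℕ → V) =>
      ZFSet.pair (w 2) (w 0) ∈ w 3 → w 0 = w 1) M (cons t' u)) :=
    Dfb.all ((Dfb.pairMem (Tm.var 2) (Tm.var 0) (Tm.var 3)).imp
      (Dfb.eq (Tm.var 0) (Tm.var 1)))
  have h2 := ((Dfb.pairMem (Tm.var 1) (Tm.var 0) (Tm.var 2)).and h1).ex
  exact h2

theorem af (hTR : T_TR) (hAM : T_AM) (hAP : T_AP) : T_AF := by
  classical
  intro B _ N' N b σ hN hM hb F' F X' X hF hX hfun x hx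
  have le_b := af_le hM
  have trN' : ∀ a ∈ N', ∀ c ∈ a, c ∈ N' := fun a ha c hc => hN.full.1 a ha hc
  have trN : ∀ a, a ∈ N → ∀ c ∈ a, c ∈ N := hN.zfc.trans
  have hX'N : X' ∈ N' := (hM.dom X' X (by rw [hX]; exact hb)).1
  have hF'N : F' ∈ N' := (hM.dom F' F (by rw [hF]; exact hb)).1
  have hFN : F ∈ N := (hM.dom F' F (by rw [hF]; exact hb)).2
  have hxN : x ∈ N' := trN' X' hX'N x hx
  have key1 : ∀ y, σ x y ≠ ⊥ → y ∈ X := by
    intro y hy
    have h1 : σ x y ⊓ σ X' X ≠ ⊥ := by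
      rw [hX, inf_eq_left.2 (le_b x y)]; exact hy
    exact (hAM B N' N b σ hN hM x y X' X h1).1.1 hx
  have prN : ∀ a c d, ZFSet.pair a c ∈ d → d ∈ N → c ∈ N := by
    intro a c d h hd
    have h1 := trN d hd _ h
    have h2 := trN _ h1 ({a, c} : V) (by simp [ZFSet.pair])
    exact trN _ h2 c (by simp)
  have prN' : ∀ a c d, ZFSet.pair a c ∈ d → d ∈ N' → c ∈ N' := by
    intro a c d h hd
    have h1 := trN' d hd _ h
    have h2 := trN' _ h1 ({a, c} : V) (by simp [ZFSet.pair])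
    exact trN' _ h2 c (by simp)
  obtain ⟨y0, hy0⟩ : ∃ y, σ x y ≠ ⊥ := by
    by_contra hcon
    simp only [not_exists, not_not] at hcon
    apply hb
    rw [← hM.tot x hxN]
    simp [hcon]
  obtain ⟨z0, hz0, hz0u⟩ := hfun y0 (key1 y0 hy0)
  have hs : ((insert (x, y0) ({(F', F)} : Finset (V × V))).inf fun q => σ q.1 q.2) ≠ ⊥ := by
    rw [Finset.inf_insert, Finset.inf_singleton]
    show σ x y0 ⊓ σ F' F ≠ ⊥
    rw [hF, inf_eq_left.2 (le_b x y0)]
    exact hy0
  have htr := hTR _ af_dfb B N' N b σ hN hM _ hs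
    (fun i => match i with | 0 => (x, y0) | _ + 1 => (F', F)) (by
      intro i
      cases i with
      | zero => exact Finset.mem_insert_self _ _
      | succ i => exact Finset.mem_insert_of_mem (Finset.mem_singleton_self _))
  obtain ⟨x2, hx2N, hx2, hx2u⟩ := htr.2 ⟨z0, prN y0 z0 F hz0 hFN, hz0, fun t' _ ht' => hz0u t' ht'⟩
  have hx2' : ZFSet.pair x x2 ∈ F' := hx2
  have hx2u' : ∀ t', t' ∈ N' → ZFSet.pair x t' ∈ F' → t' = x2 := hx2u
  refine ⟨hxN, x2, hx2N, ?_, key1, ?_⟩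
  · intro x3
    constructor
    · intro h3
      exact hx2u' x3 (prN' x x3 F' h3 hF'N) h3
    · rintro rfl
      exact hx2'
  · intro y z hyz
    by_cases hy : σ x y = ⊥
    · rw [hy]; exact bot_le
    have hyX := key1 y hy
    have hother : ∀ u, u ≠ z → σ x y ⊓ σ x2 u = ⊥ := by
      intro u hu
      by_contra hcon
      have h1 := ((hAP B N' N b σ hN hM hb).1 x hxN x2 hx2N).2.1 y u
      have h2 : σ (ZFSet.pair x x2) (ZFSet.pair y u) ⊓ σ F' F ≠ ⊥ := by
        rw [hF, inf_eq_left.2 (le_b _ _)]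
        intro h0
        rw [h0] at h1
        exact hcon (le_bot_iff.1 h1)
      have h3 := (hAM B N' N b σ hN hM _ _ F' F h2).1.1 hx2'
      exact hu ((hfun y hyX).unique h3 hyz)
    calc σ x y = σ x y ⊓ b := (inf_eq_left.2 (le_b x y)).symm
      _ = σ x y ⊓ ⨆ u, σ x2 u := by rw [hM.tot x2 hx2N]
      _ = ⨆ u, σ x y ⊓ σ x2 u := inf_iSup_eq _ _
      _ ≤ σ x2 z := by
        refine iSup_le fun u => ?_
        by_cases hu : u = z
        · rw [hu]; exact inf_le_right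
        · rw [hother u hu]; exact bot_le

end SF.H84
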