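import Pool.Agent.H45.SF.UT

/-! # MP_3b3fc8_lc, part U, module UK: knowledge in frames for `i v` -/

open Ordinal Cardinal Order Set
open scoped ZFSet

namespace SF.H84

open SF

section aux

variable {B : V} [IsCBA B] {N' N : V} {b : El B} {τ : V → V → El B}

private theorem uk_le (hM : BMap N' N b τ) (x y : V) : τ x y ≤ b := by
  by_cases h : τ x y = ⊥
  · rw [h]; exact bot_le
  · rw [← hM.tot x (hM.dom x y h).1]
    exact le_iSup (fun y => τ x y) y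

private theorem uk_tot (hM : BMap N' N b τ) (hb : b ≠ ⊥) {x : V} (hx : x ∈ N') :
    ∃ y, τ x y ≠ ⊥ := by
  by_contra hcon
  simp only [not_exists, not_not] at hcon
  apply hb
  rw [← hM.tot x hx]
  simp [hcon]

private theorem uk_tf1 (hTF : T_TF) (hN : NP N' N) (hM : BMap N' N b τ) {f : V → V}
    (hf : Tm ZFm (fun _ v => f (v 0))) (x y : V) : τ x y ≤ τ (f x) (f y) := by
  classical
  by_cases h : τ x y = ⊥
  · rw [h]; exact bot_le
  have h1 := (hTF _ hf B N' N b τ hN hM ({(x, y)} : Finset (V × V))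
    (by rw [Finset.inf_singleton]; exact h) (fun _ => (x, y))
    (fun _ => Finset.mem_singleton_self _)).2
  rw [Finset.inf_singleton] at h1
  exact h1

private theorem uk_tf2 (hTF : T_TF) (hN : NP N' N) (hM : BMap N' N b τ) {f : V → V → V}
    (hf : Tm ZFm (fun _ v => f (v 0) (v 1))) (x y x2 y2 : V) :
    τ x y ⊓ τ x2 y2 ≤ τ (f x x2) (f y y2) := by
  classical
  by_cases h : τ x y ⊓ τ x2 y2 = ⊥
  · rw [h]; exact bot_le
  have hs : ((insert (x, y) ({(x2, y2)} : Finset (V × V))).inf fun q => τ q.1 q.2) =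
      τ x y ⊓ τ x2 y2 := by
    rw [Finset.inf_insert, Finset.inf_singleton]
  have h1 := (hTF _ hf B N' N b τ hN hM (insert (x, y) ({(x2, y2)} : Finset (V × V)))
    (by rw [hs]; exact h) (fun i => match i with | 0 => (x, y) | _ + 1 => (x2, y2))
    (fun i => by
      cases i with
      | zero => exact Finset.mem_insert_self _ _
      | succ i => exact Finset.mem_insert_of_mem (Finset.mem_singleton_self _))).2
  rw [hs] at h1
  exact h1

private theorem uk_tf3 (hTF : T_TF) (hN : NP N' N) (hM : BMap N' N b τ) {f : V → V → V → V}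
    (hf : Tm ZFm (fun _ v => f (v 0) (v 1) (v 2))) (x y x2 y2 x3 y3 : V) :
    τ x y ⊓ (τ x2 y2 ⊓ τ x3 y3) ≤ τ (f x x2 x3) (f y y2 y3) := by
  classical
  by_cases h : τ x y ⊓ (τ x2 y2 ⊓ τ x3 y3) = ⊥
  · rw [h]; exact bot_le
  have hs : ((insert (x, y) (insert (x2, y2) ({(x3, y3)} : Finset (V × V)))).inf
      fun q => τ q.1 q.2) = τ x y ⊓ (τ x2 y2 ⊓ τ x3 y3) := by
    rw [Finset.inf_insert, Finset.inf_insert, Finset.inf_singleton]
  have h1 := (hTF _ hf B N' N b τ hN hM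
    (insert (x, y) (insert (x2, y2) ({(x3, y3)} : Finset (V × V))))
    (by rw [hs]; exact h)
    (fun i => match i with | 0 => (x, y) | 1 => (x2, y2) | _ + 2 => (x3, y3))
    (fun i => by
      match i with
      | 0 => exact Finset.mem_insert_self _ _
      | 1 => exact Finset.mem_insert_of_mem (Finset.mem_insert_self _ _)
      | i + 2 => exact Finset.mem_insert_of_mem (Finset.mem_insert_of_mem
          (Finset.mem_singleton_self _)))).2
  rw [hs] at h1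
  exact h1

end aux

private theorem uk_jj : Tm ZFm (fun _ v => jj (v 0) (v 1)) :=
  Tm.fst (Tm.snd (Tm.snd (Tm.app (Tm.var 0) (Tm.var 1))))

private theorem uk_code (c : Cd) : fst (fst c.code) = c.v.A.B ∧ snd c.code = c.x.val := by
  unfold Cd.code Obj.code
  rw [fst_pair, fst_pair, snd_pair]
  exact ⟨rfl, rfl⟩

private theorem uk_pm (hUA : T_UA) {Z : BA} (i : ∀ v : Obj, BMor v.A Z) (c : Cd) :
    pmV i c.code = prm (i c.v).toMor := by
  have h : ∃ z, PMr i c.code z := ⟨_, c, rfl, rfl⟩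
  unfold pmV
  rw [dif_pos h]
  obtain ⟨c', h1, h2⟩ := h.choose_spec
  have h3 : c = c' := hUA.2.1 c c' h1
  rw [h2, ← h3]

/-- the set of names -/
private noncomputable def uk_r2 (r Bn jn : V) : V :=
  (ZFSet.prod (dm r) (rg jn)).sep fun q =>
    ∃ x ∈ Bn, ZFSet.pair (fst q) x ∈ r ∧ ZFSet.pair x (snd q) ∈ jn

private theorem uk_r2_mem {N' : V} (k : ZFm (· ∈ N')) {r Bn jn : V} (hr : r ∈ N') (hB : Bn ∈ N')
    (hj : jn ∈ N') : uk_r2 r Bn jn ∈ N' := by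
  have h1 : Tm ZFm (fun _ v => (ZFSet.prod (dm (v 0)) (rg (v 2))).sep fun q =>
      ∃ x ∈ v 1, ZFSet.pair (fst q) x ∈ v 0 ∧ ZFSet.pair x (snd q) ∈ v 2) := by
    refine Tm.sep (R := fun _ v => ∃ x ∈ v 2, ZFSet.pair (fst (v 0)) x ∈ v 1 ∧
      ZFSet.pair x (snd (v 0)) ∈ v 3) ?_ (Tm.prod (Tm.dm (Tm.var 0)) (Tm.rg (Tm.var 2)))
    exact Dfb.bex (R := fun _ v => ZFSet.pair (fst (v 1)) (v 0) ∈ v 2 ∧
      ZFSet.pair (v 0) (snd (v 1)) ∈ v 4) ktr_zfm (Tm.var 2)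
      ((Dfb.pairMem (Tm.fst (Tm.var 1)) (Tm.var 0) (Tm.var 2)).and
        (Dfb.pairMem (Tm.var 0) (Tm.snd (Tm.var 1)) (Tm.var 4)))
  exact h1.1 (· ∈ N') k (fun i => match i with | 0 => r | 1 => Bn | _ + 2 => jn) (fun i => by
    match i with
    | 0 => exact hr
    | 1 => exact hB
    | i + 2 => exact hj)

private theorem uk_ev {w r Bn jn G' : V} : ev w r (pull Bn jn G') = ev w (uk_r2 r Bn jn) G' := by
  ext β
  unfold ev
  simp only [ZFSet.mem_sep]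
  refine and_congr_right fun _ => ?_
  constructor
  · rintro ⟨x, hx, h1⟩
    obtain ⟨h2, y, hy, h3⟩ := ZFSet.mem_sep.1 hx
    refine ⟨y, hy, ZFSet.mem_sep.2 ⟨?_, x, h2, ?_, ?_⟩⟩
    · exact ZFSet.pair_mem_prod.2 ⟨mem_dm.2 ⟨x, h1⟩, mem_rg.2 ⟨x, h3⟩⟩
    · rw [fst_pair]; exact h1
    · rw [snd_pair]; exact h3
  · rintro ⟨y, hy, h1⟩
    obtain ⟨-, x, hx, h2, h3⟩ := ZFSet.mem_sep.1 h1
    rw [fst_pair] at h2
    rw [snd_pair] at h3
    exact ⟨x, ZFSet.mem_sep.2 ⟨hx, y, hy, h3⟩, h2⟩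

theorem uk (hUKA : T_UKA) (hUKB : T_UKB) (hTF : T_TF) (hAU : T_AU) (hAM : T_AM) (hAP : T_AP)
    (hNR : T_NR) (hBR : T_BR) (hUA : T_UA) (hUP : T_UP) (hUV : T_UV) (hZN : T_ZN) : T_UK := by
  classical
  intro κ Z i hκ hCU v hne hv
  set c0 : Cd := ⟨v, ⊤, hne⟩ with hc0
  have hc0κ : c0.code ∈ V_ κ := ((hUV κ hκ).2.2.2.2.2.2.2.2.2.1 c0).2 hv
  refine ⟨par κ i c0.code, fun F => ?_⟩
  obtain ⟨P⟩ := hUKA κ Z i hκ hCU c0 hc0κ v.A F.N' F.N F.p' F.b F.σ F.np F.map F.ne F.kp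
  obtain ⟨kU, kL, kR, kCL, kHW, kPM, kt⟩ := P.kn v.A F.b F.σ F.map F.ne F.kp
  obtain ⟨mU, mL, mR, mCL, mHW, mPM, mt⟩ := P.mem
  have hCR : F.C' = P.R :=
    (hAU v.A.B F.N' F.N F.b F.σ F.np F.map F.ne P.R Z.B kR).2.2.1 F.C' F.kC
  have hgen : NGen F.N' P.R F.G' := hCR ▸ F.gen
  have kZ : ZFm (· ∈ F.N') := (hZN v.A.B F.N' F.N F.b F.σ F.np F.map F.ne).toZFm
  have hUCl : ∀ c : Cd, c.code ∈ V_ κ → app (UCl κ) c.code = (i c.v c.x).val := by
    intro c hc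
    unfold UCl
    rw [app_resS (((hUP.2.2.2 κ).2 _).2 ⟨c, rfl, hc⟩), hCU.val c hc]
  -- the filter contains the first condition
  have ht0 : app P.CL P.t' ∈ F.G' := by
    obtain ⟨x, y, hxy, hy⟩ := F.top
    have hxyN : ZFSet.pair x y ∈ F.N' :=
      kZ.trans _ (F.map.dom F.h' _ (by rw [F.kh]; exact F.ne)).1 _ hxy
    obtain ⟨q, hq⟩ := uk_tot F.map F.ne hxyN
    have h1 : F.σ (ZFSet.pair x y) q ⊓ F.σ F.h' (i v).gr ≠ ⊥ := by
      rw [F.kh, inf_eq_left.2 (uk_le F.map _ _)]; exact hq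
    have h2 : q ∈ (i v).gr := (hAM v.A.B F.N' F.N F.b F.σ F.np F.map _ _ _ _ h1).1.1 hxy
    obtain ⟨X, hX⟩ := ZFSet.mem_range.1 h2
    have hX' : ZFSet.pair X.val (i v X).val = q := hX
    subst hX'
    obtain ⟨-, a2, -, a4, -⟩ := hAP v.A.B F.N' F.N F.b F.σ F.np F.map F.ne
    obtain ⟨x1, -, y1, -, he, hle⟩ := a2 _ _ _ hq
    obtain ⟨rfl, rfl⟩ := ZFSet.pair_injective he
    have h3 : F.σ y (i v X).val ≠ ⊥ := by
      intro h0
      rw [h0, inf_bot_eq] at hle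
      exact hq (le_bot_iff.1 hle)
    have h4 : F.σ (app P.CL P.t') (app (UCl κ) c0.code) = F.b := by
      refine le_antisymm (uk_le F.map _ _) ?_
      have h5 := uk_tf2 hTF F.np F.map (f := app) (Tm.app (Tm.var 0) (Tm.var 1)) P.CL (UCl κ)
        P.t' c0.code
      rwa [kCL, kt, inf_idem] at h5
    have h5 : F.σ y (i v X).val ⊓ F.σ (app P.CL P.t') (app (UCl κ) c0.code) ≠ ⊥ := by
      rw [h4, inf_eq_left.2 (uk_le F.map _ _)]; exact h3
    have h6 := (hAM v.A.B F.N' F.N F.b F.σ F.np F.map _ _ _ _ h5).2.2.1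
    rw [hUCl c0 hc0κ] at h6
    have h7 : i v X ≤ i v ⊤ := by
      have h8 := (i v).inf X ⊤
      rw [inf_top_eq] at h8
      rw [h8]
      exact inf_le_right
    have h9 : y ⊆ app P.CL P.t' := h6.2 (El.le_iff.1 h7)
    exact hgen.up y hy _ (P.f2 _ P.f5).2.2.1 h9
  obtain ⟨u, hu0, hu, hug⟩ := hUKB κ Z i hκ hCU c0 hc0κ v.A F.N' F.N F.p' F.G' F.b F.σ F.np
    F.map F.ne F.kp P hgen ht0
  have huN : ∀ n, u n ∈ F.N' := fun n => kZ.trans _ mU _ (hu n).1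
  have mfst : ∀ a, a ∈ F.N' → fst a ∈ F.N' := fun a ha =>
    (Tm.fst (Tm.var 0)).1 (· ∈ F.N') kZ (fun _ => a) (fun _ => ha)
  have msnd : ∀ a, a ∈ F.N' → snd a ∈ F.N' := fun a ha =>
    (Tm.snd (Tm.var 0)).1 (· ∈ F.N') kZ (fun _ => a) (fun _ => ha)
  have mapp : ∀ a c, a ∈ F.N' → c ∈ F.N' → app a c ∈ F.N' := fun a c ha hc =>
    (Tm.app (Tm.var 0) (Tm.var 1)).1 (· ∈ F.N') kZ (fun i => if i = 0 then a else c) (fun i => by
      by_cases hi : i = 0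
      · simp only [hi, if_true]; exact ha
      · simp only [hi, if_false]; exact hc)
  -- k1
  have hk1 : ∀ (A : BA) (b : El A.B) (τ : V → V → El A.B), BMap F.N' F.N b τ → b ≠ ⊥ →
      τ F.p' (par κ i c0.code) = b → ∀ n y, τ (u n) y ≠ ⊥ → ∃ c : Cd, c.code ∈ V_ κ ∧
        c.code = y ∧ τ (u n) y ≤ τ (snd (u n)) c.x.val ⊓ (τ (fst (fst (u n))) c.v.A.B ⊓
          τ (jj P.PM (u n)) (i c.v).gr) ∧
        τ (u n) y ≤ τ (app P.PM (u n)) (prm (i c.v).toMor) := by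
    intro A b τ hM hb hp n y hy
    obtain ⟨qU, qL, qR, qCL, qHW, qPM, qt⟩ := P.kn A b τ hM hb hp
    have h1 : τ (u n) y ⊓ τ P.U (UU κ) ≠ ⊥ := by
      rw [qU, inf_eq_left.2 (uk_le hM _ _)]; exact hy
    have h2 : y ∈ UU κ := (hAM A.B F.N' F.N b τ F.np hM _ _ _ _ h1).1.1 (hu n).1
    obtain ⟨c, rfl, hc⟩ := ((hUP.2.2.2 κ).2 y).1 h2
    obtain ⟨e1, e2⟩ := uk_code c
    have hPM : app (UM κ i) c.code = prm (i c.v).toMor := by
      unfold UM
      rw [app_resS h2, uk_pm hUA]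
    have hjj : jj (UM κ i) c.code = (i c.v).gr := by
      unfold jj
      rw [hPM]
      unfold prm
      rw [snd_pair, snd_pair, fst_pair]
    refine ⟨c, hc, rfl, le_inf ?_ (le_inf ?_ ?_), ?_⟩
    · have h3 := uk_tf1 hTF F.np hM (f := snd) (Tm.snd (Tm.var 0)) (u n) c.code
      rwa [e2] at h3
    · have h3 := uk_tf1 hTF F.np hM (f := fun x => fst (fst x)) (Tm.fst (Tm.fst (Tm.var 0)))
        (u n) c.code
      rwa [e1] at h3
    · have h3 := uk_tf2 hTF F.np hM (f := jj) uk_jj P.PM (UM κ i) (u n) c.code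
      rwa [qPM, inf_eq_right.2 (uk_le hM _ _), hjj] at h3
    · have h3 := uk_tf2 hTF F.np hM (f := app) (Tm.app (Tm.var 0) (Tm.var 1)) P.PM (UM κ i)
        (u n) c.code
      rwa [qPM, inf_eq_right.2 (uk_le hM _ _), hPM] at h3
  have hxj : ∀ n, ZFSet.pair (snd (u n)) (app P.CL (u n)) ∈ jj P.PM (u n) := fun n =>
    (P.f2 (u n) (hu n).1).2.2.2.2
  refine ⟨P.t', mt, ⟨?_⟩, kt⟩
  refine
    { u := u
      G := fun n => pull (fst (fst (u n))) (jj P.PM (u n)) F.G'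
      B := fun n => fst (fst (u n))
      x := fun n => snd (u n)
      h := fun n => fst (app P.HW (ZFSet.pair (u (n + 1)) (u n)))
      t := fun n => snd (app P.HW (ZFSet.pair (u (n + 1)) (u n)))
      j := fun n => jj P.PM (u n)
      np := F.np
      zero := hu0
      mem := ?_
      gen := ?_
      xG := ?_
      hx := ?_
      hG := ?_
      jG := ?_
      ev := ?_
      k1 := ?_
      k2 := ?_
      k3 := ?_ }
  · intro n
    have h1 := mapp _ _ mHW (kZ.mpair (huN (n + 1)) (huN n))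
    have h2 := mapp _ _ mPM (huN n)
    exact ⟨huN n, mfst _ (mfst _ (huN n)), msnd _ (huN n), mfst _ h1, msnd _ h1,
      mfst _ (msnd _ (msnd _ h2))⟩
  · intro n
    obtain ⟨y, hy⟩ := uk_tot F.map F.ne (huN n)
    set b1 := F.σ (u n) y with hb1
    have hM1 := hBR v.A.B v.A.B F.N' F.N F.b F.σ (Mor.id v.A.B) F.map b1 (uk_le F.map _ _)
    have hτ : (fun x z => (Mor.id v.A.B) (F.σ x z) ⊓ b1) = fun x z => F.σ x z ⊓ b1 := rfl
    rw [hτ] at hM1
    have hkn : ∀ x z, F.σ x z = F.b → F.σ x z ⊓ b1 = b1 := by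
      intro x z h
      rw [h]
      exact inf_eq_right.2 (uk_le F.map _ _)
    have hyy : F.σ (u n) y ⊓ b1 = b1 := by rw [← hb1, inf_idem]
    obtain ⟨c, hc, hcy, h1, h2⟩ := hk1 v.A b1 _ hM1 hy (hkn _ _ F.kp) n y (by
      show F.σ (u n) y ⊓ b1 ≠ ⊥
      rw [hyy]; exact hy)
    have h1' : F.σ (u n) y ⊓ b1 ≤ (F.σ (snd (u n)) c.x.val ⊓ b1) ⊓
      ((F.σ (fst (fst (u n))) c.v.A.B ⊓ b1) ⊓ (F.σ (jj P.PM (u n)) (i c.v).gr ⊓ b1)) := h1
    have h2' : F.σ (u n) y ⊓ b1 ≤ F.σ (app P.PM (u n)) (prm (i c.v).toMor) ⊓ b1 := h2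
    rw [hyy] at h1' h2'
    have h3 : F.σ (fst (fst (u n))) c.v.A.B ⊓ b1 = b1 :=
      le_antisymm inf_le_right (h1'.trans (inf_le_right.trans inf_le_left))
    have h4 : F.σ (jj P.PM (u n)) (i c.v).gr ⊓ b1 = b1 :=
      le_antisymm inf_le_right (h1'.trans (inf_le_right.trans inf_le_right))
    have h5 : F.σ (app P.PM (u n)) (prm (i c.v).toMor) ⊓ b1 = b1 :=
      le_antisymm inf_le_right h2'
    exact hNR v.A.B F.N' F.N b1 _ F.np hM1 hy c.v.A.B Z.B (i c.v).toMor _ _ P.R _ F.G' h5 h3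
      (hkn _ _ kR) h4 hgen ⟨_, _, hxj n, (hu n).2.1⟩
  · intro n
    exact ZFSet.mem_sep.2 ⟨(P.f2 (u n) (hu n).1).2.1, _, (hu n).2.1, hxj n⟩
  · intro n
    exact (P.f3 _ _ (hu n).2.2).2.1
  · intro n a b hab hb
    obtain ⟨hb1, y, hy, hby⟩ := ZFSet.mem_sep.1 hb
    obtain ⟨h1, z', h2, h3, h4⟩ := (P.f3 _ _ (hu n).2.2).2.2 a b hab y hby
    exact ZFSet.mem_sep.2 ⟨h1, z', hgen.up y hy z' h3 h4, h2⟩
  · intro n a ha
    obtain ⟨-, y, hy, hay⟩ := ZFSet.mem_sep.1 ha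
    exact ⟨y, hy, hay⟩
  · intro n r hr
    exact ⟨_, uk_r2_mem kZ hr (mfst _ (mfst _ (huN n)))
      (mfst _ (msnd _ (msnd _ (mapp _ _ mPM (huN n))))), uk_ev⟩
  · intro A b τ hM hb hp n y hy
    obtain ⟨c, h1, h2, h3, -⟩ := hk1 A b τ hM hb hp n y hy
    exact ⟨c, h1, h2, h3⟩
  · intro A b τ hM hb hp n c c' hcc
    obtain ⟨qU, qL, qR, qCL, qHW, qPM, qt⟩ := P.kn A b τ hM hb hp
    have h1 := uk_tf2 hTF F.np hM (f := ZFSet.pair) (Tm.pair (Tm.var 0) (Tm.var 1))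
      (u (n + 1)) c'.code (u n) c.code
    rw [inf_comm] at h1
    have h2 : τ (ZFSet.pair (u (n + 1)) (u n)) (ZFSet.pair c'.code c.code) ⊓ τ P.L (UL κ) ≠ ⊥ := by
      rw [qL, inf_eq_left.2 (uk_le hM _ _)]
      intro h0
      rw [h0] at h1
      exact hcc (le_bot_iff.1 h1)
    have h3 : ZFSet.pair c'.code c.code ∈ UL κ :=
      (hAM A.B F.N' F.N b τ F.np hM _ _ _ _ h2).1.1 (hu n).2.2
    have h4 : leU c'.code c.code := by
      have h5 := (ZFSet.mem_sep.1 h3).2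
      rwa [fst_pair, snd_pair] at h5
    obtain ⟨k0, hk0⟩ := (hUP.1 c' c).1 h4
    obtain ⟨s0, hs0⟩ := hk0.good
    have hex : ∃ z, HWr (ZFSet.pair c'.code c.code) z := ⟨_, c', c, k0, s0, rfl, hk0, hs0, rfl⟩
    obtain ⟨e, e', k, s, he, hk, hs, hz⟩ := hex.choose_spec
    obtain ⟨he1, he2⟩ := ZFSet.pair_injective he
    have hee : c' = e := hUA.2.1 _ _ he1
    have hee' : c = e' := hUA.2.1 _ _ he2
    subst hee hee'
    have hH : app (UH κ) (ZFSet.pair c'.code c.code) = ZFSet.pair k.gr s := by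
      unfold UH
      rw [app_resS h3]
      unfold hwV
      rw [dif_pos hex]
      exact hz
    refine ⟨k, s, hk, hs, le_inf ?_ ?_⟩
    · have h5 := uk_tf3 hTF F.np hM (f := fun x y z => fst (app x (ZFSet.pair y z)))
        (Tm.fst (Tm.app (Tm.var 0) (Tm.pair (Tm.var 1) (Tm.var 2)))) P.HW (UH κ)
        (u (n + 1)) c'.code (u n) c.code
      simp only [hH, fst_pair] at h5
      rw [qHW, inf_eq_right.2 (inf_le_left.trans (uk_le hM _ _)), inf_comm] at h5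
      exact h5
    · have h5 := uk_tf3 hTF F.np hM (f := fun x y z => snd (app x (ZFSet.pair y z)))
        (Tm.snd (Tm.app (Tm.var 0) (Tm.pair (Tm.var 1) (Tm.var 2)))) P.HW (UH κ)
        (u (n + 1)) c'.code (u n) c.code
      simp only [hH, snd_pair] at h5
      rw [qHW, inf_eq_right.2 (inf_le_left.trans (uk_le hM _ _)), inf_comm] at h5
      exact h5
  · intro g hg
    obtain ⟨n, hn⟩ := hug g hg
    refine ⟨n, fun A b τ hM hb hp c y hcy => ?_⟩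
    obtain ⟨qU, qL, qR, qCL, qHW, qPM, qt⟩ := P.kn A b τ hM hb hp
    have hgy : τ g y ≠ ⊥ := fun h0 => hcy (by rw [h0, bot_inf_eq])
    have huc : τ (u n) c.code ≠ ⊥ := fun h0 => hcy (by rw [h0, inf_bot_eq])
    obtain ⟨c1, hc1, hc1c, -, -⟩ := hk1 A b τ hM hb hp n c.code huc
    have hcκ : c.code ∈ V_ κ := hc1c ▸ hc1
    have h1 : τ g y ⊓ τ P.R Z.B ≠ ⊥ := by
      rw [qR, inf_eq_left.2 (uk_le hM _ _)]; exact hgy
    have h2 : y ∈ Z.B := (hAM A.B F.N' F.N b τ F.np hM _ _ _ _ h1).1.1 (hgen.sub hg)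
    have h3 := uk_tf2 hTF F.np hM (f := app) (Tm.app (Tm.var 0) (Tm.var 1)) P.CL (UCl κ)
      (u n) c.code
    rw [qCL, inf_eq_right.2 (uk_le hM _ _), hUCl c hcκ] at h3
    have h4 : τ (app P.CL (u n)) (i c.v c.x).val ⊓ τ g y ≠ ⊥ := by
      intro h0
      apply hcy
      rw [eq_bot_iff, ← h0]
      exact le_inf (inf_le_right.trans h3) inf_le_left
    have h5 := (hAM A.B F.N' F.N b τ F.np hM _ _ _ _ h4).2.2.1.1 hn
    refine El.le_iff.2 ?_
    unfold mkEl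
    rw [dif_pos h2]
    exact h5

end SF.H84
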