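import Pool.Agent.H9.SF.WDefs

/-! # MP_3b3fc8_lc, part W, module WH: generic filters on algebras -/

open Ordinal Cardinal Order Set
open scoped ZFSet

namespace SF.H84

open SF

private theorem wh_pos {B x : V} : x ∈ pos B ↔ x ∈ B ∧ x ≠ ∅ := by
  unfold pos
  rw [ZFSet.mem_sdiff, ZFSet.mem_singleton]

private theorem wh_incl {B x y : V} : ZFSet.pair x y ∈ incl B ↔
    (x ∈ B ∧ x ≠ ∅) ∧ (y ∈ B ∧ y ≠ ∅) ∧ x ⊆ y := by
  unfold incl
  rw [ZFSet.mem_sep, ZFSet.pair_mem_prod, fst_pair, snd_pair, wh_pos, wh_pos]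
  tauto

private theorem wh_asg {M : V → Prop} {a b : V} (ha : M a) (hb : M b) :
    In M (fun i => if i = 0 then a else b) := by
  intro i
  by_cases hi : i = 0
  · simp only [hi, if_true]; exact ha
  · simp only [hi, if_false]; exact hb

/-- subsets defined by a relation with one parameter -/
private theorem wh_sep {M : V → Prop} (k : ZFm M) {P S : V} (hP : M P) (hS : M S)
    {R : V → V → Prop} (hR : Dfb ZFm (fun _ v => R (v 0) (v 2))) :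
    M (P.sep fun z => R z S) := by
  have h1 := (Tm.sep hR (Tm.var 0)).1 M k _ (wh_asg hP hS)
  exact h1

theorem wh (hFE : T_FE) (hWF : T_WF) (hWG : T_WG) : T_WH := by
  intro M B G k hB hC hG
  have hMp : M (pos B) := hWF.2.2.1.1 M k (fun _ => B) (fun _ => hB)
  have hMi : M (incl B) := hWF.2.2.2.1.1 M k (fun _ => B) (fun _ => hB)
  have hsub : ∀ x ∈ G, x ∈ B ∧ x ≠ ∅ := fun x hx => wh_pos.1 (hG.1.sub hx)
  obtain ⟨g0, hg0⟩ := hG.1.ne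
  have hB0 : B ≠ {∅} := by
    intro h
    obtain ⟨h1, h2⟩ := hsub g0 hg0
    rw [h, ZFSet.mem_singleton] at h1
    exact h2 h1
  have hPo := hWG.2.2.1 M B hC hB0
  obtain ⟨hW1, hW2⟩ := hWG.2.2.2 M B hC
  have hup : ∀ x ∈ G, ∀ y ∈ B, x ⊆ y → y ∈ G := by
    intro x hx y hy hxy
    obtain ⟨h1, h2⟩ := hsub x hx
    refine hG.1.up x hx y (wh_incl.2 ⟨⟨h1, h2⟩, ⟨hy, ?_⟩, hxy⟩)
    intro h3
    apply h2
    rw [ZFSet.eq_empty]
    intro z hz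
    have := hxy hz
    rw [h3] at this
    exact ZFSet.notMem_empty z this
  have hint : ∀ x ∈ G, ∀ y ∈ G, x ∩ y ∈ G := by
    intro x hx y hy
    obtain ⟨s, hs, h1, h2⟩ := hG.1.dir x hx y hy
    refine hup s hs _ (hC.inter x (hsub x hx).1 y (hsub y hy).1) ?_
    intro z hz
    exact ZFSet.mem_inter.2 ⟨(wh_incl.1 h1).2.2 hz, (wh_incl.1 h2).2.2 hz⟩
  have hlub : ∀ S b, M S → S ⊆ B → LubB B S b → (b ∈ G ↔ ∃ s ∈ S, s ∈ G) := by
    intro S b hS hSB hb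
    constructor
    · intro hbG
      have hMD : M ((pos B).sep fun z => ∃ s ∈ S, z ⊆ s) :=
        wh_sep (R := fun z S => ∃ s ∈ S, z ⊆ s) k hMp hS
          (Dfb.bex (R := fun _ v => v 1 ⊆ v 0) ktr_zfm (Tm.var 2)
            (Dfb.subset (Tm.var 1) (Tm.var 0)))
      obtain ⟨d, hd, hdD, -⟩ := hFE M (pos B) (incl B) G _ b k hMp hMi hPo hG hMD hbG (by
        intro q hq
        obtain ⟨⟨hqB, hq0⟩, -, hqb⟩ := wh_incl.1 hq
        by_contra hcon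
        have h1 : ∀ s ∈ S, s ∩ q = ∅ := by
          intro s hs
          by_contra h2
          apply hcon
          have h3 : s ∩ q ∈ B := hC.inter s (hSB hs) q hqB
          refine ⟨s ∩ q, ZFSet.mem_sep.2 ⟨wh_pos.2 ⟨h3, h2⟩, s, hs, ?_⟩,
            wh_incl.2 ⟨⟨h3, h2⟩, ⟨hqB, hq0⟩, ?_⟩⟩
          · exact fun z hz => (ZFSet.mem_inter.1 hz).1
          · exact fun z hz => (ZFSet.mem_inter.1 hz).2
        have h4 := hW2 S b q hb hSB hqB h1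
        apply hq0
        rw [ZFSet.eq_empty] at h4 ⊢
        exact fun z hz => h4 z (ZFSet.mem_inter.2 ⟨hqb hz, hz⟩))
      obtain ⟨-, s, hs, hds⟩ := ZFSet.mem_sep.1 hdD
      exact ⟨s, hs, hup d hd s (hSB hs) hds⟩
    · rintro ⟨s, hs, hsG⟩
      exact hup s hsG b hb.1 (hb.2.1 s hs)
  refine ⟨hint, hsub, hup, ?_, hlub, ?_⟩
  · intro x hx y hy _ hl
    have hMS : M ({x, y} : V) := k.pair x y (k.trans _ hB x hx) (k.trans _ hB y hy)
    have h1 : (⋃₀ B : ZFSet) ∈ G := by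
      refine hup g0 hg0 _ hl.1 ?_
      intro z hz
      exact ZFSet.mem_sUnion.2 ⟨g0, (hsub g0 hg0).1, hz⟩
    have hSB : ({x, y} : V) ⊆ B := by
      intro z hz
      rcases ZFSet.mem_pair.1 hz with rfl | rfl
      · exact hx
      · exact hy
    obtain ⟨s, hs, hsG⟩ := (hlub _ _ hMS hSB hl).1 h1
    rcases ZFSet.mem_pair.1 hs with rfl | rfl
    · exact Or.inl hsG
    · exact Or.inr hsG
  · intro S hS hSB hSG
    have hMD : M ((pos B).sep fun z => (∀ s ∈ S, z ⊆ s) ∨ ∃ s ∈ S, z ∩ s = ∅) :=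
      wh_sep (R := fun z S => (∀ s ∈ S, z ⊆ s) ∨ ∃ s ∈ S, z ∩ s = ∅) k hMp hS
        ((Dfb.ball (R := fun _ v => v 1 ⊆ v 0) ktr_zfm (Tm.var 2)
            (Dfb.subset (Tm.var 1) (Tm.var 0))).or
          (Dfb.bex (R := fun _ v => v 1 ∩ v 0 = ∅) ktr_zfm (Tm.var 2)
            (Dfb.eq (Tm.inter (Tm.var 1) (Tm.var 0)) Tm.empty)))
    obtain ⟨z0, hz0G, hz0D⟩ := hG.2 _ hMD (by
      refine ⟨fun z hz => (ZFSet.mem_sep.1 hz).1, ?_⟩
      intro p hp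
      have hp' := wh_pos.1 hp
      by_cases h : ∀ s ∈ S, p ⊆ s
      · exact ⟨p, ZFSet.mem_sep.2 ⟨hp, Or.inl h⟩, wh_incl.2 ⟨hp', hp', fun z hz => hz⟩⟩
      · simp only [not_forall] at h
        obtain ⟨s, hs, hps⟩ := h
        obtain ⟨z, hzB, hz0, hzp, hzs⟩ := hW1 p hp'.1 s (hSB hs) hps
        exact ⟨z, ZFSet.mem_sep.2 ⟨wh_pos.2 ⟨hzB, hz0⟩, Or.inr ⟨s, hs, hzs⟩⟩,
          wh_incl.2 ⟨⟨hzB, hz0⟩, hp', hzp⟩⟩)
    have hz0S : ∀ s ∈ S, z0 ⊆ s := by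
      rcases (ZFSet.mem_sep.1 hz0D).2 with h | ⟨s, hs, h⟩
      · exact h
      · exact absurd h (hsub _ (hint z0 hz0G s (hSG s hs))).2
    have hML : M (B.sep fun z => ∀ s ∈ S, z ⊆ s) :=
      wh_sep (R := fun z S => ∀ s ∈ S, z ⊆ s) k hB hS
        (Dfb.ball (R := fun _ v => v 1 ⊆ v 0) ktr_zfm (Tm.var 2)
            (Dfb.subset (Tm.var 1) (Tm.var 0)))
    obtain ⟨b, hb⟩ := hC.lub _ hML (fun z hz => (ZFSet.mem_sep.1 hz).1)
    refine ⟨b, hup z0 hz0G b hb.1 (hb.2.1 z0 (ZFSet.mem_sep.2 ⟨(hsub z0 hz0G).1, hz0S⟩)), ?_, ?_⟩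
    · intro s hs
      exact hb.2.2 s (hSB hs) (fun z hz => (ZFSet.mem_sep.1 hz).2 s hs)
    · intro b' hb' h
      exact hb.2.1 b' (ZFSet.mem_sep.2 ⟨hb', h⟩)

end SF.H84
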