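import Pool.Agent.H72.SF.YT

/-! # MP_3b3fc8_lc, part Y, module YF: frames and lifts, El versus sets -/

open Ordinal Cardinal Order Set
open scoped ZFSet

namespace SF.H84

open SF

private theorem yf_ctb {x : V} : (x : Set V).Countable ↔ x.card ≤ ℵ₀ := by
  rw [← Cardinal.le_aleph0_iff_set_countable]
  have h : #(x : Set V) = Cardinal.lift.{1, 0} x.card := ZFSet.cardinalMk_coe_sort
  rw [h, Cardinal.lift_le_aleph0]

private theorem yf_app {f x : V} (h : ∀ y, ZFSet.pair x y ∉ f) : app f x = ∅ := by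
  unfold app
  rw [ZFSet.eq_empty]
  intro z hz
  obtain ⟨y, hy, -⟩ := ZFSet.mem_sUnion.1 hz
  exact h y (ZFSet.mem_sep.1 hy).2

private theorem yf_ne {B : V} [IsCBA B] {b : El B} : b.val ≠ ∅ ↔ b ≠ ⊥ := by
  constructor
  · rintro h rfl
    exact h El.bot_val
  · intro h h0
    exact h (El.ext (h0.trans El.bot_val.symm))

private theorem yf_le {B : V} [IsCBA B] {N' N : V} {b : El B} {σ : V → V → El B}
    (hM : BMap N' N b σ) (x y : V) : σ x y ≤ b := by
  by_cases h : σ x y = ⊥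
  · rw [h]; exact bot_le
  · rw [← hM.tot x (hM.dom x y h).1]
    exact le_iSup (fun y => σ x y) y

/-- `ω₁` of the small model is a countable ordinal -/
private theorem yf_w (hTR : T_TR) {B : V} [IsCBA B] {N' N : V} {b : El B} {σ : V → V → El B}
    (hN : NP N' N) (hM : BMap N' N b σ) (hb : b ≠ ⊥) {w : V} (hw : σ w w1 = b) :
    w ∈ w1 := by
  classical
  have hwN : w ∈ N' := (hM.dom w w1 (by rw [hw]; exact hb)).1
  have h1 := hTR _ (Dfb.isOrd (Tm.var 0)) B N' N b σ hN hM ({(w, w1)} : Finset (V × V))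
    (by rw [Finset.inf_singleton]; show σ w w1 ≠ ⊥; rw [hw]; exact hb) (fun _ => (w, w1))
    (fun _ => Finset.mem_singleton_self _)
  obtain ⟨δ, hδ⟩ : IsOrd w := h1.2 ⟨Ordinal.omega.{0} 1, rfl⟩
  have h2 : (w : Set V).Countable := hN.ctb.mono (fun z hz => hN.full.1 w hwN hz)
  rw [yf_ctb, hδ, Ordinal.card_toZFSet] at h2
  rw [hδ]
  refine Ordinal.toZFSet_mem_toZFSet_iff.2 ?_
  rw [Cardinal.lt_omega_iff_card_lt]
  exact lt_of_le_of_lt h2 Cardinal.aleph0_lt_aleph_one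

private theorem yf_ga (A : BA) {w S : V} (hw : w ∈ w1) (hS : S ⊆ w) :
    app (gaf A) (ZFSet.pair w S) = (A.g (acc w S)).val := by
  have hww : w ⊆ w1 := by
    intro z hz
    exact (ZFSet.isOrdinal_toZFSet _).isTransitive w hw hz
  unfold gaf
  rw [app_resS, fst_pair, snd_pair]
  refine ZFSet.mem_sep.2 ⟨ZFSet.pair_mem_prod.2 ⟨hw, ZFSet.mem_powerset.2 ?_⟩, ?_⟩
  · exact fun z hz => hww (hS hz)
  · rw [fst_pair, snd_pair]; exact hS

private theorem yf_ga2 (A : BA) (w S : V) :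
    app (gaf A) (ZFSet.pair w S) ⊆ (A.g (acc w S)).val := by
  by_cases h : ZFSet.pair w S ∈ (ZFSet.prod w1 (ZFSet.powerset w1)).sep fun q => snd q ⊆ fst q
  · unfold gaf
    rw [app_resS h, fst_pair, snd_pair]
  · rw [yf_app]
    · exact ZFSet.empty_subset _
    · intro y hy
      unfold gaf at hy
      obtain ⟨q, hq, he⟩ := mem_resS.1 hy
      obtain ⟨rfl, -⟩ := ZFSet.pair_injective he
      exact h hq

section

variable (hYE : T_YE) (hYD : T_YD) (hMB : T_MB) (hTR : T_TR)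

include hYE hTR in
private theorem yf_1 (A C : BA) (h : BMor A C) (p : V) (F : Frame h p) :
    FrameS Al w1 (gaf A) A.B C.B h.gr p F.N' F.N F.b.val (cS F.N' F.N F.σ) F.w
      F.B' F.C' F.h' F.p' F.G' := by
  obtain ⟨e1, -, e3⟩ := hYE A.B F.N' F.N
  obtain ⟨m1, m2⟩ := e1 F.b F.σ F.map
  have kn : ∀ x y, F.σ x y = F.b → app (cS F.N' F.N F.σ) (ZFSet.pair x y) = F.b.val := by
    intro x y hxy
    obtain ⟨hx, hy⟩ := F.map.dom x y (by rw [hxy]; exact F.ne)
    rw [m2 x hx y hy, hxy]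
  have hh' : F.h' ∈ F.N' := (F.map.dom _ _ (by rw [F.kh]; exact F.ne)).1
  have hw := yf_w hTR F.np F.map F.ne F.kw
  refine ⟨(e3 F.N').1 F.np, yf_ne.2 F.ne, m1, kn _ _ F.kw, kn _ _ F.kB, kn _ _ F.kC, kn _ _ F.kh,
    kn _ _ F.kp, F.gen, F.top, ?_, ?_⟩
  · intro x y hxy hy z hz
    have hx : x ∈ F.N' := by
      have h1 := F.np.full.1 _ hh' hxy
      have h2 := F.np.full.1 _ h1 (show ({x} : V) ∈ ZFSet.pair x y by simp [ZFSet.pair])
      exact F.np.full.1 _ h2 (by simp)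
    have h3 := F.com x y hxy hy z
    unfold Blw
    rw [m2 x hx z hz]
    by_cases hzB : z ∈ A.B
    · refine ⟨?_, fun h => absurd hzB h⟩
      unfold mkEl at h3
      rw [dif_pos hzB] at h3
      exact El.le_iff.1 h3
    · unfold mkEl at h3
      rw [dif_neg hzB] at h3
      rw [le_bot_iff.1 h3, El.bot_val]
      exact ⟨ZFSet.empty_subset _, fun _ => rfl⟩
  · intro r hr
    have hev : ev F.w r F.G' ⊆ F.w := fun z hz => (ZFSet.mem_sep.1 hz).1
    rw [yf_ga A hw hev]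
    exact El.le_iff.1 (F.sc r hr)

include hYE in
private theorem yf_2 (A C : BA) (h : BMor A C) (p : V)
    (N' N σ w B' C' h' p' G' : V) (b : El A.B)
    (H : FrameS Al w1 (gaf A) A.B C.B h.gr p N' N b.val σ w B' C' h' p' G') :
    ∃ F : Frame h p, F.N' = N' ∧ F.N = N ∧ F.b = b ∧ F.w = w ∧ F.B' = B' ∧
      F.C' = C' ∧ F.h' = h' ∧ F.p' = p' ∧ F.G' = G' ∧ F.σ = cL N' N A.B σ ∧ cS N' N F.σ = σ := by
  obtain ⟨-, e2, e3⟩ := hYE A.B N' N
  obtain ⟨m1, m2⟩ := e2 b σ H.map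
  have hb : b ≠ ⊥ := yf_ne.1 H.ne
  have hmem : ∀ x y, app σ (ZFSet.pair x y) ≠ ∅ → x ∈ N' ∧ y ∈ N := by
    intro x y hxy
    by_contra hcon
    apply hxy
    refine yf_app fun z hz => hcon ?_
    exact ZFSet.pair_mem_prod.1 (ZFSet.pair_mem_prod.1 (H.map.func.1 hz)).1
  have kn : ∀ x y, app σ (ZFSet.pair x y) = b.val → cL N' N A.B σ x y = b := by
    intro x y hxy
    obtain ⟨hx, hy⟩ := hmem x y (by rw [hxy]; exact H.ne)
    exact El.ext ((m2 x hx y hy).trans hxy)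
  refine ⟨{ N' := N', N := N, b := b, σ := cL N' N A.B σ, w := w, B' := B', C' := C', h' := h',
            p' := p', G' := G', np := (e3 N').2 H.np, ne := hb, map := m1, kw := kn _ _ H.kw,
            kB := kn _ _ H.kB, kC := kn _ _ H.kC, kh := kn _ _ H.kh, kp := kn _ _ H.kp,
            gen := H.gen, top := H.top, com := ?_, sc := ?_ },
    rfl, rfl, rfl, rfl, rfl, rfl, rfl, rfl, rfl, rfl, ?_⟩
  · intro x y hxy hy z
    by_cases hxz : x ∈ N' ∧ z ∈ N
    · obtain ⟨h1, h2⟩ := H.com x y hxy hy z hxz.2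
      have h3 := m2 x hxz.1 z hxz.2
      by_cases hzB : z ∈ A.B
      · unfold mkEl
        rw [dif_pos hzB]
        exact El.le_iff.2 (h3 ▸ h1)
      · have h4 : cL N' N A.B σ x z = ⊥ := El.ext (by rw [h3, h2 hzB, El.bot_val])
        rw [h4]
        exact bot_le
    · unfold cL
      rw [if_neg hxz]
      exact bot_le
  · intro r hr
    exact El.le_iff.2 (fun z hz => yf_ga2 A w _ (H.sc r hr hz))
  · show cS N' N (cL N' N A.B σ) = σ
    have hS : ∀ q ∈ ZFSet.prod N' N, (cL N' N A.B σ (fst q) (snd q)).val = app σ q := by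
      intro q hq
      obtain ⟨x, hx, y, hy, rfl⟩ := ZFSet.mem_prod.1 hq
      rw [fst_pair, snd_pair]
      exact m2 x hx y hy
    ext z
    unfold cS
    rw [mem_resS]
    constructor
    · rintro ⟨q, hq, rfl⟩
      rw [hS q hq]
      exact pair_app_mem H.map.func hq
    · intro hz
      obtain ⟨q, hq, y, hy, rfl⟩ := ZFSet.mem_prod.1 (H.map.func.1 hz)
      refine ⟨q, hq, ?_⟩
      rw [hS q hq, app_eq (svl_of_isFunc H.map.func) hz]

include hYE hYD hMB in
private theorem yf_3 (A C : BA) (h : BMor A C) (p : V) (F : Frame h p) (q : V) (hq : q ∈ F.N') :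
    (∃ c σ', IsLift F q c σ') ↔ ∃ c σ', LiftS A.B C.B h.gr F.N' F.N
      F.b.val (cS F.N' F.N F.σ) F.G' q c σ' := by
  obtain ⟨-, m2⟩ := (hYE A.B F.N' F.N).1 F.b F.σ F.map
  obtain ⟨f1, f2, -⟩ := hYE C.B F.N' F.N
  have happ : ∀ x : El A.B, app h.gr x.val = (h x).val := (hYD.1 A.B C.B h.toMor).2
  have hGN : ∀ x ∈ F.G', x ∈ F.N' := by
    intro x hx
    have hC : F.C' ∈ F.N' := (F.map.dom _ _ (by rw [F.kC]; exact F.ne)).1
    exact F.np.full.1 _ hC (F.gen.sub hx)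
  constructor
  · rintro ⟨c, σ', hl⟩
    obtain ⟨n1, n2⟩ := f1 c σ' hl.map
    refine ⟨c.val, cS F.N' F.N σ', ?_, ?_, n1, ?_, ?_⟩
    · rw [happ]; exact El.le_iff.1 hl.le
    · intro x hx hcx
      have h1 := hl.proj ⟨x, hx⟩ (El.le_iff.2 (by rw [← happ]; exact hcx))
      exact El.le_iff.1 h1
    · intro x hx z hz
      have h3 := hl.com x hx z
      unfold Blw
      rw [n2 x (hGN x hx) z hz]
      by_cases hzB : z ∈ C.B
      · refine ⟨?_, fun h => absurd hzB h⟩
        unfold mkEl at h3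
        rw [dif_pos hzB] at h3
        exact El.le_iff.1 h3
      · unfold mkEl at h3
        rw [dif_neg hzB] at h3
        rw [le_bot_iff.1 h3, El.bot_val]
        exact ⟨ZFSet.empty_subset _, fun _ => rfl⟩
    · intro z hz
      rw [m2 q hq z hz, n2 q hq z hz, happ, ← El.inf_val]
      exact El.le_iff.1 (hl.keep z)
  · rintro ⟨c, σ', hl⟩
    have hc : c ∈ C.B := hl.map.mem
    obtain ⟨n1, n2⟩ := f2 ⟨c, hc⟩ σ' hl.map
    refine ⟨⟨c, hc⟩, cL F.N' F.N C.B σ', ?_, ?_, n1, ?_, ?_⟩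
    · refine El.le_iff.2 ?_
      rw [← happ]
      exact hl.le
    · intro b' hb'
      refine El.le_iff.2 (hl.proj b'.val b'.mem ?_)
      rw [happ]
      exact El.le_iff.1 hb'
    · intro x hx z
      by_cases hz : z ∈ F.N
      · obtain ⟨h1, h2⟩ := hl.com x hx z hz
        have h3 := n2 x (hGN x hx) z hz
        by_cases hzB : z ∈ C.B
        · unfold mkEl
          rw [dif_pos hzB]
          exact El.le_iff.2 (h3 ▸ h1)
        · have h4 : cL F.N' F.N C.B σ' x z = ⊥ := El.ext (by rw [h3, h2 hzB, El.bot_val])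
          rw [h4]
          exact bot_le
      · unfold cL
        rw [if_neg (fun h => hz h.2)]
        exact bot_le
    · intro z
      by_cases hz : z ∈ F.N
      · have h1 := hl.keep z hz
        rw [m2 q hq z hz, happ] at h1
        refine El.le_iff.2 ?_
        rw [El.inf_val, n2 q hq z hz]
        exact h1
      · have h1 : F.σ q z = ⊥ := by
          by_contra hcon
          exact hz (F.map.dom q z hcon).2
        have h2 : h (F.σ q z) = ⊥ := by
          rw [h1]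
          exact (hMB A.B C.B h.toMor).2.1
        rw [h2, inf_bot_eq]
        exact bot_le

end

theorem yf (hYE : T_YE) (hYD : T_YD) (hMB : T_MB) (hTR : T_TR) : T_YF := by
  intro A C h p
  refine ⟨yf_1 hYE hTR A C h p, yf_2 hYE A C h p, yf_3 hYE hYD hMB A C h p, ?_⟩
  constructor
  · rintro ⟨p0, hp0⟩
    refine ⟨p0, trivial, ?_⟩
    intro N' _ N _ b _ σ _ w _ B' _ C' _ h' _ p' _ G' _ H q hq
    have hb : b ∈ A.B := H.map.mem
    obtain ⟨F, rfl, rfl, hFb, rfl, rfl, rfl, rfl, rfl, rfl, -, hσ⟩ :=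
      yf_2 hYE A C h p0 N' N σ w B' C' h' p' G' ⟨b, hb⟩ H
    obtain ⟨c, σ', hl⟩ := (yf_3 hYE hYD hMB A C h p0 F q hq).1 (hp0 F q hq)
    rw [hσ, hFb] at hl
    exact ⟨c, trivial, σ', trivial, hl⟩
  · rintro ⟨p0, -, hp0⟩
    refine ⟨p0, fun F q hq => ?_⟩
    obtain ⟨c, -, σ', -, hl⟩ := hp0 F.N' trivial F.N trivial F.b.val trivial (cS F.N' F.N F.σ)
      trivial F.w trivial F.B' trivial F.C' trivial F.h' trivial F.p' trivial F.G' trivial
      (yf_1 hYE hTR A C h p0 F) q hq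
    exact (yf_3 hYE hYD hMB A C h p0 F q hq).2 ⟨c, σ', hl⟩

end SF.H84
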