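import Pool.Agent.H84.SF.FinI
import Pool.Agent.H84.SF.AllLOX
import Pool.Agent.H84.SL.All
import Pool.Agent.H17.SFG.All
import Pool.Agent.H29.SF.FBZ
import Pool.Agent.H29.SF.X1Z
import Pool.Agent.H29.SF.XPZ
import Pool.Agent.H29.SF.GLZ
import Pool.Agent.H2.SF.GNZ
import Pool.Agent.H26.SF.MXZ
import Pool.Agent.H77.SF.PRZ
import Pool.Agent.H77.SF.FCZ
import Pool.Agent.H70.FOS.DPN
import Pool.Agent.H91.FOS.DPL
import Pool.Agent.H91.FOS.IMG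
import Pool.Agent.H30.SF.GCZ
import Pool.Agent.H64.SF.FLZ
import Pool.Agent.H86.SF.POZ
import Pool.Agent.H10.SF.DGZ
import Pool.Agent.H19.SFC.ORZ
import Pool.Agent.H36.SF.DGE

/-!
# MP_70ba79_ag, THEOREM S, chapter 14: assembly
-/

set_option autoImplicit false

namespace Pool.Agent.H84.SF

theorem poz : T_POZ := Pool.Agent.H86.SF.pf_POZ hie
theorem gnz : T_GNZ := Pool.Agent.H2.SF.pf_GNZ Pool.Agent.H17.SFG.A.phi hie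
theorem glz : T_GLZ := Pool.Agent.H29.SF.pf_GLZ gnz hie Pool.Agent.H84.SL.A.s_DRV
  Pool.Agent.H84.SL.A.s_HNZ
theorem flz : T_FLZ := Pool.Agent.H64.SF.pf_FLZ glz
theorem mxz (hMAX : T_MAX) : T_MXZ :=
  Pool.Agent.H26.SF.pf_MXZ hMAX poz Pool.Agent.H17.SFG.A.phi
theorem bsi (hMAX : T_MAX) : T_BSI := pf_BSI (pf_BSX (mxz hMAX))
theorem fbz (hMAX : T_MAX) (hP1Z : T_P1Z) : T_FBZ :=
  Pool.Agent.H29.SF.pf_FBZ (mxz hMAX) (Pool.Agent.H29.SF.pf_X1Z hP1Z flz)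
    Pool.Agent.H10.SF.pf_DGZ (Pool.Agent.H36.SF.pf_DGE poz) poz Pool.Agent.H77.SF.pf_PRZ Pool.Agent.H17.SFG.A.phi
    (Pool.Agent.H70.FOS.fos_DPN Pool.Agent.H91.FOS.fos_DPL Pool.Agent.H91.FOS.fos_IMG)
    Pool.Agent.H84.SL.A.s_LRH
theorem fini (hMAX : T_MAX) (hP1Z : T_P1Z) : T_FINI :=
  fini_of (pf_SFI (fbz hMAX hP1Z) Pool.Agent.H19.SFC.pf_ORZ)
    (Pool.Agent.H30.SF.pf_GCZh Pool.Agent.H84.SM.A.a_IMF)
    (Pool.Agent.H29.SF.pf_XPZ Pool.Agent.H77.SF.pf_FCZ)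

end Pool.Agent.H84.SF
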