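import Pool.Agent.H84.SF.FinC
import Pool.Agent.H17.SFG.DGP

/-!
# MP_70ba79_ag, THEOREM S, chapter 14: the bound for the degree of the curve depends only on the
degree of the surface
-/

set_option autoImplicit false

namespace Pool.Agent.H84.SF

open MvPolynomial SC
open Pool.Agent.H27.LV (ge deg poleOrder canDeg DegreeBound)
open Pool.Agent.H3.SF (Itg Bb BB Hm eu grd hes Sfc Crd Crf Prm)
open Pool.Agent.H17.SD (Prj Smo HRel PA)
open Pool.Agent.H17.SFG (DegI DegLe)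
open Pool.Agent.H4.SF (aev aev0)

/-- SFU: the strong form, uniform in the surface -/
def T_SFU : Prop := ∀ d : ℕ, ∃ m0 : ℕ, ∀ (k τ : Type) [Field k] [IsAlgClosed k] [CharZero k]
  [Fintype τ] (I : Ideal (MvPolynomial τ k)) [I.IsPrime], HId I →
  Algebra.trdeg k (FractionRing (MvPolynomial τ k ⧸ I)) = 3 → DegI I d →
  ∃ c : Fin 3 → τ → k, (∀ Φ : MvPolynomial (Fin 3) k, Φ ≠ 0 →
    aeval (lin c (X : τ → MvPolynomial τ k)) Φ ∉ I) ∧
  ∀ (m : ℕ) (G : MvPolynomial τ k), m0 ≤ m → GoodI I G m → 1 ≤ m ∧ SfM I G m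

/-- a bound for finitely many parameters -/
theorem bound_le (P : ℕ → ℕ → Prop) (h : ∀ δ, ∃ m0, P δ m0)
    (hmon : ∀ δ m m', m ≤ m' → P δ m → P δ m') (d : ℕ) : ∃ m0, ∀ δ, δ ≤ d → P δ m0 := by
  induction d with
  | zero =>
    obtain ⟨m0, h0⟩ := h 0
    refine ⟨m0, fun δ hδ => ?_⟩
    obtain rfl : δ = 0 := by omega
    exact h0
  | succ d ih =>
    obtain ⟨m1, h1⟩ := ih
    obtain ⟨m2, h2⟩ := h (d + 1)
    refine ⟨max m1 m2, fun δ hδ => ?_⟩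
    rcases Nat.lt_or_ge d δ with hlt | hge
    · obtain rfl : δ = d + 1 := by omega
      exact hmon _ _ _ (le_max_right _ _) h2
    · exact hmon _ _ _ (le_max_left _ _) (h1 δ hge)

theorem pf_SFU (hFBZ : T_FBZ) (hORZ : T_ORZ) : T_SFU := by
  intro d
  have hb := bound_le (fun δ m1 => ∀ (k F σ : Type) [Field k] [IsAlgClosed k]
    [CharZero k] [Field F] [Algebra k F] [Fintype σ] (X : σ → F) (u : Fin 3 → F) (θ : F)
    (dd : Fin 3 → Derivation k F F) (J : MvPolynomial (Fin 3) k) (c : Fin 3 → σ → k),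
    SrD X u θ dd J δ (3 * (δ * (δ - 1))) (3 * (δ * (δ - 1)) + δ + 2) c →
    ∀ (m : ℕ) (GP : MvPolynomial σ k), m1 ≤ m → CvD X u dd m GP →
    SfI (RingHom.ker (aeval X : MvPolynomial σ k →ₐ[k] F)) GP m)
    (fun δ => hFBZ δ (3 * (δ * (δ - 1))) (3 * (δ * (δ - 1)) + δ + 2))
    (fun δ m m' hm h k F σ _ _ _ _ _ _ X u θ dd J c h1 m2 GP h2 h3 =>
      h k F σ X u θ dd J c h1 m2 GP (le_trans hm h2) h3) d
  obtain ⟨m1, hm1⟩ := hb
  refine ⟨max (3 * (d * d) + 1) m1, ?_⟩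
  intro k τ _ _ _ _ I _ hI htr hdeg
  obtain ⟨Xf, hXf⟩ : ∃ Xf : τ → FractionRing (MvPolynomial τ k ⧸ I),
    Xf = fun s : τ => algebraMap (MvPolynomial τ k ⧸ I) (FractionRing (MvPolynomial τ k ⧸ I))
      (Ideal.Quotient.mk I (X s)) := ⟨_, rfl⟩
  have hcone : Pool.Agent.H17.SD.Cone k Xf := by
    rw [hXf]
    exact Pool.Agent.H17.SFG.A.frc k τ I hI htr
  have ha0 : ∀ f : MvPolynomial τ k, aeval Xf f = 0 ↔ f ∈ I := by
    rw [hXf]
    exact aev0 I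
  have hdl : DegLe k Xf d := by
    rw [hXf]
    exact Pool.Agent.H17.SFG.degI I d hdeg
  obtain ⟨δ, hδ, u, θ, dd, J, hsfc, hprj, -⟩ := Pool.Agent.H17.SFG.degle Xf hcone d hdl
  have hc : ∀ l, ∃ c : τ → k, ∑ s, c s • Xf s = u l := fun l =>
    (Submodule.mem_span_range_iff_exists_fun k).1 (hprj.ulin l)
  choose c hc using hc
  have hker : RingHom.ker (aeval Xf : MvPolynomial τ k →ₐ[k]
      FractionRing (MvPolynomial τ k ⧸ I)) = I := by
    ext f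
    rw [RingHom.mem_ker]
    exact ha0 f
  have hlin : u = lin c Xf := funext fun l => (hc l).symm
  refine ⟨c, ?_, ?_⟩
  · intro Φ hΦ h
    rw [← ha0, aeval_lin, ← hlin] at h
    exact hΦ (hsfc.ind (by rw [h, map_zero]))
  · intro m G hm hG
    have hj : 3 * (δ * (δ - 1)) ≤ 3 * (d * d) :=
      Nat.mul_le_mul_left 3 (Nat.mul_le_mul hδ (le_trans (Nat.sub_le _ _) hδ))
    have hm2 : 3 * (d * d) + 1 ≤ m := le_trans (le_max_left _ _) hm
    have hm3 : m1 ≤ m := le_trans (le_max_right _ _) hm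
    have hsmo : Smo Xf G := by
      intro s hs h1 h2 y h3
      refine hG.smo s hs (fun f hf => h1 f ((ha0 f).2 hf)) h2 y fun i f hf => ?_
      rcases hf with hf | hf
      · exact h3 i f (Or.inl ((ha0 f).2 hf))
      · exact h3 i f (Or.inr hf)
    have hne : aeval Xf G ≠ 0 := fun h => hG.ne ((ha0 G).1 h)
    have hirr : Pool.Agent.H17.SFG.Irr Xf G := by
      unfold Pool.Agent.H17.SFG.Irr
      rw [hker]
      exact hG.irr
    have hcv : CvD Xf u dd m G := ⟨hG.hom, Pool.Agent.H17.SFG.pf_CRI k _ τ Xf u θ dd δ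
      (3 * (δ * (δ - 1))) (3 * (δ * (δ - 1)) + δ + 2) J hcone hsfc hprj m G (by omega)
      hG.hom hne hsmo hirr, hsmo⟩
    have h1 := hm1 δ hδ k _ τ Xf u θ dd J c ⟨hsfc, hprj, fun l => (hc l).symm⟩ m G hm3 hcv
    rw [hker] at h1
    exact ⟨by omega, hORZ k τ I G m (by omega) hG.hom h1⟩

/-- FIN: the final statement, uniform in the surface, the curve is irreducible automatically -/
def T_FINU : Prop := ∀ d : ℕ, ∃ m0 : ℕ, ∀ (k : Type) [Field k] [IsAlgClosed k] [CharZero k],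
    (∀ (τ : Type) [Fintype τ] (I : Ideal (MvPolynomial τ k)) [I.IsPrime],
      (∀ f ∈ I, ∀ d, homogeneousComponent d f ∈ I) →
      Algebra.trdeg k (FractionRing (MvPolynomial τ k ⧸ I)) = 3 → DegI I d →
      ∀ (m : ℕ) (G : MvPolynomial τ k), m0 ≤ m → GoodC I G m →
      ∃ (B M N : ℕ) (Ψ : MvPolynomial τ k), Ψ ∉ I ∧ Ψ.IsHomogeneous N ∧
      ∀ (K : Type) [Field K] [Algebra k K] [Algebra.EssFiniteType k K], Algebra.trdeg k K = 1 →
      ∀ (D : Derivation k K K), D ≠ 0 → ∀ (z : τ → K) (S : Finset (DV k K)),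
      (∀ f ∈ I, aeval z f = 0) → aeval z G ≠ 0 →
      (∀ v, v ∉ S → ∃ j, z j ≠ 0 ∧ (∀ i, z i ≠ 0 → v.ord (z j) ≤ v.ord (z i)) ∧
        (v.ord (aeval z G) = m * v.ord (z j) ∨ m * v.ord (z j) + M ≤ v.ord (aeval z G))) →
      (∃ (e : ℕ) (Φ : MvPolynomial τ k), (e : ℤ) ≤ B * max 1 (canDeg D + S.card) ∧ Φ ∉ I ∧
        Φ.IsHomogeneous e ∧ aeval z Φ = 0) ∧
      (aeval z Ψ ≠ 0 → (∃ i j, z j ≠ 0 ∧ z i / z j ∉ Set.range (algebraMap k K)) →
        1 ≤ canDeg D + S.card ∧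
        ∀ j, z j ≠ 0 → deg k (fun i => z i / z j) ≤ B * (canDeg D + S.card))) ∧
    ∀ (ι : Type) [Fintype ι] [DecidableEq ι] [Nonempty ι] (τ : ι → Type) [∀ i, Fintype (τ i)]
    (I : ∀ i, Ideal (MvPolynomial (τ i) k)) [∀ i, (I i).IsPrime],
    (∀ i, ∀ f ∈ I i, ∀ d, homogeneousComponent d f ∈ I i) →
    (∀ i, Algebra.trdeg k (FractionRing (MvPolynomial (τ i) k ⧸ I i)) = 3) →
    (∀ i, DegI (I i) d) →
    ∀ (m : ι → ℕ) (G : ∀ i, MvPolynomial (τ i) k), (∀ i, m0 ≤ m i) →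
    (∀ i, GoodC (I i) (G i) (m i)) →
    ∃ (Ψ : ∀ i, MvPolynomial (τ i) k) (M : ι → ℕ),
    (∀ i, Ψ i ∉ I i ∧ ∃ N, (Ψ i).IsHomogeneous N) ∧
    ∀ (σ : Type) [Fintype σ] (P : Ideal (MvPolynomial σ k)) (φ : ∀ i, τ i → MvPolynomial σ k),
    P.IsPrime → (∀ i, ∀ f ∈ I i, aeval (φ i) f ∈ P) → (∀ i, (∃ j, φ i j ∉ P) ∧
      aeval (φ i) (Ψ i) ∉ P) → GenFinS P φ → (∀ i, aeval (φ i) (G i) ∉ P) →
    (∀ i, ∃ (r : ℕ) (J : Fin r → Ideal (MvPolynomial σ k)) (ε : Fin r → ℕ), (∀ a, M i ≤ ε a) ∧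
      Ideal.span {aeval (φ i) (G i)} ⊔ P =
        (Ideal.span (Set.range (φ i)) ^ m i * ∏ a, J a ^ ε a) ⊔ P) →
    ∃ (h : MvPolynomial σ k) (B : ℕ), h ∉ P ∧
      DegreeBound k (P : Set (MvPolynomial σ k)) h (fun χ => B * χ)

theorem finu_of (hSFU : T_SFU) (hCNX : Pool.Agent.H17.CX.T_CNX)
    (hGCZ : Pool.Agent.H30.SF.T_GCZh) (hXPZ : T_XPZ) : T_FINU := by
  intro d
  obtain ⟨m0, h⟩ := hSFU d
  refine ⟨max 1 m0, ?_⟩
  intro k _ _ _
  refine ⟨fun τ _ I _ hI htr hd m G hm hG => ?_,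
    fun ι _ _ _ τ _ I _ hI htr hd m G hm hG => ?_⟩
  · have hm1 : 1 ≤ m := le_trans (le_max_left _ _) hm
    have hm2 : m0 ≤ m := le_trans (le_max_right _ _) hm
    obtain ⟨c, hc, h0⟩ := h k τ I hI htr hd
    obtain ⟨h1, h2⟩ := h0 m G hm2 (goodI_of hCNX k τ I hI htr m G hm1 hG)
    exact hGCZ k τ I G m c hc hI h1 hG.hom h2
  · have h0 := fun i => h k (τ i) (I i) (hI i) (htr i) (hd i)
    choose c hc h0 using h0
    have h3 := fun i => h0 i (m i) (G i) (le_trans (le_max_right _ _) (hm i))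
      (goodI_of hCNX k (τ i) (I i) (hI i) (htr i) (m i) (G i)
        (le_trans (le_max_left _ _) (hm i)) (hG i))
    exact hXPZ k ι τ I G m hI (fun i => (h3 i).1) (fun i => (hG i).hom) (fun i => (h3 i).2)

end Pool.Agent.H84.SF
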