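import Pool.Agent.H84.SF.Geo2
import Pool.Agent.H17.SD.Targets
import Pool.Agent.H15.FOS.Targets
import Pool.Agent.H84.ND.Targets4

/-!
# MP_70ba79_ag, THEOREM S (surfaces), chapter 14: degree of the map, orbifold curves, affine
varieties over products of surfaces

`I` is the homogeneous ideal of the surface, `X s` are the coordinates of its generic point, `G` is
the form which defines the curve. `c` is the matrix of the linear projection to the plane.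
-/

set_option autoImplicit false

namespace Pool.Agent.H84.SF

open MvPolynomial SC
open Pool.Agent.H27.LV (ge deg poleOrder canDeg DegreeBound)
open Pool.Agent.H84.SM (cr dt dp)
open Pool.Agent.H84.SL (pd)
open Pool.Agent.H3.SF (Itg Bb BB Hm eu grd hes Sfc Crd Crf Prm)
open Pool.Agent.H17.SD (Prj Smo HRel)

/-- MAX: the theorem for the plane image of a curve (chapter 13) -/
def T_MAX : Prop := ∀ δ j0 c0 : ℕ, ∃ m0 : ℕ,
  ∀ (k F σ : Type) [Field k] [IsAlgClosed k] [CharZero k] [Field F] [Algebra k F] [Fintype σ]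
  [DecidableEq σ] (X : σ → F) (u : Fin 3 → F) (dd : Fin 3 → Derivation k F F)
  (J : MvPolynomial (Fin 3) k), Sfc u dd δ j0 c0 J → Cor X u dd J → ∀ (m : ℕ) (G : F), m0 ≤ m →
  Crd u dd m G → SmG (k := k) X m G → ∃ B : ℕ,
  ∀ (K : Type) [Field K] [Algebra k K] [Algebra.EssFiniteType k K], Algebra.trdeg k K = 1 →
  ∀ (D : Derivation k K K), D ≠ 0 → ∀ (φ : Bb k u →ₐ[k] K)
  (x : Fin 3 → K) (g : K) (S : Finset (DV k K)), Crf u J m G φ x g S →
  ∃ (e : ℕ) (Φ : MvPolynomial (Fin 3) k), (e : ℤ) ≤ B * max 1 (canDeg D + S.card) ∧ Φ ≠ 0 ∧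
    Φ.IsHomogeneous e ∧ aeval x Φ = 0

section Defs

variable {k : Type} [Field k]

/-- linear combinations -/
def lin {A τ : Type} [AddCommMonoid A] [SMul k A] [Fintype τ] (c : Fin 3 → τ → k) (z : τ → A) :
    Fin 3 → A := fun l => ∑ s, c l s • z s

/-- `z` is a curve on the surface with the ideal `I` which does not meet `G = 0` outside `S` -/
structure CrI {τ K : Type} [Fintype τ] [Field K] [Algebra k K] (I : Ideal (MvPolynomial τ k))
    (G : MvPolynomial τ k) (m : ℕ) (z : τ → K) (S : Finset (DV k K)) : Prop where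
  on : ∀ f ∈ I, aeval z f = 0
  one : ∃ j, z j = 1
  ne : aeval z G ≠ 0
  off : ∀ v, v ∉ S → v.ord (aeval z G) = -(m * poleOrder v z)

/-- outside `S` contact of order at least `M` is allowed -/
structure CrM {τ K : Type} [Fintype τ] [Field K] [Algebra k K] (I : Ideal (MvPolynomial τ k))
    (G : MvPolynomial τ k) (m M : ℕ) (z : τ → K) (S : Finset (DV k K)) : Prop where
  on : ∀ f ∈ I, aeval z f = 0
  one : ∃ j, z j = 1
  ne : aeval z G ≠ 0
  off : ∀ v, v ∉ S → v.ord (aeval z G) = -(m * poleOrder v z) ∨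
    (M : ℤ) - m * poleOrder v z ≤ v.ord (aeval z G)

/-- outside `Ψ = 0` the degree of the map is at most `B χ` -/
def SfI {τ : Type} [Fintype τ] (I : Ideal (MvPolynomial τ k)) (G : MvPolynomial τ k) (m : ℕ) :
    Prop := ∃ (B N : ℕ) (Ψ : MvPolynomial τ k), Ψ ∉ I ∧ Ψ.IsHomogeneous N ∧
  ∀ (K : Type) [Field K] [Algebra k K] [Algebra.EssFiniteType k K], Algebra.trdeg k K = 1 →
  ∀ (D : Derivation k K K), D ≠ 0 → ∀ (z : τ → K) (S : Finset (DV k K)), CrI I G m z S →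
  aeval z Ψ ≠ 0 → (∃ i, z i ∉ Set.range (algebraMap k K)) →
  1 ≤ canDeg D + S.card ∧ deg k z ≤ B * (canDeg D + S.card)

/-- the same for orbifold curves -/
def SfM {τ : Type} [Fintype τ] (I : Ideal (MvPolynomial τ k)) (G : MvPolynomial τ k) (m : ℕ) :
    Prop := ∃ (B M N : ℕ) (Ψ : MvPolynomial τ k), Ψ ∉ I ∧ Ψ.IsHomogeneous N ∧
  ∀ (K : Type) [Field K] [Algebra k K] [Algebra.EssFiniteType k K], Algebra.trdeg k K = 1 →
  ∀ (D : Derivation k K K), D ≠ 0 → ∀ (z : τ → K) (S : Finset (DV k K)), CrM I G m M z S →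
  aeval z Ψ ≠ 0 → (∃ i, z i ∉ Set.range (algebraMap k K)) →
  1 ≤ canDeg D + S.card ∧ deg k z ≤ B * (canDeg D + S.card)

/-- homogeneous ideal -/
def HId {τ : Type} (I : Ideal (MvPolynomial τ k)) : Prop :=
  ∀ f ∈ I, ∀ d, homogeneousComponent d f ∈ I

/-- the surface with its projection -/
structure SrD {F σ : Type} [Field F] [Algebra k F] [Fintype σ] (X : σ → F) (u : Fin 3 → F) (θ : F)
    (dd : Fin 3 → Derivation k F F) (J : MvPolynomial (Fin 3) k) (δ j0 c0 : ℕ)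
    (c : Fin 3 → σ → k) : Prop where
  sfc : Sfc u dd δ j0 c0 J
  prj : Prj X u θ dd J
  lin : ∀ l, u l = ∑ s, c l s • X s

/-- the curve on it -/
structure CvD {F σ : Type} [Field F] [Algebra k F] [Fintype σ] (X : σ → F) (u : Fin 3 → F)
    (dd : Fin 3 → Derivation k F F) (m : ℕ) (GP : MvPolynomial σ k) : Prop where
  hom : GP.IsHomogeneous m
  crd : Crd u dd m (aeval X GP)
  smo : Smo X GP

/-- The coordinates of the affine variety with the ideal `P` are algebraic over the field generated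
by the quotients `φ_i,j / φ_i,j'`. -/
def GenFinS {σ ι : Type} [DecidableEq ι] {τ : ι → Type} (P : Ideal (MvPolynomial σ k))
    (φ : ∀ i, τ i → MvPolynomial σ k) : Prop :=
  ∀ s : σ, ∃ (m : ι → ℕ) (e : ℕ) (c : ℕ → MvPolynomial (Σ i, τ i) k), 1 ≤ e ∧
    (∀ l i, IsWeightedHomogeneous (fun p : Σ i, τ i => if p.1 = i then 1 else 0) (c l) (m i)) ∧
    aeval (fun p : Σ i, τ i => φ p.1 p.2) (c e) ∉ P ∧
    ∑ l ∈ Finset.range (e + 1), aeval (fun p : Σ i, τ i => φ p.1 p.2) (c l) * X s ^ l ∈ P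

end Defs

/-! ### Projection to the plane -/

/-- POZ: pole orders of the plane image -/
def T_POZ : Prop := ∀ (k F σ K : Type) [Field k] [CharZero k] [Field F] [Algebra k F] [Fintype σ]
  [Field K] [Algebra k K] (X : σ → F) (u : Fin 3 → F) (dd : Fin 3 → Derivation k F F)
  (c : Fin 3 → σ → k), (∀ l j, dd l (u j) = if l = j then 1 else 0) → (∀ s, Itg k u (X s)) →
  (∀ s, eu u dd (X s) = X s) → (∀ l, u l = ∑ s, c l s • X s) → ∀ z : σ → K,
  (∀ f : MvPolynomial σ k, aeval X f = 0 → aeval z f = 0) → (∃ j, z j = 1) →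
  ∃ l0, lin c z l0 ≠ 0 ∧ ∀ v : DV k K,
    (poleOrder v (fun l => lin c z l / lin c z l0) : ℤ) = poleOrder v z + v.ord (lin c z l0)

/-- DGE: the degree of the plane image -/
def T_DGE : Prop := ∀ (k F σ K : Type) [Field k] [IsAlgClosed k] [CharZero k] [Field F]
  [Algebra k F] [Fintype σ] [Field K] [Algebra k K] [Algebra.EssFiniteType k K],
  Algebra.trdeg k K = 1 → ∀ (X : σ → F) (u : Fin 3 → F) (dd : Fin 3 → Derivation k F F)
  (c : Fin 3 → σ → k), (∀ l j, dd l (u j) = if l = j then 1 else 0) → (∀ s, Itg k u (X s)) →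
  (∀ s, eu u dd (X s) = X s) → (∀ l, u l = ∑ s, c l s • X s) → ∀ z : σ → K,
  (∀ f : MvPolynomial σ k, aeval X f = 0 → aeval z f = 0) → (∃ j, z j = 1) →
  ∀ l0, lin c z l0 ≠ 0 → deg k (fun l => lin c z l / lin c z l0) = deg k z

/-- MXZ: the theorem for the plane image, in terms of the coordinates of the curve -/
def T_MXZ : Prop := ∀ δ j0 c0 : ℕ, ∃ m0 : ℕ, ∀ (k F σ : Type) [Field k] [IsAlgClosed k]
  [CharZero k] [Field F] [Algebra k F] [Fintype σ] (X : σ → F) (u : Fin 3 → F) (θ : F)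
  (dd : Fin 3 → Derivation k F F) (J : MvPolynomial (Fin 3) k) (c : Fin 3 → σ → k),
  SrD X u θ dd J δ j0 c0 c → ∀ (m : ℕ) (GP : MvPolynomial σ k), m0 ≤ m → CvD X u dd m GP →
  ∃ B : ℕ, ∀ (K : Type) [Field K] [Algebra k K] [Algebra.EssFiniteType k K],
  Algebra.trdeg k K = 1 → ∀ (D : Derivation k K K), D ≠ 0 → ∀ (z : σ → K)
  (S : Finset (DV k K)), CrI (RingHom.ker (aeval X : MvPolynomial σ k →ₐ[k] F)) GP m z S →
  aeval (lin c z) J ≠ 0 → ∃ (e : ℕ) (Φ : MvPolynomial (Fin 3) k),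
    (e : ℤ) ≤ B * max 1 (canDeg D + S.card) ∧ Φ ≠ 0 ∧ Φ.IsHomogeneous e ∧ aeval (lin c z) Φ = 0

/-- DGZ: the degree of a map to the plane of bounded degree over its image -/
def T_DGZ : Prop := ∀ (k K : Type) [Field k] [IsAlgClosed k] [CharZero k] [Field K] [Algebra k K]
  [Algebra.EssFiniteType k K], Algebra.trdeg k K = 1 → ∀ (x : Fin 3 → K) (n : ℕ),
  (∃ j, x j = 1) → Pool.Agent.H15.FOS.Dep (IntermediateField.adjoin k (Set.range x)) n →
  ∀ (e : ℕ) (Φ : MvPolynomial (Fin 3) k), Φ ≠ 0 → Φ.IsHomogeneous e → aeval x Φ = 0 →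
  deg k x ≤ n * e

/-- PRZ: restriction to the field generated by the coordinates -/
def T_PRZ : Prop := ∀ (k τ : Type) [Field k] [IsAlgClosed k] [CharZero k] [Fintype τ]
  (I : Ideal (MvPolynomial τ k)) (G : MvPolynomial τ k) (m : ℕ), G.IsHomogeneous m →
  ∀ (K : Type) [Field K] [Algebra k K] [Algebra.EssFiniteType k K], Algebra.trdeg k K = 1 →
  ∀ (D : Derivation k K K), D ≠ 0 → ∀ (z : τ → K) (S : Finset (DV k K)), CrI I G m z S →
  (∀ i, z i ∈ Set.range (algebraMap k K)) ∨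
  ∃ (K0 : Type) (_ : Field K0) (_ : Algebra k K0) (_ : Algebra.EssFiniteType k K0)
    (ι : K0 →ₐ[k] K) (z0 : τ → K0) (D0 : Derivation k K0 K0) (μ : K) (S0 : Finset (DV k K0)),
    Algebra.trdeg k K0 = 1 ∧ D0 ≠ 0 ∧ (∀ i, ι (z0 i) = z i) ∧
    IntermediateField.adjoin k (Set.range z0) = ⊤ ∧ μ ≠ 0 ∧
    (∀ y, D (ι y) = μ * ι (D0 y)) ∧ CrI I G m z0 S0 ∧ S0.card ≤ S.card

/-! ### Curves which are not of log general type -/

/-- P1Z: parametrisation by polynomials -/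
def T_P1Z : Prop := ∀ (k τ : Type) [Field k] [IsAlgClosed k] [CharZero k] [Fintype τ]
  (I : Ideal (MvPolynomial τ k)), HId I → ∀ (G : MvPolynomial τ k) (m : ℕ), 1 ≤ m →
  G.IsHomogeneous m → ∀ (K : Type) [Field K] [Algebra k K] [Algebra.EssFiniteType k K],
  Algebra.trdeg k K = 1 → ∀ (D : Derivation k K K), D ≠ 0 → ∀ (z : τ → K)
  (S : Finset (DV k K)), IntermediateField.adjoin k (Set.range z) = ⊤ → CrI I G m z S →
  canDeg D + S.card ≤ 0 → ∃ (p : τ → Polynomial k) (t y : K) (c : k) (a : ℕ),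
  y ≠ 0 ∧ c ≠ 0 ∧ (∀ i, z i = y * Polynomial.aeval t (p i)) ∧ 1 ≤ deg k z ∧
  (∀ i, (p i).natDegree ≤ deg k z) ∧ (∃ i, (p i).coeff (deg k z) ≠ 0) ∧
  (∃ i, (p i).coeff 0 ≠ 0) ∧ aeval p G = Polynomial.C c * Polynomial.X ^ a ∧
  ∀ f ∈ I, aeval p f = 0

/-- GNZ: divisibility of the determinant of a family of curves at a point of the curve -/
def T_GNZ : Prop := ∀ (k F σ : Type) [Field k] [IsAlgClosed k] [CharZero k] [Field F]
  [Algebra k F] [Fintype σ] (X : σ → F) (u : Fin 3 → F) (θ : F)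
  (dd : Fin 3 → Derivation k F F) (J : MvPolynomial (Fin 3) k) (δ j0 c0 : ℕ)
  (c : Fin 3 → σ → k), SrD X u θ dd J δ j0 c0 c → ∀ (m : ℕ) (GP : MvPolynomial σ k), 1 ≤ m →
  CvD X u dd m GP → ∀ (L M : Type) [Field L] [Algebra k L] [Field M] [Algebra L M]
  [Algebra k M] [IsScalarTower k L M] (Δ : Derivation k M M) (P : σ → Polynomial L) (c1 : L)
  (a : ℕ), c1 ≠ 0 → (∃ i, (P i).coeff 0 ≠ 0) →
  (∀ f : MvPolynomial σ k, aeval X f = 0 → aeval P f = 0) →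
  aeval P GP = Polynomial.C c1 * Polynomial.X ^ a →
  Polynomial.X ^ a ∣ (aeval (lin c P) J).map (algebraMap L M) *
    dt (fun i => (lin c P i).map (algebraMap L M))
      (fun i => pd (fun b => Δ (algebraMap L M b)) (lin c P i))
      (fun i => Polynomial.X * (Polynomial.derivative (lin c P i)).map (algebraMap L M))

/-- GLZ: a family of curves does not move -/
def T_GLZ : Prop := ∀ (k F σ : Type) [Field k] [IsAlgClosed k] [CharZero k] [Field F]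
  [Algebra k F] [Fintype σ] (X : σ → F) (u : Fin 3 → F) (θ : F)
  (dd : Fin 3 → Derivation k F F) (J : MvPolynomial (Fin 3) k) (δ j0 c0 : ℕ)
  (c : Fin 3 → σ → k), SrD X u θ dd J δ j0 c0 c → ∀ (m : ℕ) (GP : MvPolynomial σ k),
  j0 + 4 ≤ m → CvD X u dd m GP → ∀ (L : Type) [Field L] [Algebra k L] (P : σ → Polynomial L)
  (c1 : L) (a e : ℕ), c1 ≠ 0 → 1 ≤ e → (∀ i, (P i).natDegree ≤ e) → (∃ i, (P i).coeff e ≠ 0) →
  (∃ i, (P i).coeff 0 ≠ 0) → (∀ f : MvPolynomial σ k, aeval X f = 0 → aeval P f = 0) →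
  aeval P GP = Polynomial.C c1 * Polynomial.X ^ a →
  ∃ (N : ℕ) (Ψ : MvPolynomial (Fin 3) k), Ψ ≠ 0 ∧ Ψ.IsHomogeneous N ∧ aeval (lin c P) Ψ = 0

/-- FLZ: finitely many families -/
def T_FLZ : Prop := ∀ (k F σ : Type) [Field k] [IsAlgClosed k] [CharZero k] [Field F]
  [Algebra k F] [Fintype σ] (X : σ → F) (u : Fin 3 → F) (θ : F)
  (dd : Fin 3 → Derivation k F F) (J : MvPolynomial (Fin 3) k) (δ j0 c0 : ℕ)
  (c : Fin 3 → σ → k), SrD X u θ dd J δ j0 c0 c → ∀ (m : ℕ) (GP : MvPolynomial σ k),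
  j0 + 4 ≤ m → CvD X u dd m GP → ∀ e a : ℕ, 1 ≤ e →
  ∃ (N : ℕ) (Ψ : MvPolynomial (Fin 3) k), Ψ ≠ 0 ∧ Ψ.IsHomogeneous N ∧
  ∀ (p : σ → Polynomial k) (c1 : k), c1 ≠ 0 → (∀ i, (p i).natDegree ≤ e) →
  (∃ i, (p i).coeff e ≠ 0) → (∃ i, (p i).coeff 0 ≠ 0) →
  (∀ f : MvPolynomial σ k, aeval X f = 0 → aeval p f = 0) →
  aeval p GP = Polynomial.C c1 * Polynomial.X ^ a → aeval (lin c p) Ψ = 0

/-- X1Z: the curves of bounded degree which are not of log general type -/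
def T_X1Z : Prop := ∀ (k F σ : Type) [Field k] [IsAlgClosed k] [CharZero k] [Field F]
  [Algebra k F] [Fintype σ] (X : σ → F) (u : Fin 3 → F) (θ : F)
  (dd : Fin 3 → Derivation k F F) (J : MvPolynomial (Fin 3) k) (δ j0 c0 : ℕ)
  (c : Fin 3 → σ → k), SrD X u θ dd J δ j0 c0 c → ∀ (m : ℕ) (GP : MvPolynomial σ k),
  j0 + 4 ≤ m → CvD X u dd m GP → ∀ e0 : ℕ,
  ∃ (N : ℕ) (Ψ : MvPolynomial (Fin 3) k), Ψ ≠ 0 ∧ Ψ.IsHomogeneous N ∧
  ∀ (K : Type) [Field K] [Algebra k K] [Algebra.EssFiniteType k K], Algebra.trdeg k K = 1 →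
  ∀ (D : Derivation k K K), D ≠ 0 → ∀ (z : σ → K) (S : Finset (DV k K)),
  IntermediateField.adjoin k (Set.range z) = ⊤ →
  CrI (RingHom.ker (aeval X : MvPolynomial σ k →ₐ[k] F)) GP m z S → deg k z ≤ e0 →
  canDeg D + S.card ≤ 0 → aeval (lin c z) Ψ = 0

/-! ### Degree of the map -/

/-- FBZ: degree of the map -/
def T_FBZ : Prop := ∀ δ j0 c0 : ℕ, ∃ m0 : ℕ, ∀ (k F σ : Type) [Field k] [IsAlgClosed k]
  [CharZero k] [Field F] [Algebra k F] [Fintype σ] (X : σ → F) (u : Fin 3 → F) (θ : F)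
  (dd : Fin 3 → Derivation k F F) (J : MvPolynomial (Fin 3) k) (c : Fin 3 → σ → k),
  SrD X u θ dd J δ j0 c0 c → ∀ (m : ℕ) (GP : MvPolynomial σ k), m0 ≤ m → CvD X u dd m GP →
  SfI (RingHom.ker (aeval X : MvPolynomial σ k →ₐ[k] F)) GP m

/-- ORZ: from curves in the complement to orbifold curves -/
def T_ORZ : Prop := ∀ (k τ : Type) [Field k] [IsAlgClosed k] [CharZero k] [Fintype τ]
  (I : Ideal (MvPolynomial τ k)) (G : MvPolynomial τ k) (m : ℕ), 1 ≤ m → G.IsHomogeneous m →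
  SfI I G m → SfM I G m

/-- GCZ: arbitrary homogeneous coordinates, degree of the image -/
def T_GCZ : Prop := ∀ (k τ : Type) [Field k] [IsAlgClosed k] [CharZero k] [Fintype τ]
  (I : Ideal (MvPolynomial τ k)) (G : MvPolynomial τ k) (m : ℕ) (c : Fin 3 → τ → k),
  (∀ Φ : MvPolynomial (Fin 3) k, Φ ≠ 0 →
    aeval (lin c (X : τ → MvPolynomial τ k)) Φ ∉ I) → 1 ≤ m → G.IsHomogeneous m → SfM I G m →
  ∃ (B M N : ℕ) (Ψ : MvPolynomial τ k), Ψ ∉ I ∧ Ψ.IsHomogeneous N ∧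
  ∀ (K : Type) [Field K] [Algebra k K] [Algebra.EssFiniteType k K], Algebra.trdeg k K = 1 →
  ∀ (D : Derivation k K K), D ≠ 0 → ∀ (z : τ → K) (S : Finset (DV k K)),
  (∀ f ∈ I, aeval z f = 0) → aeval z G ≠ 0 →
  (∀ v, v ∉ S → ∃ j, z j ≠ 0 ∧ (∀ i, z i ≠ 0 → v.ord (z j) ≤ v.ord (z i)) ∧
    (v.ord (aeval z G) = m * v.ord (z j) ∨ m * v.ord (z j) + M ≤ v.ord (aeval z G))) →
  (∃ (e : ℕ) (Φ : MvPolynomial τ k), (e : ℤ) ≤ B * max 1 (canDeg D + S.card) ∧ Φ ∉ I ∧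
    Φ.IsHomogeneous e ∧ aeval z Φ = 0) ∧
  (aeval z Ψ ≠ 0 → (∃ i j, z j ≠ 0 ∧ z i / z j ∉ Set.range (algebraMap k K)) →
    1 ≤ canDeg D + S.card ∧
    ∀ j, z j ≠ 0 → deg k (fun i => z i / z j) ≤ B * (canDeg D + S.card))

/-- FCZ: the curves in an affine variety with a morphism to the surface such that the inverse image
of `G = 0` has multiplicities at least `M` -/
def T_FCZ : Prop := ∀ (k K τ : Type) [Field k] [IsAlgClosed k] [CharZero k] [Field K]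
  [Algebra k K] [Fintype τ] (I : Ideal (MvPolynomial τ k)) (G : MvPolynomial τ k) (m M : ℕ),
  HId I → G.IsHomogeneous m → ∀ (σ : Type) (P : Ideal (MvPolynomial σ k))
  (φ : τ → MvPolynomial σ k) (r : ℕ) (J : Fin r → Ideal (MvPolynomial σ k)) (ε : Fin r → ℕ),
  (∀ a, M ≤ ε a) → (∀ f ∈ I, aeval φ f ∈ P) →
  Ideal.span {aeval φ G} ⊔ P = (Ideal.span (Set.range φ) ^ m * ∏ a, J a ^ ε a) ⊔ P →
  ∀ (S : Finset (DV k K)) (z : σ → K), (∀ p ∈ P, aeval z p = 0) →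
  (∀ v, v ∉ S → ∀ j, 0 ≤ v.ord (z j)) → ∀ Z : τ → K, (∀ j, Z j = aeval z (φ j)) →
  aeval Z G ≠ 0 → ∀ j0 : τ, Z j0 ≠ 0 → CrM I G m M (fun j => (Z j0)⁻¹ * Z j) S

/-- XPZ: affine varieties over products of surfaces -/
def T_XPZ : Prop := ∀ (k : Type) [Field k] [IsAlgClosed k] [CharZero k] (ι : Type) [Fintype ι]
  [DecidableEq ι] [Nonempty ι] (τ : ι → Type) [∀ i, Fintype (τ i)]
  (I : ∀ i, Ideal (MvPolynomial (τ i) k)) (G : ∀ i, MvPolynomial (τ i) k) (m : ι → ℕ),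
  (∀ i, HId (I i)) → (∀ i, 1 ≤ m i) → (∀ i, (G i).IsHomogeneous (m i)) →
  (∀ i, SfM (I i) (G i) (m i)) →
  ∃ (Ψ : ∀ i, MvPolynomial (τ i) k) (M : ι → ℕ),
  (∀ i, Ψ i ∉ I i ∧ ∃ N, (Ψ i).IsHomogeneous N) ∧
  ∀ (σ : Type) [Fintype σ] (P : Ideal (MvPolynomial σ k)) (φ : ∀ i, τ i → MvPolynomial σ k),
  P.IsPrime → (∀ i, ∀ f ∈ I i, aeval (φ i) f ∈ P) → (∀ i, (∃ j, φ i j ∉ P) ∧
    aeval (φ i) (Ψ i) ∉ P) → GenFinS P φ → (∀ i, aeval (φ i) (G i) ∉ P) →
  (∀ i, ∃ (r : ℕ) (J : Fin r → Ideal (MvPolynomial σ k)) (ε : Fin r → ℕ), (∀ a, M i ≤ ε a) ∧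
    Ideal.span {aeval (φ i) (G i)} ⊔ P =
      (Ideal.span (Set.range (φ i)) ^ m i * ∏ a, J a ^ ε a) ⊔ P) →
  ∃ (h : MvPolynomial σ k) (B : ℕ), h ∉ P ∧
    DegreeBound k (P : Set (MvPolynomial σ k)) h (fun χ => B * χ)

/-! ### Final statements -/

/-- the curve `G = 0` on the surface with the ideal `I`: `G` is a form of degree `m`; at all points
of the curve the space of the vectors orthogonal to the gradients has dimension at most two (the
surface and the curve are smooth there); `G` is a prime element of the integral closure of the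
coordinate ring (the curve is irreducible) -/
structure Good {k τ : Type} [Field k] [Fintype τ] (I : Ideal (MvPolynomial τ k)) [I.IsPrime]
    (G : MvPolynomial τ k) (m : ℕ) : Prop where
  hom : G.IsHomogeneous m
  ne : G ∉ I
  smo : ∀ s : τ → k, s ≠ 0 → (∀ f ∈ I, eval s f = 0) → eval s G = 0 →
    ∀ y : Fin 3 → τ → k, (∀ i, ∀ f, f ∈ I ∨ f = G → ∑ j, eval s (pderiv j f) * y i j = 0) →
      ¬ LinearIndependent k y
  prm : ∀ a b g : FractionRing (MvPolynomial τ k ⧸ I),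
    g = algebraMap _ _ (Ideal.Quotient.mk I G) → IsIntegral (MvPolynomial τ k ⧸ I) a →
    IsIntegral (MvPolynomial τ k ⧸ I) b → IsIntegral (MvPolynomial τ k ⧸ I) (a * b / g) →
    IsIntegral (MvPolynomial τ k ⧸ I) (a / g) ∨ IsIntegral (MvPolynomial τ k ⧸ I) (b / g)

/-- SFZ: the surface with the ideal `I` -/
def T_SFZ : Prop := ∀ (k τ : Type) [Field k] [IsAlgClosed k] [CharZero k] [Fintype τ]
  (I : Ideal (MvPolynomial τ k)) [I.IsPrime], HId I →
  Algebra.trdeg k (FractionRing (MvPolynomial τ k ⧸ I)) = 3 →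
  ∃ (m0 : ℕ) (c : Fin 3 → τ → k), (∀ Φ : MvPolynomial (Fin 3) k, Φ ≠ 0 →
    aeval (lin c (X : τ → MvPolynomial τ k)) Φ ∉ I) ∧
  ∀ (m : ℕ) (G : MvPolynomial τ k), m0 ≤ m → Good I G m → 1 ≤ m ∧ SfM I G m

end Pool.Agent.H84.SF
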