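import Pool.Agent.H68.SF.APX
import Pool.Agent.H33.SF.CHR
import Pool.Agent.H91.SF.EQC
import Pool.Agent.H48.SF.EXD
import Pool.Agent.H78.SF.FRS
import Pool.Agent.H86.SF.INDS
import Pool.Agent.H19.SFC.LC1
import Pool.Agent.H58.SF.SOK
import Pool.Agent.H33.SF.RAMS
import Pool.Agent.H33.SF.REM
import Pool.Agent.H19.SFC.TAK
import Pool.Agent.H13.SF.TAY
import Pool.Agent.H1.SF.BDV
import Pool.Agent.H33.SF.CHK
import Pool.Agent.H33.SF.CRM
import Pool.Agent.H56.SF.EPS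
import Pool.Agent.H37.SF.FRE
import Pool.Agent.H68.SF.HMK
import Pool.Agent.H68.SF.MXI
import Pool.Agent.H38.SF.OSF
import Pool.Agent.H37.SF.OSN

/-!
# MP_70ba79_ag, THEOREM S, chapter 11: assembly of parts 11 and 12
-/

set_option autoImplicit false

namespace Pool.Agent.H84.SF

theorem apx : T_APX := Pool.Agent.H68.SF.pf_APX
theorem rem : T_REM := Pool.Agent.H33.SF.pf_REM
theorem tay : T_TAY := Pool.Agent.H13.SF.pf_TAY
theorem tak : T_TAK := Pool.Agent.H19.SFC.pf_TAK apx rem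
theorem exd : T_EXD := Pool.Agent.H48.SF.pf_EXD apx rem
theorem chr : T_CHR := Pool.Agent.H33.SF.pf_CHR apx rem
theorem inds : T_INDS := Pool.Agent.H86.SF.pf_INDS exd
theorem rams : T_RAMS := Pool.Agent.H33.SF.pf_RAMS exd inds
theorem sok : T_SOK := Pool.Agent.H58.SF.pf_SOK
theorem eqc : T_EQC := Pool.Agent.H91.SF.pf_EQC
theorem frs : T_FRS := Pool.Agent.H78.SF.pf_FRS
theorem lc1 : T_LC1 := Pool.Agent.H19.SFC.pf_LC1 tay tak exd rams sok eqc
theorem lc2 : T_LC2 := Pool.Agent.H58.SF.pf_LC2 frs lc1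
theorem bdv : T_BDV := Pool.Agent.H1.SF.pf_BDV
theorem chk : T_CHK := Pool.Agent.H33.SF.pf_CHK
theorem hmk : T_HMK := Pool.Agent.H68.SF.pf_HMK
theorem osf : T_OSF := Pool.Agent.H38.SF.pf_OSF Pool.Agent.H56.SF.pf_EPS
  Pool.Agent.H37.SF.pf_OSN Pool.Agent.H37.SF.pf_FRE Pool.Agent.H33.SF.pf_CRM
  Pool.Agent.H68.SF.pf_MXI

end Pool.Agent.H84.SF
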