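import Pool.Agent.H84.SF.AllFin
import Pool.Agent.H3.SF.All
import Pool.Agent.H15.FOS.All
import Pool.Agent.H92.SFU.All
import Pool.Agent.H81.SF.P1Z

/-!
# MP_70ba79_ag, THEOREM S: the final statement
-/

set_option autoImplicit false

namespace Pool.Agent.H84.SF

/-- MAX is proved -/
theorem maxS : T_MAX := Pool.Agent.H3.SF.All.a_MAX Pool.Agent.H92.SFU.neg Pool.Agent.H92.SFU.mlf
  Pool.Agent.H92.SFU.mlt Pool.Agent.H15.FOS.a_FOS

/-- THEOREM S -/
theorem thmS : T_FINI := fini maxS Pool.Agent.H81.SF.pf_P1Z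

end Pool.Agent.H84.SF
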