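import Pool.Agent.H84.SF.AllS
import Pool.Agent.H84.SF.FinU
import Pool.Agent.H17.CX.All

/-!
# MP_70ba79_ag, THEOREM S: the uniform form without the hypothesis that the curve is irreducible
-/

set_option autoImplicit false

namespace Pool.Agent.H84.SF

/-- THEOREM S, uniform -/
theorem thmU : T_FINU := finu_of
  (pf_SFU (fbz maxS Pool.Agent.H81.SF.pf_P1Z) Pool.Agent.H19.SFC.pf_ORZ)
  Pool.Agent.H17.CX.A.cnx
  (Pool.Agent.H30.SF.pf_GCZh Pool.Agent.H84.SM.A.a_IMF)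
  (Pool.Agent.H29.SF.pf_XPZ Pool.Agent.H77.SF.pf_FCZ)

end Pool.Agent.H84.SF
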