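import Pool.Agent.H84.SF.Fin
import Pool.Agent.H62.HIL.Dim2

/-!
# MP_70ba79_ag, THEOREM S (surfaces), chapter 14: the basic form
-/

set_option autoImplicit false

namespace Pool.Agent.H84.SF

open MvPolynomial SC
open Pool.Agent.H27.LV (ge deg poleOrder canDeg DegreeBound)
open Pool.Agent.H84.SM (cr dt dp)
open Pool.Agent.H84.SL (pd)
open Pool.Agent.H3.SF (Itg Bb BB Hm eu grd hes Sfc Crd Crf Prm)
open Pool.Agent.H17.SD (Prj Smo HRel)

/-- basic form for the ideal `I`, arbitrary homogeneous coordinates -/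
def Bsc {k τ : Type} [Field k] [Fintype τ] (I : Ideal (MvPolynomial τ k)) (G : MvPolynomial τ k)
    (m : ℕ) : Prop := ∃ B : ℕ,
  ∀ (K : Type) [Field K] [Algebra k K] [Algebra.EssFiniteType k K], Algebra.trdeg k K = 1 →
  ∀ (D : Derivation k K K), D ≠ 0 → ∀ (z : τ → K) (S : Finset (DV k K)),
  (∀ f ∈ I, aeval z f = 0) → aeval z G ≠ 0 →
  (∀ v, v ∉ S → ∃ j, z j ≠ 0 ∧ (∀ i, z i ≠ 0 → v.ord (z j) ≤ v.ord (z i)) ∧
    v.ord (aeval z G) = m * v.ord (z j)) →
  ∃ (e : ℕ) (Φ : MvPolynomial τ k), (e : ℤ) ≤ B * max 1 (canDeg D + S.card) ∧ Φ ∉ I ∧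
    Φ.IsHomogeneous e ∧ aeval z Φ = 0

/-- BSX: basic form -/
def T_BSX : Prop := ∀ δ j0 c0 : ℕ, ∃ m0 : ℕ, ∀ (k F σ : Type) [Field k] [IsAlgClosed k]
  [CharZero k] [Field F] [Algebra k F] [Fintype σ] (X : σ → F) (u : Fin 3 → F) (θ : F)
  (dd : Fin 3 → Derivation k F F) (J : MvPolynomial (Fin 3) k) (c : Fin 3 → σ → k),
  SrD X u θ dd J δ j0 c0 c → ∀ (m : ℕ) (GP : MvPolynomial σ k), m0 ≤ m → CvD X u dd m GP →
  Bsc (RingHom.ker (aeval X : MvPolynomial σ k →ₐ[k] F)) GP m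

lemma smul_hom {k L τ : Type} [Field k] [Field L] [Algebra k L] (P : MvPolynomial τ k)
    (e : ℕ) (hP : P.IsHomogeneous e) (c : L) (x : τ → L) :
    aeval (fun i => c * x i) P = c ^ e * aeval x P := by
  rw [aeval_def, aeval_def, eval₂_eq, eval₂_eq, Finset.mul_sum]
  refine Finset.sum_congr rfl fun m hm => ?_
  have h1 : ∑ i ∈ m.support, m i = e := by
    have h := hP (mem_support_iff.1 hm)
    rw [Finsupp.weight_apply, Finsupp.sum] at h
    simpa using h
  rw [← h1, ← Finset.prod_pow_eq_pow_sum]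
  have h2 : ∏ i ∈ m.support, (c * x i) ^ m i = (∏ i ∈ m.support, c ^ m i) *
      ∏ i ∈ m.support, x i ^ m i := by
    rw [← Finset.prod_mul_distrib]
    exact Finset.prod_congr rfl fun i _ => mul_pow _ _ _
  rw [h2]
  ring

/-- the kernel of the evaluation at homogeneous elements of degree one is homogeneous -/
lemma hid_ker {k F σ : Type} [Field k] [CharZero k] [Field F] [Algebra k F] (X : σ → F)
    (u : Fin 3 → F) (dd : Fin 3 → Derivation k F F) (h : ∀ s, eu u dd (X s) = X s) :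
    HId (RingHom.ker (aeval X : MvPolynomial σ k →ₐ[k] F)) := by
  have : CharZero F := charZero_of_injective_algebraMap (algebraMap k F).injective
  have hE : ∀ i, Hm k (eu u dd) 1 (X i) := fun i => by
    unfold Hm
    rw [h i]
    push_cast
    ring
  intro f hf d
  rw [RingHom.mem_ker] at hf ⊢
  have h0 : ∑ i ∈ Finset.range (f.totalDegree + 1), aeval X (homogeneousComponent i f) = 0 := by
    rw [← map_sum, sum_homogeneousComponent]
    exact hf
  by_cases hd : d ∈ Finset.range (f.totalDegree + 1)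
  · exact Pool.Agent.H62.HIL.hm_sum_eq_zero (κ := k) (E := eu u dd)
      (Finset.range (f.totalDegree + 1)) (fun i => (i : ℤ))
      (fun a _ b _ hab => by simpa using hab) (fun i => aeval X (homogeneousComponent i f))
      (fun e _ => Pool.Agent.H62.HIL.hm_aeval hE (homogeneousComponent_isHomogeneous e f)) h0 d hd
  · rw [homogeneousComponent_eq_zero, map_zero]
    simp only [Finset.mem_range] at hd
    omega

/-- scaling of a point -/
lemma on_scale {k L τ : Type} [Field k] [Field L] [Algebra k L] (I : Ideal (MvPolynomial τ k))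
    (hI : HId I) (z : τ → L) (hz : ∀ f ∈ I, aeval z f = 0) (a : L) :
    ∀ f ∈ I, aeval (fun s => a * z s) f = 0 := by
  intro f hf
  rw [← sum_homogeneousComponent f, map_sum]
  refine Finset.sum_eq_zero fun i _ => ?_
  rw [smul_hom _ i (homogeneousComponent_isHomogeneous i f), hz _ (hI f hf i), mul_zero]

lemma aeval_lin {k L τ : Type} [Field k] [CommRing L] [Algebra k L] [Fintype τ]
    (c : Fin 3 → τ → k) (z : τ → L) (Φ : MvPolynomial (Fin 3) k) :
    aeval z (aeval (lin c (X : τ → MvPolynomial τ k)) Φ) = aeval (lin c z) Φ := by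
  have h : ((aeval z : MvPolynomial τ k →ₐ[k] L).comp
      (aeval (lin c (X : τ → MvPolynomial τ k)))) = aeval (lin c z) := by
    refine MvPolynomial.algHom_ext fun l => ?_
    simp [lin, map_sum]
  rw [← h]
  rfl

lemma lin_hom {k τ : Type} [Field k] [Fintype τ] (c : Fin 3 → τ → k) (l : Fin 3) :
    (lin c (X : τ → MvPolynomial τ k) l).IsHomogeneous 1 := by
  unfold lin
  refine IsHomogeneous.sum _ _ _ fun s _ => ?_
  rw [MvPolynomial.smul_eq_C_mul]
  have h := (isHomogeneous_C τ (c l s)).mul (isHomogeneous_X k s)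
  rwa [zero_add] at h

lemma aeval_hom {k τ ρ : Type} [Field k] (U : ρ → MvPolynomial τ k)
    (hU : ∀ l, (U l).IsHomogeneous 1) (Φ : MvPolynomial ρ k) (e : ℕ) (hΦ : Φ.IsHomogeneous e) :
    (aeval U Φ).IsHomogeneous e := by
  have := hΦ.aeval U hU
  rwa [one_mul] at this

/-- the point in the coordinates in which `z j0 = 1` -/
lemma cri_of {k K τ : Type} [Field k] [Field K] [Algebra k K] [Fintype τ]
    (I : Ideal (MvPolynomial τ k)) (hI : HId I) (G : MvPolynomial τ k) (m : ℕ)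
    (hG : G.IsHomogeneous m) (z : τ → K) (S : Finset (DV k K)) (hz : ∀ f ∈ I, aeval z f = 0)
    (hx : aeval z G ≠ 0) (hS : ∀ v : DV k K, v ∉ S → ∃ j, z j ≠ 0 ∧
      (∀ i, z i ≠ 0 → v.ord (z j) ≤ v.ord (z i)) ∧ v.ord (aeval z G) = m * v.ord (z j))
    (j0 : τ) (hj0 : z j0 ≠ 0) : CrI I G m (fun i => (z j0)⁻¹ * z i) S := by
  have hinv : (z j0)⁻¹ ≠ 0 := inv_ne_zero hj0
  refine ⟨on_scale I hI z hz _, ⟨j0, inv_mul_cancel₀ hj0⟩, ?_, ?_⟩
  · rw [smul_hom G m hG]
    exact mul_ne_zero (pow_ne_zero _ hinv) hx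
  · intro v hv
    obtain ⟨j, hj, hmin, hord⟩ := hS v hv
    have hp : (poleOrder v (fun i => (z j0)⁻¹ * z i) : ℤ) = v.ord (z j0) - v.ord (z j) := by
      have hle : v.ord (z j) ≤ v.ord (z j0) := hmin j0 hj0
      apply le_antisymm
      · obtain ⟨p, hp⟩ := Int.eq_ofNat_of_zero_le (sub_nonneg.2 hle)
        rw [hp]
        have : poleOrder v (fun i => (z j0)⁻¹ * z i) ≤ p := by
          refine Finset.sup_le fun i _ => ?_
          change (-(v.ord ((z j0)⁻¹ * z i))).toNat ≤ p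
          by_cases hi : z i = 0
          · rw [hi, mul_zero, v.ord_zero]
            simp
          · rw [DV.ord_mul' v hinv hi, DV.ord_inv]
            have := hmin i hi
            omega
        exact_mod_cast this
      · have h1 : (-(v.ord ((z j0)⁻¹ * z j))).toNat ≤
            poleOrder v (fun i => (z j0)⁻¹ * z i) :=
          Finset.le_sup (f := fun i => (-(v.ord ((z j0)⁻¹ * z i))).toNat) (Finset.mem_univ j)
        rw [DV.ord_mul' v hinv hj, DV.ord_inv] at h1
        omega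
    rw [smul_hom G m hG, DV.ord_mul' v (pow_ne_zero _ hinv) hx, DV.ord_pow, DV.ord_inv, hp, hord]
    ring

theorem pf_BSX (hMXZ : T_MXZ) : T_BSX := by
  intro δ j0 c0
  obtain ⟨m1, hm1⟩ := hMXZ δ j0 c0
  refine ⟨max m1 1, ?_⟩
  intro k F σ _ _ _ _ _ _ X u θ dd J c hS m GP hm hC
  obtain ⟨B, hB⟩ := hm1 k F σ X u θ dd J c hS m GP ((le_max_left _ _).trans hm) hC
  have hm' : 1 ≤ m := (le_max_right _ _).trans hm
  have hI : HId (RingHom.ker (aeval X : MvPolynomial σ k →ₐ[k] F)) :=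
    hid_ker X u dd hS.prj.Xeu
  have hu : u = lin c X := funext fun l => hS.lin l
  have hnot : ∀ Φ : MvPolynomial (Fin 3) k, Φ ≠ 0 →
      aeval (lin c (MvPolynomial.X : σ → MvPolynomial σ k)) Φ ∉
        RingHom.ker (aeval X : MvPolynomial σ k →ₐ[k] F) := by
    intro Φ hΦ h
    rw [RingHom.mem_ker] at h
    have h1 : aeval u Φ = 0 := by
      rw [hu, ← aeval_lin c X Φ]
      exact h
    exact hΦ ((injective_iff_map_eq_zero _).1 hS.sfc.ind Φ h1)
  refine ⟨max B j0, ?_⟩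
  intro K _ _ _ htr D hD z S hz hG hoff
  have h0 : ∃ j, z j ≠ 0 := by
    by_contra h
    push Not at h
    apply hG
    have h1 : z = fun i => (0 : K) * z i := by
      funext i
      rw [h i, mul_zero]
    rw [h1, smul_hom GP m hC.hom, zero_pow (by omega), zero_mul]
  obtain ⟨j1, hj1⟩ := h0
  have hcr := cri_of _ hI GP m hC.hom z S hz hG hoff j1 hj1
  set z1 : σ → K := fun i => (z j1)⁻¹ * z i with hz1
  have hinv : (z j1)⁻¹ ≠ 0 := inv_ne_zero hj1
  have hM : (1 : ℤ) ≤ max 1 (canDeg D + S.card) := le_max_left _ _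
  have hb1 : (B : ℤ) ≤ ((max B j0 : ℕ) : ℤ) := by exact_mod_cast le_max_left _ _
  have hb2 : (j0 : ℤ) ≤ ((max B j0 : ℕ) : ℤ) := by exact_mod_cast le_max_right _ _
  generalize ((max B j0 : ℕ) : ℤ) = B' at hb1 hb2 ⊢
  by_cases hJ : aeval (lin c z1) J = 0
  · refine ⟨j0, aeval (lin c (MvPolynomial.X : σ → MvPolynomial σ k)) J, ?_, hnot J hS.sfc.J0,
      aeval_hom _ (lin_hom c) J j0 hS.sfc.Jh, ?_⟩
    · have : (0 : ℤ) ≤ j0 := Int.natCast_nonneg _
      nlinarith
    · have h1 := aeval_lin c z1 J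
      rw [hJ, hz1, smul_hom _ j0 (aeval_hom _ (lin_hom c) J j0 hS.sfc.Jh)] at h1
      exact (mul_eq_zero.1 h1).resolve_left (pow_ne_zero _ hinv)
  · obtain ⟨e, Φ, he, hΦ0, hΦe, hΦ⟩ := hB K htr D hD z1 S hcr hJ
    refine ⟨e, aeval (lin c (MvPolynomial.X : σ → MvPolynomial σ k)) Φ, ?_, hnot Φ hΦ0,
      aeval_hom _ (lin_hom c) Φ e hΦe, ?_⟩
    · nlinarith
    · have h1 := aeval_lin c z1 Φ
      rw [hΦ, hz1, smul_hom _ e (aeval_hom _ (lin_hom c) Φ e hΦe)] at h1
      exact (mul_eq_zero.1 h1).resolve_left (pow_ne_zero _ hinv)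

end Pool.Agent.H84.SF
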