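import Pool.Agent.H84.SF.FinI
import Pool.Agent.H17.SFG.All
import Pool.Agent.H17.CX.Targets

/-!
# MP_70ba79_ag, THEOREM S, chapter 14: the curve is automatically irreducible
-/

set_option autoImplicit false

namespace Pool.Agent.H84.SF

open MvPolynomial SC
open Pool.Agent.H27.LV (ge deg poleOrder canDeg DegreeBound)
open Pool.Agent.H4.SF (aev aev0)

/-- the curve `G = 0` on the surface with the ideal `I`: `G` is a form of degree `m`, not in `I`; at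
all points of the curve the space of the vectors orthogonal to the gradients has dimension at most
two (the surface and the curve are smooth there) -/
structure GoodC {k τ : Type} [Field k] [Fintype τ] (I : Ideal (MvPolynomial τ k))
    (G : MvPolynomial τ k) (m : ℕ) : Prop where
  hom : G.IsHomogeneous m
  ne : G ∉ I
  smo : ∀ s : τ → k, s ≠ 0 → (∀ f ∈ I, eval s f = 0) → eval s G = 0 →
    ∀ y : Fin 3 → τ → k, (∀ i, ∀ f, f ∈ I ∨ f = G → ∑ j, eval s (pderiv j f) * y i j = 0) →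
      ¬ LinearIndependent k y

theorem goodI_of (hCNX : Pool.Agent.H17.CX.T_CNX) (k τ : Type) [Field k] [IsAlgClosed k]
    [CharZero k] [Fintype τ] (I : Ideal (MvPolynomial τ k)) [I.IsPrime]
    (hI : ∀ f ∈ I, ∀ d, homogeneousComponent d f ∈ I)
    (htr : Algebra.trdeg k (FractionRing (MvPolynomial τ k ⧸ I)) = 3) (m : ℕ)
    (G : MvPolynomial τ k) (hm : 1 ≤ m) (hG : GoodC I G m) : GoodI I G m := by
  obtain ⟨Xf, hXf⟩ : ∃ Xf : τ → FractionRing (MvPolynomial τ k ⧸ I),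
    Xf = fun s : τ => algebraMap (MvPolynomial τ k ⧸ I) (FractionRing (MvPolynomial τ k ⧸ I))
      (Ideal.Quotient.mk I (X s)) := ⟨_, rfl⟩
  have hcone : Pool.Agent.H17.SD.Cone k Xf := by
    rw [hXf]
    exact Pool.Agent.H17.SFG.A.frc k τ I hI htr
  have ha0 : ∀ f : MvPolynomial τ k, aeval Xf f = 0 ↔ f ∈ I := by
    rw [hXf]
    exact aev0 I
  have hker : RingHom.ker (aeval Xf : MvPolynomial τ k →ₐ[k]
      FractionRing (MvPolynomial τ k ⧸ I)) = I := by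
    ext f
    rw [RingHom.mem_ker]
    exact ha0 f
  have hsmo : Pool.Agent.H17.SD.Smo Xf G := by
    intro s hs h1 h2 y h3
    refine hG.smo s hs (fun f hf => h1 f ((ha0 f).2 hf)) h2 y fun i f hf => ?_
    rcases hf with hf | hf
    · exact h3 i f (Or.inl ((ha0 f).2 hf))
    · exact h3 i f (Or.inr hf)
  have hne : aeval Xf G ≠ 0 := fun h => hG.ne ((ha0 G).1 h)
  have hirr := hCNX k _ τ Xf m G hcone hm hG.hom hne hsmo
  unfold Pool.Agent.H17.SFG.Irr at hirr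
  rw [hker] at hirr
  exact ⟨hG.hom, hG.ne, hG.smo, hirr⟩

/-- FIN: the final statement, the curve is irreducible automatically -/
def T_FINC : Prop := ∀ (k : Type) [Field k] [IsAlgClosed k] [CharZero k],
    (∀ (τ : Type) [Fintype τ] (I : Ideal (MvPolynomial τ k)) [I.IsPrime],
      (∀ f ∈ I, ∀ d, homogeneousComponent d f ∈ I) →
      Algebra.trdeg k (FractionRing (MvPolynomial τ k ⧸ I)) = 3 → ∃ m0 : ℕ,
      ∀ (m : ℕ) (G : MvPolynomial τ k), m0 ≤ m → GoodC I G m →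
      ∃ (B M N : ℕ) (Ψ : MvPolynomial τ k), Ψ ∉ I ∧ Ψ.IsHomogeneous N ∧
      ∀ (K : Type) [Field K] [Algebra k K] [Algebra.EssFiniteType k K], Algebra.trdeg k K = 1 →
      ∀ (D : Derivation k K K), D ≠ 0 → ∀ (z : τ → K) (S : Finset (DV k K)),
      (∀ f ∈ I, aeval z f = 0) → aeval z G ≠ 0 →
      (∀ v, v ∉ S → ∃ j, z j ≠ 0 ∧ (∀ i, z i ≠ 0 → v.ord (z j) ≤ v.ord (z i)) ∧
        (v.ord (aeval z G) = m * v.ord (z j) ∨ m * v.ord (z j) + M ≤ v.ord (aeval z G))) →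
      (∃ (e : ℕ) (Φ : MvPolynomial τ k), (e : ℤ) ≤ B * max 1 (canDeg D + S.card) ∧ Φ ∉ I ∧
        Φ.IsHomogeneous e ∧ aeval z Φ = 0) ∧
      (aeval z Ψ ≠ 0 → (∃ i j, z j ≠ 0 ∧ z i / z j ∉ Set.range (algebraMap k K)) →
        1 ≤ canDeg D + S.card ∧
        ∀ j, z j ≠ 0 → deg k (fun i => z i / z j) ≤ B * (canDeg D + S.card))) ∧
    ∀ (ι : Type) [Fintype ι] [DecidableEq ι] [Nonempty ι] (τ : ι → Type) [∀ i, Fintype (τ i)]
    (I : ∀ i, Ideal (MvPolynomial (τ i) k)) [∀ i, (I i).IsPrime],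
    (∀ i, ∀ f ∈ I i, ∀ d, homogeneousComponent d f ∈ I i) →
    (∀ i, Algebra.trdeg k (FractionRing (MvPolynomial (τ i) k ⧸ I i)) = 3) → ∃ m0 : ι → ℕ,
    ∀ (m : ι → ℕ) (G : ∀ i, MvPolynomial (τ i) k), (∀ i, m0 i ≤ m i) →
    (∀ i, GoodC (I i) (G i) (m i)) →
    ∃ (Ψ : ∀ i, MvPolynomial (τ i) k) (M : ι → ℕ),
    (∀ i, Ψ i ∉ I i ∧ ∃ N, (Ψ i).IsHomogeneous N) ∧
    ∀ (σ : Type) [Fintype σ] (P : Ideal (MvPolynomial σ k)) (φ : ∀ i, τ i → MvPolynomial σ k),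
    P.IsPrime → (∀ i, ∀ f ∈ I i, aeval (φ i) f ∈ P) → (∀ i, (∃ j, φ i j ∉ P) ∧
      aeval (φ i) (Ψ i) ∉ P) → GenFinS P φ → (∀ i, aeval (φ i) (G i) ∉ P) →
    (∀ i, ∃ (r : ℕ) (J : Fin r → Ideal (MvPolynomial σ k)) (ε : Fin r → ℕ), (∀ a, M i ≤ ε a) ∧
      Ideal.span {aeval (φ i) (G i)} ⊔ P =
        (Ideal.span (Set.range (φ i)) ^ m i * ∏ a, J a ^ ε a) ⊔ P) →
    ∃ (h : MvPolynomial σ k) (B : ℕ), h ∉ P ∧
      DegreeBound k (P : Set (MvPolynomial σ k)) h (fun χ => B * χ)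

theorem finc_of (h : T_FINI) (hCNX : Pool.Agent.H17.CX.T_CNX) : T_FINC := by
  intro k _ _ _
  obtain ⟨h1, h2⟩ := h k
  refine ⟨fun τ _ I _ hI htr => ?_, fun ι _ _ _ τ _ I _ hI htr => ?_⟩
  · obtain ⟨m0, h⟩ := h1 τ I hI htr
    refine ⟨max 1 m0, fun m G hm hG => h m G (le_trans (le_max_right _ _) hm) ?_⟩
    exact goodI_of hCNX k τ I hI htr m G (le_trans (le_max_left _ _) hm) hG
  · obtain ⟨m0, h⟩ := h2 ι τ I hI htr
    refine ⟨fun i => max 1 (m0 i), fun m G hm hG => h m G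
      (fun i => le_trans (le_max_right _ _) (hm i)) fun i => ?_⟩
    exact goodI_of hCNX k (τ i) (I i) (hI i) (htr i) (m i) (G i)
      (le_trans (le_max_left _ _) (hm i)) (hG i)

end Pool.Agent.H84.SF
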