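import Pool.Agent.H84.SF.SFI
import Pool.Agent.H30.SF.GCZ

set_option autoImplicit false

namespace Pool.Agent.H84.SF

open MvPolynomial SC
open Pool.Agent.H27.LV (ge deg poleOrder canDeg DegreeBound)

/-- FIN: the final statement -/
def T_FINI : Prop := ∀ (k : Type) [Field k] [IsAlgClosed k] [CharZero k],
    (∀ (τ : Type) [Fintype τ] (I : Ideal (MvPolynomial τ k)) [I.IsPrime],
      (∀ f ∈ I, ∀ d, homogeneousComponent d f ∈ I) →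
      Algebra.trdeg k (FractionRing (MvPolynomial τ k ⧸ I)) = 3 → ∃ m0 : ℕ,
      ∀ (m : ℕ) (G : MvPolynomial τ k), m0 ≤ m → GoodI I G m →
      ∃ (B M N : ℕ) (Ψ : MvPolynomial τ k), Ψ ∉ I ∧ Ψ.IsHomogeneous N ∧
      ∀ (K : Type) [Field K] [Algebra k K] [Algebra.EssFiniteType k K], Algebra.trdeg k K = 1 →
      ∀ (D : Derivation k K K), D ≠ 0 → ∀ (z : τ → K) (S : Finset (DV k K)),
      (∀ f ∈ I, aeval z f = 0) → aeval z G ≠ 0 →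
      (∀ v, v ∉ S → ∃ j, z j ≠ 0 ∧ (∀ i, z i ≠ 0 → v.ord (z j) ≤ v.ord (z i)) ∧
        (v.ord (aeval z G) = m * v.ord (z j) ∨ m * v.ord (z j) + M ≤ v.ord (aeval z G))) →
      (∃ (e : ℕ) (Φ : MvPolynomial τ k), (e : ℤ) ≤ B * max 1 (canDeg D + S.card) ∧ Φ ∉ I ∧
        Φ.IsHomogeneous e ∧ aeval z Φ = 0) ∧
      (aeval z Ψ ≠ 0 → (∃ i j, z j ≠ 0 ∧ z i / z j ∉ Set.range (algebraMap k K)) →
        1 ≤ canDeg D + S.card ∧
        ∀ j, z j ≠ 0 → deg k (fun i => z i / z j) ≤ B * (canDeg D + S.card))) ∧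
    ∀ (ι : Type) [Fintype ι] [DecidableEq ι] [Nonempty ι] (τ : ι → Type) [∀ i, Fintype (τ i)]
    (I : ∀ i, Ideal (MvPolynomial (τ i) k)) [∀ i, (I i).IsPrime],
    (∀ i, ∀ f ∈ I i, ∀ d, homogeneousComponent d f ∈ I i) →
    (∀ i, Algebra.trdeg k (FractionRing (MvPolynomial (τ i) k ⧸ I i)) = 3) → ∃ m0 : ι → ℕ,
    ∀ (m : ι → ℕ) (G : ∀ i, MvPolynomial (τ i) k), (∀ i, m0 i ≤ m i) →
    (∀ i, GoodI (I i) (G i) (m i)) →
    ∃ (Ψ : ∀ i, MvPolynomial (τ i) k) (M : ι → ℕ),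
    (∀ i, Ψ i ∉ I i ∧ ∃ N, (Ψ i).IsHomogeneous N) ∧
    ∀ (σ : Type) [Fintype σ] (P : Ideal (MvPolynomial σ k)) (φ : ∀ i, τ i → MvPolynomial σ k),
    P.IsPrime → (∀ i, ∀ f ∈ I i, aeval (φ i) f ∈ P) → (∀ i, (∃ j, φ i j ∉ P) ∧
      aeval (φ i) (Ψ i) ∉ P) → GenFinS P φ → (∀ i, aeval (φ i) (G i) ∉ P) →
    (∀ i, ∃ (r : ℕ) (J : Fin r → Ideal (MvPolynomial σ k)) (ε : Fin r → ℕ), (∀ a, M i ≤ ε a) ∧
      Ideal.span {aeval (φ i) (G i)} ⊔ P =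
        (Ideal.span (Set.range (φ i)) ^ m i * ∏ a, J a ^ ε a) ⊔ P) →
    ∃ (h : MvPolynomial σ k) (B : ℕ), h ∉ P ∧
      DegreeBound k (P : Set (MvPolynomial σ k)) h (fun χ => B * χ)

theorem fini_of (hSFI : T_SFI) (hGCZ : Pool.Agent.H30.SF.T_GCZh) (hXPZ : T_XPZ) : T_FINI := by
  intro k _ _ _
  refine ⟨fun τ _ I _ hI htr => ?_, fun ι _ _ _ τ _ I _ hI htr => ?_⟩
  · obtain ⟨m0, c, hc, h⟩ := hSFI k τ I hI htr
    refine ⟨m0, fun m G hm hG => ?_⟩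
    obtain ⟨h1, h2⟩ := h m G hm hG
    exact hGCZ k τ I G m c hc hI h1 hG.hom h2
  · have h0 := fun i => hSFI k (τ i) (I i) (hI i) (htr i)
    choose m0 c hc h using h0
    refine ⟨m0, fun m G hm hG => ?_⟩
    exact hXPZ k ι τ I G m hI (fun i => (h i (m i) (G i) (hm i) (hG i)).1)
      (fun i => (hG i).hom) (fun i => (h i (m i) (G i) (hm i) (hG i)).2)

end Pool.Agent.H84.SF
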