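import Pool.Agent.H84.SF.Loc

/-!
# MP_70ba79_ag, THEOREM S (surfaces), chapter 11: contact, geometric part 1: the local rings

`F` is a field, `Xc i` (`i` in `σ`) are homogeneous coordinates of the generic point of the surface
`Y` (the kernel of `X i ↦ Xc i` is the homogeneous ideal of `Y`), `s` is a point of the cone over
`Y`. `Os Xc s` is the local ring of `Y` at `s`: quotients `a / b` of forms of the same degree with
`b (s) ≠ 0`.
-/

set_option autoImplicit false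

namespace Pool.Agent.H84.SF

open MvPolynomial SC
open Pool.Agent.H27.LV (ge deg poleOrder canDeg)
open Pool.Agent.H92.OD (HS cf sg uu Lat geO IsO DF DD)
open Pool.Agent.H84.SM (y1 y2 Near cr dt)

section Defs

variable {k F σ : Type} [Field k] [Field F] [Algebra k F]

/-- the ideal of `Y` is homogeneous, and `s` is a point of the cone over `Y` -/
structure Cone (Xc : σ → F) (s : σ → k) : Prop where
  hom : ∀ (f : MvPolynomial σ k) (d : ℕ), aeval Xc f = 0 → aeval Xc (homogeneousComponent d f) = 0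
  pt : ∀ f : MvPolynomial σ k, aeval Xc f = 0 → eval s f = 0

/-- `z` is the quotient `a / b` of two forms of degree `d` -/
def Rep (Xc : σ → F) (z : F) (d : ℕ) (a b : MvPolynomial σ k) : Prop :=
  a.IsHomogeneous d ∧ b.IsHomogeneous d ∧ z * aeval Xc b = aeval Xc a

/-- the local ring of `Y` at `s` -/
def Os (Xc : σ → F) (s : σ → k) : Subalgebra k F where
  carrier := {z | ∃ (d : ℕ) (a b : MvPolynomial σ k), Rep Xc z d a b ∧ eval s b ≠ 0}
  mul_mem' := by
    rintro z w ⟨d, a, b, ⟨ha, hb, h⟩, hs⟩ ⟨d', a', b', ⟨ha', hb', h'⟩, hs'⟩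
    refine ⟨d + d', a * a', b * b', ⟨ha.mul ha', hb.mul hb', ?_⟩, ?_⟩
    · rw [map_mul, map_mul, ← h, ← h']
      ring
    · rw [map_mul]
      exact mul_ne_zero hs hs'
  add_mem' := by
    rintro z w ⟨d, a, b, ⟨ha, hb, h⟩, hs⟩ ⟨d', a', b', ⟨ha', hb', h'⟩, hs'⟩
    refine ⟨d + d', a * b' + b * a', b * b', ⟨(ha.mul hb').add (hb.mul ha'), hb.mul hb', ?_⟩, ?_⟩
    · rw [map_mul, map_add, map_mul, map_mul, ← h, ← h']
      ring
    · rw [map_mul]
      exact mul_ne_zero hs hs'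
  algebraMap_mem' := by
    intro c
    refine ⟨0, C c, 1, ⟨isHomogeneous_C _ _, isHomogeneous_one _ _, ?_⟩, ?_⟩
    · rw [map_one, mul_one, algHom_C]
    · rw [map_one]
      exact one_ne_zero

/-- A frame at `s`: forms `P i`, `i` in `σ`, whose gradients at `s` are independent: linear forms
`L0`, `L1` with `L0 (s) ≠ 0`, `L1 (s) = 0`, the form `G`, and forms in the ideal of `Y`. -/
structure Fra (Xc : σ → F) (s : σ → k) [Fintype σ] [DecidableEq σ] (G L0 L1 : MvPolynomial σ k)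
    (P : σ → MvPolynomial σ k) (i0 i1 i2 : σ) : Prop where
  hom : ∀ i, ∃ d, 1 ≤ d ∧ (P i).IsHomogeneous d
  l0 : L0.IsHomogeneous 1
  l1 : L1.IsHomogeneous 1
  v0 : eval s L0 ≠ 0
  v1 : eval s L1 = 0
  v2 : eval s G = 0
  e0 : P i0 = L0
  e1 : P i1 = L1
  e2 : P i2 = G
  ne : i0 ≠ i1 ∧ i0 ≠ i2 ∧ i1 ≠ i2
  van : ∀ i, i ≠ i0 → i ≠ i1 → i ≠ i2 → aeval Xc (P i) = 0
  det : (Matrix.of fun i j => eval s (pderiv j (P i))).det ≠ 0

/-- the derivations of the frame, `m` is the degree of `G` -/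
structure FraD (Xc : σ → F) (G L0 L1 : MvPolynomial σ k) (m : ℕ) (δX δG : Derivation k F F) :
    Prop where
  x0 : δX (aeval Xc L0) = 0
  x1 : δX (aeval Xc L1) = aeval Xc L0
  x2 : δX (aeval Xc G) = 0
  g0 : δG (aeval Xc L0) = 0
  g1 : δG (aeval Xc L1) = 0
  g2 : δG (aeval Xc G) = aeval Xc L0 ^ m

/-- tangent space of the cone over `D` at `s` -/
def Tng [Fintype σ] (Xc : σ → F) (s : σ → k) (G : MvPolynomial σ k) : Submodule k (σ → k) where
  carrier := {y | (∀ f : MvPolynomial σ k, aeval Xc f = 0 → ∑ i, eval s (pderiv i f) * y i = 0) ∧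
    ∑ i, eval s (pderiv i G) * y i = 0}
  zero_mem' := by simp
  add_mem' := by
    rintro a b ⟨h1, h2⟩ ⟨h3, h4⟩
    refine ⟨fun f hf => ?_, ?_⟩
    · simp only [Pi.add_apply, mul_add, Finset.sum_add_distrib]
      rw [h1 f hf, h3 f hf, add_zero]
    · simp only [Pi.add_apply, mul_add, Finset.sum_add_distrib]
      rw [h2, h4, add_zero]
  smul_mem' := by
    rintro c a ⟨h1, h2⟩
    refine ⟨fun f hf => ?_, ?_⟩
    · simp only [Pi.smul_apply, smul_eq_mul, mul_left_comm _ c]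
      rw [← Finset.mul_sum, h1 f hf, mul_zero]
    · simp only [Pi.smul_apply, smul_eq_mul, mul_left_comm _ c]
      rw [← Finset.mul_sum, h2, mul_zero]

end Defs

section Equation

variable {O : Type} [CommRing O] {k : Type} [CommRing k] [Algebra k O]

/-- coefficients of `det (p, p', p'')` without the second derivatives of `X`, `G` -/
noncomputable def cub (dX dG : Derivation k O O) (p : Fin 3 → O) : Fin 4 → O :=
  ![dt p (fun i => dX (p i)) (fun i => dX (dX (p i))),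
    dt p (fun i => dX (p i)) (fun i => dX (dG (p i)) + dG (dX (p i))) +
      dt p (fun i => dG (p i)) (fun i => dX (dX (p i))),
    dt p (fun i => dX (p i)) (fun i => dG (dG (p i))) +
      dt p (fun i => dG (p i)) (fun i => dX (dG (p i)) + dG (dX (p i))),
    dt p (fun i => dG (p i)) (fun i => dG (dG (p i)))]

/-- coefficients of the cubic form `B (q 1, q 2)`, `q = p × p'`, in terms of `X'`, `G'` -/
noncomputable def bco (dX dG : Derivation k O O) (p : Fin 3 → O) (B : MvPolynomial (Fin 2) O)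
    (j : Fin 4) : O :=
  coeff (Finsupp.single 0 (3 - (j : ℕ)) + Finsupp.single 1 (j : ℕ))
    (aeval (fun i : Fin 2 => C (cr p (fun l => dX (p l)) i.succ) * X 0 +
      C (cr p (fun l => dG (p l)) i.succ) * X 1 : Fin 2 → MvPolynomial (Fin 2) O) B)

end Equation

/-- EPS: the value of an element of the local ring at `s` -/
def T_EPS : Prop := ∀ (k F σ : Type) [Field k] [Field F] [Algebra k F] (Xc : σ → F) (s : σ → k),
  Cone Xc s → ∃ ε : Os Xc s →ₐ[k] k, (∀ h, ε h ≠ 0 → IsUnit h) ∧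
  ∀ (h : Os Xc s) (d : ℕ) (a b : MvPolynomial σ k), Rep Xc (h : F) d a b →
    ε h * eval s b = eval s a

/-- OSN: the local ring is noetherian -/
def T_OSN : Prop := ∀ (k F σ : Type) [Field k] [Field F] [Algebra k F] [Fintype σ] (Xc : σ → F)
  (s : σ → k), Cone Xc s → s ≠ 0 → IsNoetherianRing (Os Xc s)

/-- FRE: frames exist at the points of `D` where `D` and `Y` are smooth -/
def T_FRE : Prop := ∀ (k F σ : Type) [Field k] [CharZero k] [Field F] [Algebra k F] [Fintype σ]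
  [DecidableEq σ] (Xc : σ → F) (s : σ → k) (dd : Fin 3 → Derivation k F F)
  (G : MvPolynomial σ k) (m : ℕ), Cone Xc s → s ≠ 0 →
  (LinearIndependent F fun l => fun i => dd l (Xc i)) → 1 ≤ m → G.IsHomogeneous m →
  eval s G = 0 → Module.finrank k (Tng Xc s G) ≤ 2 →
  ∃ (L0 L1 : MvPolynomial σ k) (P : σ → MvPolynomial σ k) (i0 i1 i2 : σ),
    Fra Xc s G L0 L1 P i0 i1 i2

/-- CRM: the derivations of the frame, by Cramer's rule -/
def T_CRM : Prop := ∀ (k F σ : Type) [Field k] [CharZero k] [Field F] [Algebra k F] [Fintype σ]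
  [DecidableEq σ] (Xc : σ → F) (s : σ → k) (dd : Fin 3 → Derivation k F F)
  (G L0 L1 : MvPolynomial σ k) (P : σ → MvPolynomial σ k) (i0 i1 i2 : σ) (m : ℕ), Cone Xc s →
  (LinearIndependent F fun l => fun i => dd l (Xc i)) → 1 ≤ m → G.IsHomogeneous m →
  Fra Xc s G L0 L1 P i0 i1 i2 → ∃ cX cG : Fin 3 → F,
    FraD Xc G L0 L1 m (∑ l, cX l • dd l) (∑ l, cG l • dd l) ∧
    ∀ h ∈ Os Xc s, (∑ l, cX l • dd l) h ∈ Os Xc s ∧ (∑ l, cG l • dd l) h ∈ Os Xc s

/-- MXI: the maximal ideal is generated by `L1 / L0` and `G / L0 ^ m` -/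
def T_MXI : Prop := ∀ (k F σ : Type) [Field k] [CharZero k] [Field F] [Algebra k F] [Fintype σ]
  [DecidableEq σ] (Xc : σ → F) (s : σ → k) (G L0 L1 : MvPolynomial σ k)
  (P : σ → MvPolynomial σ k) (i0 i1 i2 : σ) (m : ℕ), Cone Xc s → 1 ≤ m → G.IsHomogeneous m →
  Fra Xc s G L0 L1 P i0 i1 i2 → ∀ ε : Os Xc s →ₐ[k] k, (∀ h, ε h ≠ 0 → IsUnit h) →
  (∀ (h : Os Xc s) (d : ℕ) (a b : MvPolynomial σ k), Rep Xc (h : F) d a b →
    ε h * eval s b = eval s a) → IsNoetherianRing (Os Xc s) → ∀ X Gs : Os Xc s,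
  (X : F) * aeval Xc L0 = aeval Xc L1 → (Gs : F) * aeval Xc L0 ^ m = aeval Xc G →
  ∀ h, ε h = 0 ↔ ∃ a b, h = a * X + b * Gs

/-- OSF: the local ring with its frame -/
def T_OSF : Prop := ∀ (k F σ : Type) [Field k] [CharZero k] [Field F] [Algebra k F] [Fintype σ]
  [DecidableEq σ] (Xc : σ → F) (s : σ → k) (dd : Fin 3 → Derivation k F F)
  (G : MvPolynomial σ k) (m : ℕ), Cone Xc s → s ≠ 0 →
  (LinearIndependent F fun l => fun i => dd l (Xc i)) → 1 ≤ m → G.IsHomogeneous m →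
  eval s G = 0 → Module.finrank k (Tng Xc s G) ≤ 2 → IsNoetherianRing (Os Xc s) ∧
  ∃ (L0 L1 : MvPolynomial σ k) (cX cG : Fin 3 → F) (ε : Os Xc s →ₐ[k] k) (X Gs : Os Xc s)
    (dX dG : Derivation k (Os Xc s) (Os Xc s)),
    L0.IsHomogeneous 1 ∧ L1.IsHomogeneous 1 ∧ eval s L0 ≠ 0 ∧ eval s L1 = 0 ∧
    FraD Xc G L0 L1 m (∑ l, cX l • dd l) (∑ l, cG l • dd l) ∧
    (∀ (h : Os Xc s) (d : ℕ) (a b : MvPolynomial σ k), Rep Xc (h : F) d a b →
      ε h * eval s b = eval s a) ∧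
    (X : F) * aeval Xc L0 = aeval Xc L1 ∧ (Gs : F) * aeval Xc L0 ^ m = aeval Xc G ∧
    Frm ε X Gs dX dG ∧ (∀ h : Os Xc s, ((dX h : Os Xc s) : F) = (∑ l, cX l • dd l) (h : F)) ∧
    ∀ h : Os Xc s, ((dG h : Os Xc s) : F) = (∑ l, cG l • dd l) (h : F)

/-- HMK: the homomorphism to the function field of a curve at a place with the centre `s` -/
def T_HMK : Prop := ∀ (k F σ K : Type) [Field k] [Field F] [Algebra k F] [Field K] [Algebra k K]
  (Xc : σ → F) (s : σ → k), Cone Xc s → ∀ z : σ → K,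
  (∀ f : MvPolynomial σ k, aeval Xc f = 0 → aeval z f = 0) → ∀ (v : DV k K) (c : K), c ≠ 0 →
  (∀ i, ge v 1 (c * z i - algebraMap k K (s i))) → ∃ x : Os Xc s →ₐ[k] K,
  (∀ (h : Os Xc s) (d : ℕ) (a b : MvPolynomial σ k), Rep Xc (h : F) d a b →
    x h * aeval z b = aeval z a) ∧ (∀ h, ge v 0 (x h)) ∧
  ∀ ε : Os Xc s →ₐ[k] k, (∀ (h : Os Xc s) (d : ℕ) (a b : MvPolynomial σ k),
    Rep Xc (h : F) d a b → ε h * eval s b = eval s a) → ∀ h, ε h = 0 → ge v 1 (x h)

/-- CHK: the chain rule over the function field of a curve -/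
def T_CHK : Prop := ∀ (k O K : Type) [Field k] [CharZero k] [CommRing O] [Algebra k O] [Field K]
  [Algebra k K] (ε : O →ₐ[k] k) (X G : O) (dX dG : Derivation k O O), Frm ε X G dX dG →
  ∀ (x : O →ₐ[k] K) (v : DV k K), (∀ h, ge v 0 (x h)) → (∀ h, ε h = 0 → ge v 1 (x h)) →
  ∀ D : Derivation k K K, (∃ e : ℤ, ∀ (z : K) (t : ℤ), ge v t z → ge v (t - e) (D z)) →
  ∀ h, D (x h) = x (dX h) * D (x X) + x (dG h) * D (x G)

/-- BDV: derivations of a function field at a place -/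
def T_BDV : Prop := ∀ (k K : Type) [Field k] [IsAlgClosed k] [CharZero k] [Field K] [Algebra k K]
  [Algebra.EssFiniteType k K], Algebra.trdeg k K = 1 → ∀ (D : Derivation k K K) (v : DV k K),
  ∃ e : ℤ, ∀ (z : K) (t : ℤ), ge v t z → ge v (t - e) (D z)

/-- TRF: the equation `A det (p, p', p'') + B (q 1, q 2) = 0`, `q = p × p'`, in the frame -/
def T_TRF : Prop := ∀ (k O K : Type) [Field k] [CommRing O] [Algebra k O] [Field K]
  [Algebra k K] (X G : O) (dX dG : Derivation k O O) (x : O →ₐ[k] K) (D : Derivation k K K),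
  (∀ h, D (x h) = x (dX h) * D (x X) + x (dG h) * D (x G)) →
  ∀ (p : Fin 3 → O) (A : O) (B : MvPolynomial (Fin 2) O), B.IsHomogeneous 3 →
  x A * dt (fun i => x (p i)) (fun i => D (x (p i))) (fun i => D (D (x (p i)))) +
    eval₂ (x : O →+* K) (fun i : Fin 2 => cr (fun l => x (p l)) (fun l => D (x (p l))) i.succ) B
      = 0 →
  EqK D (A * dt p (fun i => dX (p i)) (fun i => dG (p i)))
    (fun j => A * cub dX dG p j + bco dX dG p B j) X G x

/-- NRJ: the Jacobian determinant of three elements `u` with respect to the frame; `dd l` are dual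
to `u`, the elements `w` are homogeneous (Euler's relation) -/
def T_NRJ : Prop := ∀ (k F : Type) [Field k] [Field F] [Algebra k F] (u : Fin 3 → F)
  (dd : Fin 3 → Derivation k F F), (∀ l j, dd l (u j) = if l = j then 1 else 0) →
  ∀ (L0 L1 G : F) (m : ℕ), L0 ≠ 0 → 1 ≤ m → ∑ l, u l * dd l L0 = L0 → ∑ l, u l * dd l L1 = L1 →
  ∑ l, u l * dd l G = m * G → ∀ cX cG : Fin 3 → F,
  (∑ l, cX l * dd l L0 = 0 ∧ ∑ l, cX l * dd l L1 = L0 ∧ ∑ l, cX l * dd l G = 0) →
  (∑ l, cG l * dd l L0 = 0 ∧ ∑ l, cG l * dd l L1 = 0 ∧ ∑ l, cG l * dd l G = L0 ^ m) →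
  dt (fun i => u i / L0) (fun i => (∑ l, cX l • dd l) (u i / L0))
      (fun i => (∑ l, cG l • dd l) (u i / L0)) *
    dt (fun l => dd l L0) (fun l => dd l L1) (fun l => dd l G) = L0 ^ (m - 1)

end Pool.Agent.H84.SF
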