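import Pool.Agent.H84.SM.Targets2

/-!
# MP_70ba79_ag, THEOREM S (surfaces), chapter 11: contact, local part

`O` is the local ring of a smooth point of a surface: its maximal ideal (the kernel of `ε`) is
generated by `X` and `G`, and there are derivations `dX`, `dG` dual to `X`, `G`. `G = 0` is the curve
`D`. Points of the surface over the field `HS k` of series in `u` with rational exponents are
homomorphisms `x : O → HS k`, `x X = u`.
-/

set_option autoImplicit false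

namespace Pool.Agent.H84.SF

open MvPolynomial SC
open Pool.Agent.H27.LV (ge deg poleOrder canDeg)
open Pool.Agent.H92.OD (HS cf sg uu Lat geO IsO DF DD)
open Pool.Agent.H84.SM (y1 y2 Near)

section Local

variable {k O : Type} [Field k] [CommRing O] [Algebra k O]

/-- a regular local ring of dimension two with a frame: `ε` is the value at the point, its kernel is
generated by `X` and `G`, and `dX`, `dG` are the derivations dual to `X`, `G` -/
structure Frm (ε : O →ₐ[k] k) (X G : O) (dX dG : Derivation k O O) : Prop where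
  unit : ∀ h, ε h ≠ 0 → IsUnit h
  max : ∀ h, ε h = 0 ↔ ∃ a b, h = a * X + b * G
  xx : dX X = 1
  xg : dX G = 0
  gx : dG X = 0
  gg : dG G = 1

/-- a point over `HS k`, `X = u` -/
structure Pnt (X G : O) (x : O →ₐ[k] HS k) : Prop where
  eqX : x X = uu k
  pos : ∃ r : ℚ, 0 < r ∧ geO r (x G)
  int : ∀ h, geO 0 (x h)

/-- the point is a solution of `A G'' + b_0 + b_1 G' + b_2 G' ^ 2 + b_3 G' ^ 3 = 0`, where
`' = d / dX` -/
def SolO [CharZero k] (A : O) (b : Fin 4 → O) (G : O) (x : O →ₐ[k] HS k) : Prop :=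
  x A * y2 (x G) + ∑ j : Fin 4, x (b j) * y1 (x G) ^ (j : ℕ) = 0

/-- the same equation for a point over a field `K`, and any derivation `D` -/
def EqK {K : Type} [Field K] [Algebra k K] (D : Derivation k K K) (A : O) (b : Fin 4 → O)
    (X G : O) (x : O →ₐ[k] K) : Prop :=
  x A * (D (x X) * D (D (x G)) - D (x G) * D (D (x X))) +
    ∑ j : Fin 4, x (b j) * D (x G) ^ (j : ℕ) * D (x X) ^ (3 - (j : ℕ)) = 0

/-- the coefficients of the equation for `X + G` instead of `X` -/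
def bsh (b : Fin 4 → O) : Fin 4 → O :=
  ![b 0, b 1 - 3 * b 0, b 2 - 2 * b 1 + 3 * b 0, b 3 - b 2 + b 1 - b 0]

end Local

/-- APX: approximation by polynomials -/
def T_APX : Prop := ∀ (k O : Type) [Field k] [CommRing O] [Algebra k O] (ε : O →ₐ[k] k) (X G : O)
  (dX dG : Derivation k O O), Frm ε X G dX dG → ∀ (N : ℕ) (h : O),
  ∃ (P : MvPolynomial (Fin 2) k) (r : O), r ∈ Ideal.span {X, G} ^ N ∧ h = aeval ![X, G] P + r

/-- REM: derivations and points on the powers of the maximal ideal -/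
def T_REM : Prop := ∀ (k O : Type) [Field k] [CommRing O] [Algebra k O] (ε : O →ₐ[k] k) (X G : O)
  (dX dG : Derivation k O O), Frm ε X G dX dG → ∀ (N : ℕ) (r : O),
  r ∈ Ideal.span {X, G} ^ (N + 1) →
  dX r ∈ Ideal.span {X, G} ^ N ∧ dG r ∈ Ideal.span {X, G} ^ N ∧
  ∀ (x : O →ₐ[k] HS k), Pnt X G x → ∀ ρ : ℚ, 0 < ρ → ρ ≤ 1 → geO ρ (x G) →
    geO ((N + 1) * ρ) (x r)

/-- TAY: the Taylor homomorphism, the generic point of `G = 0` -/
def T_TAY : Prop := ∀ (k O : Type) [Field k] [CharZero k] [CommRing O] [Algebra k O]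
  (ε : O →ₐ[k] k) (X G : O) (dX dG : Derivation k O O), Frm ε X G dX dG →
  ∃ c : O →ₐ[k] HS k, Pnt X G c ∧ c G = 0 ∧ ∀ h, Lat 1 (c h) ∧ cf (c h) 0 = ε h

/-- TAK: its kernel -/
def T_TAK : Prop := ∀ (k O : Type) [Field k] [CommRing O] [IsNoetherianRing O] [Algebra k O]
  (ε : O →ₐ[k] k) (X G : O) (dX dG : Derivation k O O), Frm ε X G dX dG →
  ∀ c : O →ₐ[k] HS k, Pnt X G c → c G = 0 → ∀ h, c h = 0 → G ∣ h

/-- EXD: the difference of two points -/
def T_EXD : Prop := ∀ (k O : Type) [Field k] [CharZero k] [CommRing O] [Algebra k O]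
  (ε : O →ₐ[k] k) (X G : O) (dX dG : Derivation k O O), Frm ε X G dX dG →
  ∀ x1 x2 : O →ₐ[k] HS k, Pnt X G x1 → Pnt X G x2 → ∀ h, ∃ R : HS k, geO 0 R ∧
  x2 h = x1 h + (x2 G - x1 G) * x1 (dG h) + (x2 G - x1 G) ^ 2 * R

/-- CHR: the chain rule -/
def T_CHR : Prop := ∀ (k O : Type) [Field k] [CharZero k] [CommRing O] [Algebra k O]
  (ε : O →ₐ[k] k) (X G : O) (dX dG : Derivation k O O), Frm ε X G dX dG →
  ∀ x : O →ₐ[k] HS k, Pnt X G x → ∀ h, DF (x h) = uu k * x (dX h) + x (dG h) * DF (x G)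

/-- INDS: the order of the difference of two solutions near `G = 0` is a zero of a fixed
polynomial -/
def T_INDS : Prop := ∀ (k O : Type) [Field k] [CharZero k] [CommRing O] [Algebra k O]
  (ε : O →ₐ[k] k) (X G : O) (dX dG : Derivation k O O), Frm ε X G dX dG →
  ∀ (A : O) (b : Fin 4 → O) (a : ℕ) (c : O →ₐ[k] HS k), Pnt X G c → c G = 0 →
  (∀ h, Lat 1 (c h)) → c (b 0) = 0 → IsO (c A) a →
  ∃ χ : Polynomial k, χ ≠ 0 ∧ (a = 0 → χ = Polynomial.X ^ 2 - Polynomial.X) ∧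
  ∀ x1 x2 : O →ₐ[k] HS k, Pnt X G x1 → Pnt X G x2 → Near a (x1 G) → Near a (x2 G) →
  SolO A b G x1 → SolO A b G x2 → ∀ ν : ℚ, IsO (x2 G - x1 G) ν → χ.eval (ν : k) = 0

/-- RAMS: solutions near `G = 0` have bounded ramification and bounded order -/
def T_RAMS : Prop := ∀ (k O : Type) [Field k] [IsAlgClosed k] [CharZero k] [CommRing O]
  [Algebra k O] (ε : O →ₐ[k] k) (X G : O) (dX dG : Derivation k O O), Frm ε X G dX dG →
  ∀ (A : O) (b : Fin 4 → O) (a : ℕ) (c : O →ₐ[k] HS k), Pnt X G c → c G = 0 →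
  (∀ h, Lat 1 (c h)) → c (b 0) = 0 → IsO (c A) a →
  ∃ N : ℕ, 1 ≤ N ∧ (a = 0 → N = 1) ∧ ∀ x : O →ₐ[k] HS k, Pnt X G x → Near a (x G) →
  (∃ n : ℕ, 0 < n ∧ ∀ h, Lat n (x h)) → SolO A b G x →
  (∀ h, Lat N (x h)) ∧ ∀ μ : ℚ, IsO (x G) μ → μ ≤ N

/-- SOK: the equation over `K` and the equation over `HS k` -/
def T_SOK : Prop := ∀ (k O K : Type) [Field k] [CharZero k] [CommRing O] [Algebra k O] [Field K]
  [Algebra k K] (X G A : O) (b : Fin 4 → O) (x : O →ₐ[k] K) (D : Derivation k K K),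
  D (x X) = x X → EqK D A b X G x → ∀ φ : K →ₐ[k] HS k, φ (x X) = uu k →
  (∀ z, φ (D z) = DF (φ z)) → SolO A b G (φ.comp x)

/-- EQC: the equation does not depend on the derivation -/
def T_EQC : Prop := ∀ (k O K : Type) [Field k] [CommRing O] [Algebra k O] [Field K]
  [Algebra k K] (X G A : O) (b : Fin 4 → O) (x : O →ₐ[k] K) (D : Derivation k K K) (c : K),
  EqK D A b X G x → EqK (c • D) A b X G x

/-- FRS: change of the frame -/
def T_FRS : Prop := ∀ (k O : Type) [Field k] [CommRing O] [Algebra k O] (ε : O →ₐ[k] k)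
  (X G : O) (dX dG : Derivation k O O), Frm ε X G dX dG → Frm ε (X + G) G dX (dG - dX) ∧
  ∀ (K : Type) [Field K] [Algebra k K] (A : O) (b : Fin 4 → O) (x : O →ₐ[k] K)
    (D : Derivation k K K), EqK D A b X G x → EqK D A (bsh b) (X + G) G x

/-- LC1: contact, for a frame with `v (X) ≤ v (G)` -/
def T_LC1 : Prop := ∀ (k O : Type) [Field k] [IsAlgClosed k] [CharZero k] [CommRing O]
  [IsDomain O] [IsNoetherianRing O] [Algebra k O] (ε : O →ₐ[k] k) (X G : O)
  (dX dG : Derivation k O O), Frm ε X G dX dG → ∀ (A : O) (b : Fin 4 → O), G ∣ b 0 → ¬ G ∣ A →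
  ∃ C : ℕ, (ε A ≠ 0 → C = 1) ∧
  ∀ (K : Type) [Field K] [Algebra k K] [Algebra.EssFiniteType k K], Algebra.trdeg k K = 1 →
  ∀ (D : Derivation k K K), D ≠ 0 → ∀ (x : O →ₐ[k] K) (v : DV k K),
  (∀ h, ge v 0 (x h)) → (∀ h, ε h = 0 → ge v 1 (x h)) → x G ≠ 0 → x A ≠ 0 → x X ≠ 0 →
  v.ord (x X) ≤ v.ord (x G) → IntermediateField.adjoin k (Set.range x) = ⊤ →
  EqK D A b X G x → v.ord (x G) ≤ v.ord (x A) ∨ v.ord (x G) ≤ C

/-- LC2: contact -/
def T_LC2 : Prop := ∀ (k O : Type) [Field k] [IsAlgClosed k] [CharZero k] [CommRing O]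
  [IsDomain O] [IsNoetherianRing O] [Algebra k O] (ε : O →ₐ[k] k) (X G : O)
  (dX dG : Derivation k O O), Frm ε X G dX dG → ∀ (A : O) (b : Fin 4 → O), G ∣ b 0 →
  ∃ C : ℕ, (ε A ≠ 0 → C = 1) ∧
  ∀ (K : Type) [Field K] [Algebra k K] [Algebra.EssFiniteType k K], Algebra.trdeg k K = 1 →
  ∀ (D : Derivation k K K), D ≠ 0 → ∀ (x : O →ₐ[k] K) (v : DV k K),
  (∀ h, ge v 0 (x h)) → (∀ h, ε h = 0 → ge v 1 (x h)) → x G ≠ 0 → x A ≠ 0 →
  IntermediateField.adjoin k (Set.range x) = ⊤ →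
  EqK D A b X G x → v.ord (x G) ≤ v.ord (x A) ∨ v.ord (x G) ≤ C

end Pool.Agent.H84.SF
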