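import Pool.Agent.H84.SF.BSX
import Pool.Agent.H4.SF.SFZ
import Pool.Agent.H17.SFG.IRR

/-!
# MP_70ba79_ag, THEOREM S (surfaces), chapter 14: the surface with the ideal `I`, irreducible curves
-/

set_option autoImplicit false

namespace Pool.Agent.H84.SF

open MvPolynomial SC
open Pool.Agent.H27.LV (ge deg poleOrder canDeg DegreeBound)
open Pool.Agent.H3.SF (Itg Bb BB Hm eu grd hes Sfc Crd Crf Prm)
open Pool.Agent.H17.SD (Prj Smo HRel PA)
open Pool.Agent.H4.SF (aev aev0)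

/-- the curve `G = 0` on the surface with the ideal `I`: `G` is a form of degree `m`, not in `I`; at
all points of the curve the space of the vectors orthogonal to the gradients has dimension at most
two (the surface and the curve are smooth there); the curve is irreducible -/
structure GoodI {k τ : Type} [Field k] [Fintype τ] (I : Ideal (MvPolynomial τ k))
    (G : MvPolynomial τ k) (m : ℕ) : Prop where
  hom : G.IsHomogeneous m
  ne : G ∉ I
  smo : ∀ s : τ → k, s ≠ 0 → (∀ f ∈ I, eval s f = 0) → eval s G = 0 →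
    ∀ y : Fin 3 → τ → k, (∀ i, ∀ f, f ∈ I ∨ f = G → ∑ j, eval s (pderiv j f) * y i j = 0) →
      ¬ LinearIndependent k y
  irr : (I ⊔ Ideal.span {G}).radical.IsPrime

/-- the data of the surface with the ideal `I` -/
theorem srf_data (k τ : Type) [Field k] [IsAlgClosed k] [CharZero k] [Fintype τ]
    (I : Ideal (MvPolynomial τ k)) [I.IsPrime] (hI : HId I)
    (htr : Algebra.trdeg k (FractionRing (MvPolynomial τ k ⧸ I)) = 3) :
    ∃ (Xf : τ → FractionRing (MvPolynomial τ k ⧸ I)) (u : Fin 3 → FractionRing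
      (MvPolynomial τ k ⧸ I)) (θ : FractionRing (MvPolynomial τ k ⧸ I))
      (dd : Fin 3 → Derivation k (FractionRing (MvPolynomial τ k ⧸ I))
        (FractionRing (MvPolynomial τ k ⧸ I))) (δ j0 c0 : ℕ) (J : MvPolynomial (Fin 3) k)
      (c : Fin 3 → τ → k),
      RingHom.ker (aeval Xf : MvPolynomial τ k →ₐ[k] FractionRing (MvPolynomial τ k ⧸ I)) = I ∧
      SrD Xf u θ dd J δ j0 c0 c ∧
      (∀ Φ : MvPolynomial (Fin 3) k, Φ ≠ 0 →
        aeval (lin c (X : τ → MvPolynomial τ k)) Φ ∉ I) ∧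
      ∀ (m : ℕ) (G : MvPolynomial τ k), j0 < m → GoodI I G m → CvD Xf u dd m G := by
  obtain ⟨Xf, hXf⟩ : ∃ Xf : τ → FractionRing (MvPolynomial τ k ⧸ I),
    Xf = fun s : τ => algebraMap (MvPolynomial τ k ⧸ I) (FractionRing (MvPolynomial τ k ⧸ I))
      (Ideal.Quotient.mk I (X s)) := ⟨_, rfl⟩
  have hcone : Pool.Agent.H17.SD.Cone k Xf := by
    rw [hXf]
    exact Pool.Agent.H17.SFG.A.frc k τ I hI htr
  have ha0 : ∀ f : MvPolynomial τ k, aeval Xf f = 0 ↔ f ∈ I := by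
    rw [hXf]
    exact aev0 I
  obtain ⟨u, θ, dd, δ, j0, c0, J, hsfc, hprj, -⟩ := Pool.Agent.H17.SFG.A.sfc k _ τ Xf hcone
  have hc : ∀ l, ∃ c : τ → k, ∑ s, c s • Xf s = u l := fun l =>
    (Submodule.mem_span_range_iff_exists_fun k).1 (hprj.ulin l)
  choose c hc using hc
  have hker : RingHom.ker (aeval Xf : MvPolynomial τ k →ₐ[k]
      FractionRing (MvPolynomial τ k ⧸ I)) = I := by
    ext f
    rw [RingHom.mem_ker]
    exact ha0 f
  have hlin : u = lin c Xf := funext fun l => (hc l).symm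
  refine ⟨Xf, u, θ, dd, δ, j0, c0, J, c, hker, ⟨hsfc, hprj, fun l => (hc l).symm⟩, ?_, ?_⟩
  · intro Φ hΦ h
    rw [← ha0, aeval_lin, ← hlin] at h
    exact hΦ (hsfc.ind (by rw [h, map_zero]))
  · intro m G hm hG
    have hsmo : Smo Xf G := by
      intro s hs h1 h2 y h3
      refine hG.smo s hs (fun f hf => h1 f ((ha0 f).2 hf)) h2 y fun i f hf => ?_
      rcases hf with hf | hf
      · exact h3 i f (Or.inl ((ha0 f).2 hf))
      · exact h3 i f (Or.inr hf)
    have hne : aeval Xf G ≠ 0 := fun h => hG.ne ((ha0 G).1 h)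
    have hirr : Pool.Agent.H17.SFG.Irr Xf G := by
      unfold Pool.Agent.H17.SFG.Irr
      rw [hker]
      exact hG.irr
    exact ⟨hG.hom, Pool.Agent.H17.SFG.pf_CRI k _ τ Xf u θ dd δ j0 c0 J hcone hsfc hprj m G hm
      hG.hom hne hsmo hirr, hsmo⟩

/-- SFI: the strong form for irreducible curves -/
def T_SFI : Prop := ∀ (k τ : Type) [Field k] [IsAlgClosed k] [CharZero k] [Fintype τ]
  (I : Ideal (MvPolynomial τ k)) [I.IsPrime], HId I →
  Algebra.trdeg k (FractionRing (MvPolynomial τ k ⧸ I)) = 3 →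
  ∃ (m0 : ℕ) (c : Fin 3 → τ → k), (∀ Φ : MvPolynomial (Fin 3) k, Φ ≠ 0 →
    aeval (lin c (X : τ → MvPolynomial τ k)) Φ ∉ I) ∧
  ∀ (m : ℕ) (G : MvPolynomial τ k), m0 ≤ m → GoodI I G m → 1 ≤ m ∧ SfM I G m

theorem pf_SFI (hFBZ : T_FBZ) (hORZ : T_ORZ) : T_SFI := by
  intro k τ _ _ _ _ I _ hI htr
  obtain ⟨Xf, u, θ, dd, δ, j0, c0, J, c, hker, hsrd, hc, hcv⟩ := srf_data k τ I hI htr
  obtain ⟨m1, hm1⟩ := hFBZ δ j0 c0
  refine ⟨max (j0 + 1) m1, c, hc, fun m G hm hG => ?_⟩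
  have hm2 : j0 + 1 ≤ m := le_trans (le_max_left _ _) hm
  have hm3 : m1 ≤ m := le_trans (le_max_right _ _) hm
  have h1 := hm1 k _ τ Xf u θ dd J c hsrd m G hm3 (hcv m G (by omega) hG)
  rw [hker] at h1
  exact ⟨by omega, hORZ k τ I G m (by omega) hG.hom h1⟩

/-- BSI: the basic form for irreducible curves -/
def T_BSI : Prop := ∀ (k τ : Type) [Field k] [IsAlgClosed k] [CharZero k] [Fintype τ]
  (I : Ideal (MvPolynomial τ k)) [I.IsPrime], HId I →
  Algebra.trdeg k (FractionRing (MvPolynomial τ k ⧸ I)) = 3 →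
  ∃ m0 : ℕ, ∀ (m : ℕ) (G : MvPolynomial τ k), m0 ≤ m → GoodI I G m → Bsc I G m

theorem pf_BSI (hBSX : T_BSX) : T_BSI := by
  intro k τ _ _ _ _ I _ hI htr
  obtain ⟨Xf, u, θ, dd, δ, j0, c0, J, c, hker, hsrd, hc, hcv⟩ := srf_data k τ I hI htr
  obtain ⟨m1, hm1⟩ := hBSX δ j0 c0
  refine ⟨max (j0 + 1) m1, fun m G hm hG => ?_⟩
  have hm2 : j0 + 1 ≤ m := le_trans (le_max_left _ _) hm
  have hm3 : m1 ≤ m := le_trans (le_max_right _ _) hm
  have h1 := hm1 k _ τ Xf u θ dd J c hsrd m G hm3 (hcv m G (by omega) hG)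
  rw [hker] at h1
  exact h1

end Pool.Agent.H84.SF
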